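import Pool.Agent.P.MP_6e435d_co.G.Game

/-!
General strategy lemmas: invariants, pairing strategies and sums of two regions.
-/

set_option autoImplicit false
set_option linter.dupNamespace false
set_option linter.unusedSectionVars false

namespace Pool.Agent.P.MP_6e435d_co.Gr

open Pool.Agent.P.MP_6e435d_co.G Function

variable {V : Type} [DecidableEq V] {G : SimpleGraph V}

/-- A legal move of colour `b`. -/
def Lg (G : SimpleGraph V) (f : V → Option Bool) (b : Bool) (u v : V) : Prop :=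
  G.Adj u v ∧ f u = some b ∧ f v = some (!b)

/-- Finitely many stones. -/
def Fi (f : V → Option Bool) : Prop := {v | f v ≠ none}.Finite

theorem mv_ne {f : V → Option Bool} {u v w : V} (hv : f v ≠ none) (h : mv f u v w ≠ none) :
    f w ≠ none := by
  rw [mv_apply] at h
  split_ifs at h with a b
  · exact a ▸ hv
  · exact absurd rfl h
  · exact h

theorem mv_none {f : V → Option Bool} {u v w : V} (hv : f v ≠ none) (h : f w = none) :
    mv f u v w = none := by
  by_contra a
  exact mv_ne hv a h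

theorem mv_of_ne {f : V → Option Bool} {u v w : V} (hu : w ≠ u) (hv : w ≠ v) :
    mv f u v w = f w := by
  rw [mv_apply, if_neg hv, if_neg hu]

theorem mv_dst (f : V → Option Bool) (u v : V) : mv f u v v = f u := by
  rw [mv_apply, if_pos rfl]

theorem mv_src (f : V → Option Bool) {u v : V} (h : u ≠ v) : mv f u v u = none := by
  rw [mv_apply, if_neg h, if_pos rfl]

theorem Lg.ne {f : V → Option Bool} {b : Bool} {u v : V} (h : Lg G f b u v) : f v ≠ none := by
  simp [h.2.2]

theorem Fi.mv {f : V → Option Bool} {b : Bool} {u v : V} (h : Fi f) (l : Lg G f b u v) :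
    Fi (mv f u v) := Set.Finite.subset h fun _ a => mv_ne l.ne a

theorem Lg.lt {f : V → Option Bool} {b : Bool} {u v : V} (l : Lg G f b u v) (h : Fi f) :
    {w | mv f u v w ≠ none}.ncard < {w | f w ≠ none}.ncard := by
  refine Set.ncard_lt_ncard ⟨fun _ a => mv_ne l.ne a, fun hs => ?_⟩ h
  exact hs (show f u ≠ none by simp [l.2.1]) (mv_src f l.1.ne)

theorem Lg.win {f : V → Option Bool} {b : Bool} {u v : V} (l : Lg G f b u v)
    (h : Res G (mv f u v) (!b) false) : Res G f b true :=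
  Res.win _ _ u v l.1 l.2.1 l.2.2 h

theorem lose {f : V → Option Bool} {b : Bool}
    (h : ∀ u v, Lg G f (!b) u v → Res G (mv f u v) b true) : Res G f (!b) false :=
  Res.lose _ _ fun u v a c d => by simpa using h u v ⟨a, c, d⟩

theorem lose_inv {f : V → Option Bool} {b : Bool} (h : Res G f (!b) false) {u v : V}
    (l : Lg G f (!b) u v) : Res G (mv f u v) b true := by
  cases h with
  | lose _ _ e => simpa using e u v l.1 l.2.1 l.2.2

theorem win_inv {f : V → Option Bool} {b : Bool} (h : Res G f b true) :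
    ∃ u v, Lg G f b u v ∧ Res G (mv f u v) (!b) false := by
  cases h with
  | win _ _ u v a c d e => exact ⟨u, v, ⟨a, c, d⟩, e⟩

theorem inv_lose {b : Bool} (I : (V → Option Bool) → Prop)
    (hI : ∀ f, I f → ∀ u v, Lg G f (!b) u v → Res G (mv f u v) b true ∨
      ∃ a c, Lg G (mv f u v) b a c ∧ I (mv (mv f u v) a c)) {f : V → Option Bool} (hf : Fi f)
    (h : I f) : Res G f (!b) false := by
  induction hn : {w | f w ≠ none}.ncard using Nat.strong_induction_on generalizing f with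
  | _ n ih =>
    refine lose fun u v l => ?_
    rcases hI f h u v l with a | ⟨a, c, l', h'⟩
    · exact a
    · have h1 := l.lt hf
      have h2 := l'.lt (hf.mv l)
      exact l'.win (ih _ (by omega) ((hf.mv l).mv l') h' rfl)

/-- Local strategies for colour `b`: `Ge` positions are lost by the opponent moving first, `Hf`
positions are at least a star; colour `b` never enters `F`. -/
structure Loc (G : SimpleGraph V) (b : Bool) (F : Set V) (Ge Hf : (V → Option Bool) → Prop) :
    Prop where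
  nb : ∀ f, Ge f ∨ Hf f → ∀ v ∈ F, f v ≠ some b
  ge : ∀ f, Ge f → ∀ u v, Lg G f (!b) u v → ∃ a c, Lg G (mv f u v) b a c ∧ Ge (mv (mv f u v) a c)
  h1 : ∀ f, Hf f → ∃ a c, Lg G f b a c ∧ Ge (mv f a c)
  h2 : ∀ f, Hf f → ∀ u v, Lg G f (!b) u v → Ge (mv f u v) ∨
    ∃ a c, Lg G (mv f u v) b a c ∧ Hf (mv (mv f u v) a c)

/-- `f` is the union of `f₁` and `f₂`, which touch in `F` only. -/
structure Jn (G : SimpleGraph V) (F : Set V) (f f₁ f₂ : V → Option Bool) : Prop where
  eq : ∀ v, (f₁ v = f v ∧ f₂ v = none) ∨ (f₂ v = f v ∧ f₁ v = none)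
  sep : ∀ u v, G.Adj u v → f₁ u ≠ none → f₂ v ≠ none → u ∈ F ∧ v ∈ F

section Join

variable {F : Set V} {f f₁ f₂ : V → Option Bool}

theorem Jn.symm (h : Jn G F f f₁ f₂) : Jn G F f f₂ f₁ :=
  ⟨fun v => (h.eq v).symm, fun u v a c d => (h.sep v u a.symm d c).symm⟩

theorem Jn.left (h : Jn G F f f₁ f₂) {v : V} (a : f₁ v ≠ none) : f₁ v = f v ∧ f₂ v = none :=
  (h.eq v).resolve_right fun c => a c.2

theorem Jn.mv (h : Jn G F f f₁ f₂) {b : Bool} {u v : V} (l : Lg G f₁ b u v) :
    Lg G f b u v ∧ Jn G F (mv f u v) (mv f₁ u v) f₂ := by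
  have hu := h.left (v := u) (by simp [l.2.1])
  have hv := h.left l.ne
  refine ⟨⟨l.1, hu.1 ▸ l.2.1, hv.1 ▸ l.2.2⟩, fun w => ?_, fun x y a c d =>
    h.sep x y a (mv_ne l.ne c) d⟩
  simp only [mv_apply]
  split_ifs with a c
  · exact Or.inl ⟨hu.1, a ▸ hv.2⟩
  · exact Or.inl ⟨rfl, c ▸ hu.2⟩
  · exact h.eq w

theorem Jn.split (h : Jn G F f f₁ f₂) {b : Bool} (h₁ : ∀ v ∈ F, f₁ v ≠ some b)
    (h₂ : ∀ v ∈ F, f₂ v ≠ some b) {u v : V} (l : Lg G f (!b) u v) :
    Lg G f₁ (!b) u v ∨ Lg G f₂ (!b) u v := by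
  obtain ⟨a, c, d⟩ := l
  rcases h.eq u with e | e <;> rcases h.eq v with g | g
  · exact Or.inl ⟨a, e.1.trans c, g.1.trans d⟩
  · exact absurd (by simp [g.1, d]) (h₂ v (h.sep u v a (by simp [e.1, c]) (by simp [g.1, d])).2)
  · exact absurd (by simp [g.1, d])
      (h₁ v (h.sep v u a.symm (by simp [g.1, d]) (by simp [e.1, c])).1)
  · exact Or.inr ⟨a, e.1.trans c, g.1.trans d⟩

theorem two_aux {b : Bool} {G1 H1 G2 H2 : (V → Option Bool) → Prop} (L1 : Loc G b F G1 H1)
    (L2 : Loc G b F G2 H2) (j : Jn G F f f₁ f₂) (h : (G1 f₁ ∧ G2 f₂) ∨ (H1 f₁ ∧ H2 f₂))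
    {u v : V} (l : Lg G f₁ (!b) u v) : ∃ a c, Lg G (mv f u v) b a c ∧ ∃ g₁ g₂,
      Jn G F (mv (mv f u v) a c) g₁ g₂ ∧ ((G1 g₁ ∧ G2 g₂) ∨ (H1 g₁ ∧ H2 g₂)) := by
  have j1 := (j.mv l).2
  rcases h with ⟨h, h'⟩ | ⟨h, h'⟩
  · obtain ⟨a, c, l', e⟩ := L1.ge _ h u v l
    exact ⟨a, c, (j1.mv l').1, _, _, (j1.mv l').2, Or.inl ⟨e, h'⟩⟩
  · rcases L1.h2 _ h u v l with e | ⟨a, c, l', e⟩
    · obtain ⟨a, c, l', e'⟩ := L2.h1 _ h'
      exact ⟨a, c, (j1.symm.mv l').1, _, _, (j1.symm.mv l').2.symm, Or.inl ⟨e, e'⟩⟩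
    · exact ⟨a, c, (j1.mv l').1, _, _, (j1.mv l').2, Or.inr ⟨e, h'⟩⟩

theorem two {b : Bool} {G1 H1 G2 H2 : (V → Option Bool) → Prop} (L1 : Loc G b F G1 H1)
    (L2 : Loc G b F G2 H2) (hf : Fi f) (j : Jn G F f f₁ f₂)
    (h : (G1 f₁ ∧ G2 f₂) ∨ (H1 f₁ ∧ H2 f₂)) : Res G f (!b) false := by
  refine inv_lose (fun f => ∃ g₁ g₂, Jn G F f g₁ g₂ ∧ ((G1 g₁ ∧ G2 g₂) ∨ (H1 g₁ ∧ H2 g₂)))
    ?_ hf ⟨_, _, j, h⟩
  rintro f ⟨g₁, g₂, j, h⟩ u v l
  right
  rcases j.split (L1.nb _ (h.imp And.left And.left)) (L2.nb _ (h.imp And.right And.right)) l with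
    l | l
  · exact two_aux L1 L2 j h l
  · obtain ⟨a, c, l', g₁, g₂, j', h'⟩ := two_aux L2 L1 j.symm (h.imp And.symm And.symm) l
    exact ⟨a, c, l', g₂, g₁, j'.symm, h'.imp And.symm And.symm⟩

theorem loc_res (b : Bool) : Loc G b ∅ (fun f => Res G f (!b) false) fun _ => False :=
  ⟨fun _ _ _ h => h.elim, fun _ h _ _ l => win_inv (lose_inv h l), fun _ h => h.elim,
    fun _ h => h.elim⟩

theorem sum_win {b : Bool} (hf : Fi f) (j : Jn G ∅ f f₁ f₂) (h₁ : Res G f₁ b true)
    (h₂ : Res G f₂ (!b) false) : Res G f b true := by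
  obtain ⟨u, v, l, h⟩ := win_inv h₁
  exact (j.mv l).1.win (two (loc_res b) (loc_res b) (hf.mv (j.mv l).1) (j.mv l).2 (Or.inl ⟨h, h₂⟩))

theorem Loc.res {b : Bool} {G1 H1 : (V → Option Bool) → Prop} (L : Loc G b F G1 H1) (hf : Fi f)
    (h : G1 f) : Res G f (!b) false :=
  inv_lose G1 (fun f h u v l => Or.inr (L.ge f h u v l)) hf h

end Join

/-- A pairing strategy: every capture is answered by a recapture. -/
structure Pr (G : SimpleGraph V) (b : Bool) (ρ : V → V → V) (f : V → Option Bool) : Prop where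
  ok : ∀ z r, Lg G f (!b) z r → G.Adj (ρ z r) r ∧ f (ρ z r) = some b
  inj : ∀ z r z' r', Lg G f (!b) z r → Lg G f (!b) z' r' → ρ z r = ρ z' r' → z = z'

theorem Pr.mono {b : Bool} {ρ : V → V → V} {f g : V → Option Bool} (h : Pr G b ρ f)
    (a : ∀ z r, Lg G g (!b) z r → Lg G f (!b) z r ∧ (f (ρ z r) = some b → g (ρ z r) = some b)) :
    Pr G b ρ g :=
  ⟨fun z r l => ⟨(h.ok z r (a z r l).1).1, (a z r l).2 (h.ok z r (a z r l).1).2⟩,
    fun z r z' r' l l' => h.inj z r z' r' (a z r l).1 (a z' r' l').1⟩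

theorem mv_mv {f : V → Option Bool} {b : Bool} {z r s : V} (l : Lg G f (!b) z r)
    (a : G.Adj s r) (c : f s = some b) (w : V) :
    mv (mv f z r) s r w = if w = z ∨ w = s then none else f w := by
  have h1 : s ≠ z := by
    rintro rfl
    simp [l.2.1] at c
  have h2 := l.1.ne
  have h3 := a.ne
  have h4 := l.2.2
  simp only [mv_apply]
  split_ifs <;> simp_all [eq_comm]

theorem Pr.step {b : Bool} {ρ : V → V → V} {f : V → Option Bool} (h : Pr G b ρ f) {z r : V}
    (l : Lg G f (!b) z r) {g : V → Option Bool}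
    (e : ∀ w, g w = if w = z ∨ w = ρ z r then none else f w) : Pr G b ρ g := by
  refine h.mono fun z' r' l' => ?_
  obtain ⟨a, c, d⟩ := l'
  rw [e] at c d
  split_ifs at c d with h1 h2
  refine ⟨⟨a, c, d⟩, fun k => ?_⟩
  rw [e, if_neg, k]
  rintro (p | p)
  · simp [p, l.2.1] at k
  · exact h1 (Or.inl (h.inj _ _ _ _ ⟨a, c, d⟩ l p))

theorem Pr.reply {b : Bool} {ρ : V → V → V} {f : V → Option Bool} (h : Pr G b ρ f) {z r : V}
    (l : Lg G f (!b) z r) : Lg G (mv f z r) b (ρ z r) r := by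
  obtain ⟨a, c⟩ := h.ok z r l
  refine ⟨a, ?_, by rw [mv_dst, l.2.1]⟩
  rw [mv_of_ne _ a.ne, c]
  intro e
  simp [e, l.2.1] at c

/-- A raider on `p` next to the leaf `l`. -/
structure Star (G : SimpleGraph V) (b : Bool) (ρ : V → V → V) (F : Set V) (p l : V)
    (f : V → Option Bool) : Prop where
  lg : Lg G f b p l
  lf : ∀ v, G.Adj l v → f v ≠ none → v = p
  nb : ∀ v, G.Adj p v → f v ≠ some b
  pr : Pr G b ρ (update f p none)
  fb : ∀ v ∈ F, f v ≠ some b
  out : l ∉ F

theorem loc_pr (b : Bool) (ρ : V → V → V) (F : Set V) (p l : V) :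
    Loc G b F (fun f => Pr G b ρ f ∧ ∀ v ∈ F, f v ≠ some b) (Star G b ρ F p l) := by
  refine ⟨fun f h => h.elim And.right Star.fb, fun f h z r k => ?_, fun f h => ?_,
    fun f h z r k => ?_⟩
  · have e := mv_mv k (h.1.ok z r k).1 (h.1.ok z r k).2
    refine ⟨_, _, h.1.reply k, h.1.step k e, fun v hv => ?_⟩
    rw [e]
    split_ifs
    · simp
    · exact h.2 v hv
  · have hl := h.lg
    refine ⟨p, l, hl, h.pr.mono fun z r k => ?_, fun v hv => ?_⟩
    · obtain ⟨a, c, d⟩ := k
      have h1 : z ≠ l := by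
        rintro rfl
        simp [mv_dst, hl.2.1] at c
      have h2 : z ≠ p := by
        rintro rfl
        simp [mv_src f hl.1.ne] at c
      have h3 : r ≠ p := by
        rintro rfl
        simp [mv_src f hl.1.ne] at d
      rw [mv_of_ne h2 h1] at c
      have h4 : r ≠ l := by
        rintro rfl
        exact h2 (h.lf z a.symm (by simp [c]))
      rw [mv_of_ne h3 h4] at d
      refine ⟨⟨a, by rwa [update_of_ne h2], by rwa [update_of_ne h3]⟩, fun e => ?_⟩
      have h5 : ρ z r ≠ p := by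
        intro q
        simp [q] at e
      rw [update_of_ne h5] at e
      rw [mv_of_ne h5, e]
      intro q
      simp [q, hl.2.2] at e
    · have h1 : v ≠ l := fun e => h.out (e ▸ hv)
      rw [mv_apply, if_neg h1]
      split_ifs
      · simp
      · exact h.fb v hv
  · have hl := h.lg
    have hz : z ≠ p := by
      rintro rfl
      simpa [k.2.1] using hl.2.1
    by_cases hr : r = p
    · subst hr
      refine Or.inl ⟨h.pr.mono fun z' r' k' => ?_, fun v hv => ?_⟩
      · obtain ⟨a, c, d⟩ := k'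
        have h1 : r' ≠ r := by
          rintro rfl
          simp [mv_dst, k.2.1] at d
        have h2 : r' ≠ z := by
          rintro rfl
          simp [mv_src f hz] at d
        rw [mv_of_ne h2 h1] at d
        have h3 : z' ≠ r := by
          rintro rfl
          exact h.nb r' a (by simpa using d)
        have h4 : z' ≠ z := by
          rintro rfl
          simp [mv_src f hz] at c
        rw [mv_of_ne h4 h3] at c
        refine ⟨⟨a, by rwa [update_of_ne h3], by rwa [update_of_ne h1]⟩, fun e => ?_⟩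
        have h5 : ρ z' r' ≠ r := by
          intro q
          simp [q] at e
        rw [update_of_ne h5] at e
        rw [mv_of_ne _ h5, e]
        intro q
        simp [q, k.2.1] at e
      · rw [mv_apply]
        split_ifs
        · simp [k.2.1]
        · simp
        · exact h.fb v hv
    · have k' : Lg G (update f p none) (!b) z r :=
        ⟨k.1, by rw [update_of_ne hz, k.2.1], by rw [update_of_ne hr, k.2.2]⟩
      obtain ⟨a, c⟩ := h.pr.ok z r k'
      have h1 : ρ z r ≠ p := by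
        intro q
        simp [q] at c
      rw [update_of_ne h1] at c
      have e := mv_mv k a c
      have h2 : l ≠ z := by
        rintro rfl
        exact hr (h.lf r k.1 k.ne)
      have h3 : l ≠ ρ z r := by
        intro q
        simp [← q, hl.2.2] at c
      refine Or.inr ⟨ρ z r, r, ⟨a, ?_, by rw [mv_dst, k.2.1]⟩, ⟨hl.1, ?_, ?_⟩, fun v x y => ?_,
        fun v x => ?_, h.pr.step k' fun w => ?_, fun v hv => ?_, h.out⟩
      · rw [mv_of_ne _ a.ne, c]
        intro q
        simp [q, k.2.1] at c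
      · rw [e, if_neg (by simp [hz.symm, h1.symm]), hl.2.1]
      · rw [e, if_neg (by simp [h2, h3]), hl.2.2]
      · rw [e] at y
        split_ifs at y
        · exact absurd rfl y
        · exact h.lf v x y
      · rw [e]
        split_ifs
        · simp
        · exact h.nb v x
      · simp only [update_apply, e]
        split_ifs <;> rfl
      · rw [e]
        split_ifs
        · simp
        · exact h.fb v hv

theorem Pr.res {b : Bool} {ρ : V → V → V} {f : V → Option Bool} (h : Pr G b ρ f) (hf : Fi f) :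
    Res G f (!b) false := by
  refine inv_lose (Pr G b ρ) (fun f h z r k => Or.inr ⟨_, _, h.reply k, ?_⟩) hf h
  exact h.step k (mv_mv k (h.ok z r k).1 (h.ok z r k).2)

end Pool.Agent.P.MP_6e435d_co.Gr
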