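import Pool.Agent.P.MP_6e435d_co.G.Defs

/-!
Clobber on rectangular boards as a language.
-/

set_option autoImplicit false

namespace Pool.Agent.P.MP_6e435d_co.Gr

open Pool.Agent.P.MP_ba7db8_lc Pool.Agent.P.MP_6e435d_co.G

/-- The cells of an `m × n` board holding a stone of colour `b`, row by row. -/
def bitmap {m n : ℕ} (f : Fin m × Fin n → Option Bool) (b : Bool) : List Bool :=
  (List.finRange m).flatMap fun i => (List.finRange n).map fun j => decide (f (i, j) = some b)

/-- The code of a position on the `m × n` board. -/
def gcode {m n : ℕ} (f : Fin m × Fin n → Option Bool) : List Bool :=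
  pair (List.replicate m true) (pair (List.replicate n true)
    (pair (bitmap f true) (bitmap f false)))

/-- The codes of the positions on rectangular boards that colour `true`, moving first, wins. -/
def GridLang : Set (List Bool) :=
  {x | ∃ (m n : ℕ) (f : Fin m × Fin n → Option Bool), x = gcode f ∧
    Res ((SimpleGraph.pathGraph m).boxProd (SimpleGraph.pathGraph n)) f true true}

end Pool.Agent.P.MP_6e435d_co.Gr
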