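import Pool.Agent.P.MP_6e435d_co.Gr.Defs
import Pool.Agent.P.MP_6e435d_co.G.Mem

/-!
Clobber on rectangular boards is in alternating polynomial time.
-/

set_option autoImplicit false
set_option linter.dupNamespace false

namespace Pool.Agent.P.MP_6e435d_co.Gr

open Pool.Agent.P.MP_ba7db8_lc Pool.Agent.Lib.Helper47 Pool.Agent.P.MP_5d374e_co.S2 Turing
open Pool.Agent.P.MP_6e435d_co.G SimpleGraph

variable {m n : ℕ}

theorem bitmap_eq (f : Fin m × Fin n → Option Bool) (b : Bool) (q : ℕ → ℕ → Bool)
    (h : ∀ (i : Fin m) (j : Fin n), q i j = true ↔ f (i, j) = some b) :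
    bitmap f b = (List.range m).flatMap fun a => (List.range n).map (q a) := by
  have hr : ∀ n, List.range n = (List.finRange n).map Fin.val := fun n => by
    apply List.ext_getElem <;> simp
  unfold bitmap
  rw [hr m, hr n, List.flatMap_map]
  refine congrArg (List.flatMap · _) (funext fun u => ?_)
  rw [List.map_map]
  refine congrArg (List.map · _) (funext fun v => ?_)
  rw [Bool.eq_iff_iff, decide_eq_true_eq]
  exact (h u v).symm

theorem length_bitmap (f : Fin m × Fin n → Option Bool) (b : Bool) :
    (bitmap f b).length = m * n := by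
  simp [bitmap, List.length_flatMap]

theorem getD_bitmap (f : Fin m × Fin n → Option Bool) (b : Bool) (i : Fin m) (j : Fin n) :
    (bitmap f b).getD (i * n + j) false = true ↔ f (i, j) = some b := by
  rw [bitmap_eq f b (fun a c => decide (∃ (ha : a < m) (hc : c < n), f (⟨a, ha⟩, ⟨c, hc⟩) = some b))
    (by simp), getD_flatMap_range _ _ _ i.2 j.2]
  simp

theorem getD_bitmap' (f : Fin m × Fin n → Option Bool) (b : Bool) (u : Fin (m * n)) :
    (bitmap f b).getD u false = true ↔ f (finProdFinEquiv.symm u) = some b := by
  have := getD_bitmap f b u.divNat u.modNat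
  rwa [Fin.coe_divNat, Fin.coe_modNat, Nat.div_add_mod'] at this

theorem gcode_mem (f : Fin m × Fin n → Option Bool) :
    gcode f ∈ GridLang ↔ Res ((pathGraph m).boxProd (pathGraph n)) f true true := by
  refine ⟨?_, fun h => ⟨m, n, f, rfl, h⟩⟩
  rintro ⟨m', n', f', e, h⟩
  have e1 := congrArg unp1 e
  have e2 := congrArg (fun x => unp1 (unp2 x)) e
  have e3 := congrArg (fun x => unp1 (unp2 (unp2 x))) e
  have e4 := congrArg (fun x => unp2 (unp2 (unp2 x))) e
  simp only [gcode, unp1_pair, unp2_pair] at e1 e2 e3 e4
  obtain rfl : m = m' := by simpa using congrArg List.length e1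
  obtain rfl : n = n' := by simpa using congrArg List.length e2
  obtain rfl : f = f' := by
    funext ⟨i, j⟩
    refine Option.ext fun b => ?_
    rw [← getD_bitmap, ← getD_bitmap]
    cases b
    exacts [by rw [e4], by rw [e3]]
  exact h

/-- The stone read from two bits. -/
def rd (B R : List Bool) (u : ℕ) : Option Bool :=
  if B.getD u false = true then some true else if R.getD u false = true then some false else none

/-- Well-formed codes. -/
def Wg (x : List Bool) : Prop :=
  x = pair (List.replicate (unp1 x).length true) (pair (List.replicate (unp1 (unp2 x)).length true)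
    (pair (unp1 (unp2 (unp2 x))) (unp2 (unp2 (unp2 x))))) ∧
  (unp1 (unp2 (unp2 x))).length = (unp1 x).length * (unp1 (unp2 x)).length ∧
  (unp2 (unp2 (unp2 x))).length = (unp1 x).length * (unp1 (unp2 x)).length ∧
  ∀ u < (unp1 (unp2 (unp2 x))).length, ¬ ((unp1 (unp2 (unp2 x))).getD u false = true ∧
    (unp2 (unp2 (unp2 x))).getD u false = true)

theorem ptp_Wg {α : Type} [Enc α] {x : α → List Bool} (hx : PT x) : PTP fun a => Wg (x a) := by
  have h1 := pt_unp1 hx
  have h2 := pt_unp1 (pt_unp2 hx)
  have h3 := pt_unp1 (pt_unp2 (pt_unp2 hx))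
  have h4 := pt_unp2 (pt_unp2 (pt_unp2 hx))
  exact PTP.and (PTP.eq hx (Par.pt_pair (PT.replicate (PT.length h1) (ps_length h1) (PT.const _))
    (Par.pt_pair (PT.replicate (PT.length h2) (ps_length h2) (PT.const _)) (Par.pt_pair h3 h4))))
    (PTP.and (PTP.eq (by fun_prop) (by fun_prop)) (PTP.and (PTP.eq (by fun_prop) (by fun_prop))
      (PTP.ball (PT.length h3) (ps_length h3) (PTP.and (PTP.eq (by fun_prop) (by fun_prop))
        (PTP.eq (by fun_prop) (by fun_prop))).not)))

theorem eq_bitmap {l : List Bool} {f : Fin m × Fin n → Option Bool} {b : Bool}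
    (h : l.length = m * n) (e : ∀ u : Fin (m * n), l.getD u false = true ↔
      f (finProdFinEquiv.symm u) = some b) : l = bitmap f b := by
  refine List.ext_getElem (by rw [h, length_bitmap]) fun i a c => ?_
  have := (e ⟨i, h ▸ a⟩).trans (getD_bitmap' f b ⟨i, h ▸ a⟩).symm
  rw [List.getD_eq_getElem _ _ a, List.getD_eq_getElem _ _ c] at this
  exact Bool.eq_iff_iff.2 this

theorem wg_iff (x : List Bool) :
    Wg x ↔ ∃ (m n : ℕ) (f : Fin m × Fin n → Option Bool), x = gcode f := by
  constructor
  · rintro ⟨h0, h1, h2, h3⟩
    generalize (unp1 x).length = m, (unp1 (unp2 x)).length = n, unp1 (unp2 (unp2 x)) = B,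
      unp2 (unp2 (unp2 x)) = R at *
    refine ⟨m, n, fun v => rd B R (finProdFinEquiv v), ?_⟩
    rw [h0, gcode, ← eq_bitmap h1 fun u => ?_, ← eq_bitmap h2 fun u => ?_]
    · have := h3 u (u.2.trans_eq h1.symm)
      simp only [Equiv.apply_symm_apply, rd]
      split_ifs <;> simp_all
    · simp only [Equiv.apply_symm_apply, rd]
      split_ifs <;> simp_all
  · rintro ⟨m, n, f, rfl⟩
    simp only [Wg, gcode, unp1_pair, unp2_pair, List.length_replicate, length_bitmap, true_and]
    intro u hu a
    have := ((getD_bitmap' f true ⟨u, hu⟩).1 a.1).symm.trans ((getD_bitmap' f false ⟨u, hu⟩).1 a.2)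
    simp at this

/-- Adjacency on a board with rows of length `n`. -/
def adjN (n u v : ℕ) : Prop :=
  ((u / n + 1 = v / n ∨ v / n + 1 = u / n) ∧ u % n = v % n) ∨
    ((u % n + 1 = v % n ∨ v % n + 1 = u % n) ∧ u / n = v / n)

instance (n u v : ℕ) : Decidable (adjN n u v) := by unfold adjN; infer_instance

theorem res_flat (f : Fin m × Fin n → Option Bool) :
    Res ((pathGraph m).boxProd (pathGraph n)) f true true ↔
      Res (((pathGraph m).boxProd (pathGraph n)).comap finProdFinEquiv.symm)
        (f ∘ finProdFinEquiv.symm) true true := by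
  refine ⟨fun h => h.comap finProdFinEquiv.symm.injective fun u _ _ =>
    finProdFinEquiv.symm.surjective u, fun h => ?_⟩
  have := h.comap finProdFinEquiv.injective fun u _ _ => finProdFinEquiv.surjective u
  simpa [comap_comap, Function.comp_assoc] using this

theorem mem_ap : InAP GridLang := by
  classical
  have h1 : PT fun z : List Bool => unp1 z := by fun_prop
  have h3 : PT fun z : List Bool => unp1 (unp2 (unp2 (unp1 z))) := by fun_prop
  have hr := PT.range (PT.length h3) (ps_length h3)
  have h := PT.and (ptp_Wg h1).dec (pt_sim (w := fun z => unp2 z)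
    (n := fun z => (unp1 z).length * (unp1 z).length)
    (A := fun z => (List.range (unp1 (unp2 (unp2 (unp1 z)))).length).flatMap fun u =>
      (List.range (unp1 (unp2 (unp2 (unp1 z)))).length).map fun v =>
        decide (adjN (unp1 (unp2 (unp1 z))).length u v))
    (l := fun z => (List.range (unp1 (unp2 (unp2 (unp1 z)))).length).map
      (rd (unp1 (unp2 (unp2 (unp1 z)))) (unp2 (unp2 (unp2 (unp1 z))))))
    (PT.flatMap (g := fun z u => (List.range (unp1 (unp2 (unp2 (unp1 z)))).length).map fun v =>
      decide (adjN (unp1 (unp2 (unp1 z))).length u v)) (PT.map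
        (g := fun (y : List Bool × ℕ) v => decide (adjN (unp1 (unp2 (unp1 y.1))).length y.2 v))
        (PTP.dec (by
          unfold adjN
          repeat' first
            | apply PTP.and
            | apply PTP.or
            | (apply PTP.eq <;> fun_prop))) (hr.comp (by fun_prop))) hr)
    (by fun_prop) ((ps_length h1).mul (ps_length h1))
    (PT.map (g := fun z u => rd (unp1 (unp2 (unp2 (unp1 z)))) (unp2 (unp2 (unp2 (unp1 z)))) u)
      (by unfold rd; fun_prop) hr) (by fun_prop))
  refine ⟨_, Polynomial.X * Polynomial.X * (2 * (Polynomial.X * Polynomial.X)),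
    PT.computableInPolyTime id Computability.encodeBool _ (PT.cons h (PT.const [])) fun _ => rfl,
    fun x => ?_⟩
  simp only [id, unp1_pair, unp2_pair, Bool.and_eq_true, decide_eq_true_eq, Polynomial.eval_mul,
    Polynomial.eval_X, Polynomial.eval_ofNat]
  by_cases hx : Wg x
  · obtain ⟨m, n, f, rfl⟩ := (wg_iff x).1 hx
    have hl : m * n < (gcode f).length := by
      have : ∀ l : List Bool, (l.flatMap fun b => [true, b]).length = 2 * l.length := fun l => by
        simp [List.length_flatMap, mul_comm]
      simp only [gcode, pair, length_bitmap, List.length_append, List.length_cons, this]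
      omega
    rw [gcode_mem, res_flat]
    refine (alt_sim (Nat.mul_le_mul hl.le hl.le) _ _ true [] rfl ?_ fun w _ => ?_).symm
    · have : stones (f ∘ finProdFinEquiv.symm) ≤ m * n := (Finset.card_le_univ _).trans (by simp)
      nlinarith
    · simp only [hx, true_and, List.nil_append]
      rw [adjBits_eq _ (fun u v => decide (adjN n u v)) fun u v => by
        rw [decide_eq_true_eq]
        simp [adjN, pathGraph_adj, Fin.ext_iff]]
      have : List.ofFn (f ∘ finProdFinEquiv.symm) =
          (List.range (m * n)).map (rd (bitmap f true) (bitmap f false)) := by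
        refine List.ext_getElem (by simp) fun i a c => ?_
        have hi : i < m * n := by simpa using a
        have a1 := getD_bitmap' f true ⟨i, hi⟩
        have a2 := getD_bitmap' f false ⟨i, hi⟩
        simp only [List.getElem_ofFn, List.getElem_map, List.getElem_range, rd, a1, a2,
          Function.comp]
        rcases f (finProdFinEquiv.symm ⟨i, hi⟩) with _ | _ | _ <;> simp
      rw [this]
      simp only [gcode, unp1_pair, unp2_pair, List.length_replicate, length_bitmap]
  · rw [alt_const (Q := False) _ _ fun w _ => by simp [hx]]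
    exact iff_false_intro fun ⟨m, n, f, e, _⟩ => hx ((wg_iff x).2 ⟨m, n, f, e⟩)

end Pool.Agent.P.MP_6e435d_co.Gr
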