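import Pool.Agent.P.MP_6e435d_co.Gr.Sea

/-!
Punishing a player who leaves the main line.
-/

set_option autoImplicit false
set_option linter.dupNamespace false

namespace Pool.Agent.P.MP_6e435d_co.Gr

open Pool.Agent.P.MP_6e435d_co.G Function Finset

/-- Row number. -/
def ix (y : ℤ) : ℕ := (y / 30).toNat

/-- Left end of a tail. -/
def lo (len : ℕ → ℤ) (y : ℤ) : ℤ := -1 - len (ix y)

/-- The row of a switch. -/
def ry (j : ℕ) : ℤ := 30 * j + 15

theorem ix_ry (j : ℕ) : ix (ry j) = j := by unfold ix ry; omega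

/-- The cells of a tail. -/
noncomputable def tl (len : ℕ → ℤ) (y : ℤ) : Finset (ℤ × ℤ) := (Ico (lo len y) (-1)).image fun x => (x, y)

variable {len : ℕ → ℤ} {b c : Bool} {f : Pos} {u v : ℤ × ℤ} {U : Finset ℕ} {k : ℤ}

theorem mem_tl {y : ℤ} : v ∈ tl len y ↔ v.2 = y ∧ lo len y ≤ v.1 ∧ v.1 < -1 := by
  obtain ⟨a, d⟩ := v
  simp only [tl, mem_image, mem_Ico, Prod.mk.injEq]
  exact ⟨fun ⟨x, p, q, r⟩ => ⟨r.symm, q ▸ p⟩, fun ⟨p, q⟩ => ⟨a, q, rfl, p.symm⟩⟩

theorem card_tl {y : ℤ} (h : 0 ≤ len (ix y)) : (#(tl len y) : ℤ) ≤ len (ix y) := by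
  have : #(tl len y) ≤ _ := card_image_le
  rw [Int.card_Ico, lo] at this
  omega

/-- An untouched switch. -/
structure Fr (len : ℕ → ℤ) (f : Pos) (j : ℕ) : Prop where
  sea : Sea false (update f (0, ry j) none) (ry j) (-1) (lo len (ry j))
  eps : f (0, ry j) = some false

theorem mv_update {e : ℤ × ℤ} (hu : u ≠ e) (hv : v ≠ e) :
    mv (update f e none) u v = update (mv f u v) e none := by
  funext w
  simp only [mv_apply, update_apply, if_neg hu]
  split_ifs <;> simp_all

theorem lg_update {e : ℤ × ℤ} (l : Lg GZ f b u v) (hu : u ≠ e) (hv : v ≠ e) :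
    Lg GZ (update f e none) b u v :=
  ⟨l.1, by rw [update_of_ne hu, l.2.1], by rw [update_of_ne hv, l.2.2]⟩

theorem Fr.keep {j : ℕ} (h : Fr len f j) (l : Lg GZ f b u v) (hu : u ≠ (0, ry j))
    (hv : v ≠ (0, ry j)) (n : ¬ (Seg (ry j) (-1) (lo len (ry j)) u ∨
      Seg (ry j) (-1) (lo len (ry j)) v)) : Fr len (mv f u v) j :=
  ⟨mv_update hu hv ▸ h.sea.keep (lg_update l hu hv) (fun a => n (Or.inl a)) fun a => n (Or.inr a),
    by rw [mv_of_ne hu.symm hv.symm, h.eps]⟩

theorem far {j : ℕ} (a : GZ.Adj u v) (n : ix u.2 ≠ j) :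
    (u.2 < ry j - 1 ∧ v.2 < ry j - 1) ∨ (ry j + 1 < u.2 ∧ ry j + 1 < v.2) := by
  simp only [GZ] at a
  unfold ix at n
  unfold ry
  omega

theorem Fr.far {j : ℕ} (h : Fr len f j) (l : Lg GZ f b u v) (n : ix u.2 ≠ j) :
    Fr len (mv f u v) j := by
  have := Gr.far l.1 n
  refine h.keep l (fun e => ?_) (fun e => ?_) ?_
  · rw [e] at this; omega
  · rw [e] at this; omega
  · rintro (⟨e, -⟩ | ⟨e, -⟩) <;> omega

theorem Fr.beta {j : ℕ} (h : Fr len f j) : f (-1, ry j) = some true := by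
  simpa using h.sea.here

theorem Fr.tail {j : ℕ} (h : Fr len f j) {x : ℤ} (a : lo len (ry j) ≤ x) (d : x < -1) :
    f (x, ry j) = some false := by
  rw [← h.sea.sea x a d, update_of_ne (by simp; omega)]

theorem Fr.inert {j : ℕ} (h : Fr len f j) (l : Lg GZ f b u v) {q : ℤ} (hq : q ≤ -1)
    (h1 : mv f u v (q + 1, ry j) = none)
    (h2 : ∀ x, lo len (ry j) ≤ x → x ≤ q → mv f u v (x, ry j) ≠ some true) :
    ∀ z ∈ {z | Seg (ry j) q (lo len (ry j)) z}, mv f u v z ≠ some true ∧ ∀ w, GZ.Adj z w →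
      w ∈ {z | Seg (ry j) q (lo len (ry j)) z} ∨ mv f u v w = none := by
  rintro ⟨x, _⟩ ⟨rfl, a, d⟩
  dsimp only at a d
  have e : ∀ w : ℤ × ℤ, w.1 < 0 → update f (0, ry j) none w = none → mv f u v w = none :=
    fun w p q => mv_none l.ne (by rwa [update_of_ne (fun g => by simp [g] at p)] at q)
  refine ⟨h2 x a d, fun w p => ?_⟩
  rcases adj_iff.1 p with rfl | rfl | rfl | rfl
  · by_cases g : x = q
    · exact Or.inr (g ▸ h1)
    · exact Or.inl ⟨rfl, by simp; omega, by simp; omega⟩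
  · exact Or.inr (e _ (by simp; omega) (h.sea.up x a (by omega)).1)
  · by_cases g : x = lo len (ry j)
    · exact Or.inr (e _ (by simp; omega) (g ▸ h.sea.fin))
    · exact Or.inl ⟨rfl, by simp; omega, by simp; omega⟩
  · exact Or.inr (e _ (by simp; omega) (h.sea.up x a (by omega)).2)

section

variable {J : Finset ℤ} {p o : ℤ → ℤ} {O O' : Finset (ℤ × ℤ)} {I X X' N : Set (ℤ × ℤ)}

theorem MS.shift (h : MS b f J p o O I X)
    (a : ∀ z ∈ N, f z ≠ some b ∧ ∀ w, GZ.Adj z w → w ∈ N ∨ f w = none) (d : O ⊆ O')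
    (e : ∀ w ∈ X, f w = some (!b) → w ∈ O' ∨ w ∈ N ∨ w ∈ X') :
    MS b f J p o O' (I ∪ N) X' := by
  refine ⟨h.sea, fun w g => ?_, ?_⟩
  · rcases h.cls w g with k | k | k | k
    · exact Or.inl (d k)
    · exact Or.inr (Or.inl (Or.inl k))
    · exact (e w k g).imp_right (Or.imp Or.inr Or.inl)
    · exact Or.inr (Or.inr (Or.inr k))
  · rintro z (g | g)
    · exact ⟨(h.ine z g).1, fun w k => ((h.ine z g).2 w k).imp_left Or.inl⟩
    · exact ⟨(a z g).1, fun w k => ((a z g).2 w k).imp_left Or.inr⟩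

theorem MS.add (h : MS b f J p o O I X) {y q : ℤ} (n : y ∉ J) (s : Sea b f y q (o y)) :
    MS b f (insert y J) (update p y q) o O I X ∧
      Phi (insert y J) (update p y q) o = Phi J p o + (q - o y) := by
  have e : ∀ z ∈ J, update p y q z = p z := fun z a => update_of_ne (fun g : z = y => n (g ▸ a)) _ _
  refine ⟨⟨fun z a => ?_, fun w g => ?_, h.ine⟩, ?_⟩
  · rcases mem_insert.1 a with rfl | a
    · rwa [update_self]
    · rw [e z a]
      exact h.sea z a
  · refine (h.cls w g).imp_right (Or.imp_right (Or.imp_right fun ⟨z, a, d⟩ =>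
      ⟨z, mem_insert_of_mem a, by rwa [e z a]⟩))
  · unfold Phi
    rw [sum_insert n, update_self, sum_congr rfl fun z a => by rw [e z a], add_comm]

end

/-- The tails of the untouched switches. -/
def Tls (len : ℕ → ℤ) (U : Finset ℕ) : Set (ℤ × ℤ) := {v | ∃ j ∈ U, v ∈ tl len (ry j)}

/-- Left is ahead by `k`. -/
def PL (len : ℕ → ℤ) (J : Finset ℤ) (f : Pos) (U : Finset ℕ) (k : ℤ) : Prop :=
  ∃ p O I, MS true f J p (lo len) O I (Tls len U) ∧ (∀ j ∈ U, Fr len f j) ∧
    #O + k ≤ Phi J p (lo len)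

theorem tls_split {j : ℕ} {w : ℤ × ℤ} (h : w ∈ Tls len U) :
    w ∈ tl len (ry j) ∨ w ∈ Tls len (U.erase j) := by
  obtain ⟨i, a, d⟩ := h
  by_cases e : i = j
  · exact Or.inl (e ▸ d)
  · exact Or.inr ⟨i, mem_erase.2 ⟨e, a⟩, d⟩

theorem PL.own {J : Finset ℤ} (hJ : ∀ y ∈ J, y % 30 = 0) (h : PL len J f U k) {i : ℕ}
    (hi : i ∈ U) :
    Lg GZ f true (-1, ry i) (0, ry i) ∧ PL len J (mv f (-1, ry i) (0, ry i)) (U.erase i) k := by
  obtain ⟨p, O, I, m, fr, a⟩ := h
  have g := fr i hi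
  have l : Lg GZ f true (-1, ry i) (0, ry i) := ⟨adj_iff.2 (by simp), g.beta, g.eps⟩
  have n : ∀ y ∈ J, (0, ry i) ≠ (p y, y) := fun y hy e => by
    have := hJ y hy
    have := (Prod.mk.inj e).2
    unfold ry at this
    omega
  refine ⟨l, p, O.erase (0, ry i), _, (m.own l n).1.shift
    (g.inert l (q := -2) (by omega) (mv_src _ l.1.ne) fun x a d => ?_) subset_rfl
    fun w a _ => Or.inr ((tls_split a).imp_left fun d => ?_), fun j hj => ?_, ?_⟩
  · rw [mv_of_ne (by simp; omega) (by simp; omega), g.tail a (by omega)]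
    simp
  · have := mem_tl.1 d
    exact ⟨this.1, this.2.1, by omega⟩
  · exact (fr j (mem_of_mem_erase hj)).far l (by rw [ix_ry]; exact (mem_erase.1 hj).1.symm)
  · have := card_erase_le (s := O) (a := (0, ry i))
    omega

theorem PL.opp {J : Finset ℤ} (hl : ∀ j, 0 ≤ len j) (h : PL len J f U k) (l : Lg GZ f false u v) :
    (∃ j ∈ U, u = (0, ry j) ∧ v ≠ (-1, ry j) ∧
      PL len J (mv f u v) (U.erase j) (k - len j - 1)) ∨
    ∃ U' ⊆ U, PL len J (mv f u v) U' (k - 1) := by
  obtain ⟨p, O, I, m, fr, a⟩ := h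
  obtain ⟨p', O', m', a'⟩ : ∃ p' O', MS true (mv f u v) J p' (lo len) O' I (Tls len U) ∧
      #O' + (k - 1) ≤ Phi J p' (lo len) := by
    rcases m.opp l with ⟨y, hy, -, -, m'⟩ | ⟨-, m'⟩
    · exact ⟨_, _, m', by rw [Phi_update hy]; omega⟩
    · have := card_insert_le v (O.erase u)
      have := card_erase_le (s := O) (a := u)
      exact ⟨_, _, m', by omega⟩
  have fr' : ∀ j ∈ U.erase (ix u.2), Fr len (mv f u v) j := fun j hj =>
    (fr j (mem_of_mem_erase hj)).far l (mem_erase.1 hj).1.symm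
  by_cases hj : ix u.2 ∈ U
  swap
  · exact Or.inr ⟨U, subset_rfl, p', O', I, m', by rwa [erase_eq_of_notMem hj] at fr', a'⟩
  generalize ix u.2 = j at hj fr'
  have g := fr j hj
  have hv : v ≠ (0, ry j) := fun e => by simpa [e, g.eps] using l.2.2
  by_cases hu : u = (0, ry j)
  · by_cases e : v = (-1, ry j)
    · subst hu e
      refine Or.inr ⟨_, erase_subset j U, p', O', _, m'.shift
        (g.inert l (q := -1) le_rfl (mv_src _ l.1.ne) fun x a d => ?_) subset_rfl
        fun w a _ => Or.inr ((tls_split a).imp_left fun d => ?_), fr', a'⟩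
      · rcases d.lt_or_eq with d | rfl
        · rw [mv_of_ne (by simp; omega) (by simp; omega), g.tail a d]
          simp
        · simp [mv_dst, l.2.1]
      · have := mem_tl.1 d
        exact ⟨this.1, this.2.1, by omega⟩
    · refine Or.inl ⟨j, hj, hu, e, p', O' ∪ tl len (ry j), _, m'.shift (N := ∅) (by simp)
        subset_union_left fun w a _ => (tls_split a).imp (mem_union_right _) Or.inr, fr', ?_⟩
      have := card_union_le O' (tl len (ry j))
      have := card_tl (len := len) (y := ry j) (hl _)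
      rw [ix_ry] at this
      omega
  by_cases t : Seg (ry j) (-1) (lo len (ry j)) u ∨ Seg (ry j) (-1) (lo len (ry j)) v
  · obtain ⟨-, ⟨-, rfl, rfl⟩ | ⟨e, -⟩⟩ := g.sea.touch (lg_update l hu hv) t
    · refine Or.inr ⟨_, erase_subset j U, p', O', _, m'.shift
        (g.inert l (q := -3) (by omega) (mv_src _ l.1.ne) fun x a d => ?_) subset_rfl
        fun w a e => Or.inr ((tls_split a).imp_left fun d => ?_), fr', a'⟩
      · rw [mv_of_ne (by simp; omega) (by simp; omega), g.tail a (by omega)]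
        simp
      · obtain ⟨d1, d2, d3⟩ := mem_tl.1 d
        refine ⟨d1, d2, ?_⟩
        by_contra n
        have : w = (-1 - 1, ry j) := Prod.ext (by simp; omega) d1
        rw [this, mv_src _ l.1.ne] at e
        simp at e
    · simp at e
  · refine Or.inr ⟨U, subset_rfl, p', O', I, m', fun i hi => ?_, a'⟩
    by_cases e : i = j
    · exact e ▸ g.keep l hu hv t
    · exact fr' i (mem_erase.2 ⟨e, hi⟩)

theorem PL.win {J : Finset ℤ} (hJ : ∀ y ∈ J, y % 30 = 0) (hl : ∀ j, 0 ≤ len j)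
    (h : PL len J f U k) (a : ∑ j ∈ U, (len j + 2) + 2 * (#J * #J + 1) ≤ 2 * k) :
    Res GZ f true true := by
  induction hn : #U using Nat.strong_induction_on generalizing f U k with
  | _ n ih =>
    rcases U.eq_empty_or_nonempty with rfl | ne
    · obtain ⟨p, O, I, m, -, d⟩ := h
      rw [show Tls len ∅ = ∅ by simp [Tls]] at m
      exact ms_all m (by simp at a; omega)
    obtain ⟨i, hi, mx⟩ := exists_max_image U len ne
    obtain ⟨l, h1⟩ := h.own hJ hi
    have c1 := card_erase_lt_of_mem hi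
    have s1 := add_sum_erase U (fun j => len j + 2) hi
    refine l.win (lose fun u v l' => ?_)
    rcases h1.opp hl l' with ⟨j, hj, -, -, h2⟩ | ⟨U', s, h2⟩
    · have := add_sum_erase _ (fun j => len j + 2) hj
      have := mx j (mem_of_mem_erase hj)
      exact ih _ (by have := card_erase_lt_of_mem hj; omega) h2 (by omega) rfl
    · have := sum_le_sum_of_subset_of_nonneg (f := fun j => len j + 2) s fun j _ _ => by
        have := hl j
        omega
      have := hl i
      exact ih _ (by have := card_le_card s; omega) h2 (by omega) rfl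

/-- Right is ahead by `k`. -/
def PR (len : ℕ → ℤ) (R : ℕ) (f : Pos) (U : Finset ℕ) (k : ℤ) : Prop :=
  ∃ J p O I, MS false f J p (lo len) O I ∅ ∧
    (∀ j ∈ U, Fr len f j ∧ f (0, ry j - 1) = some true ∧ ry j ∉ J) ∧ #J + #U ≤ R ∧
    #O + k ≤ Phi J p (lo len)

theorem ry_inj {i j : ℕ} (h : ry i = ry j) : i = j := by unfold ry at h; omega

theorem Sea.congr {g : Pos} {y p o : ℤ} (h : Sea c f y p o)
    (a : ∀ x, o ≤ x → x ≤ p → g (x, y) = f (x, y)) (e : g (p + 1, y) = none)
    (d : ∀ w : ℤ × ℤ, w.1 ≤ p → f w = none → g w = none) : Sea c g y p o :=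
  ⟨(a p h.le le_rfl).trans h.here, fun x k m => (a x k m.le).trans (h.sea x k m), h.le,
    d _ (by have := h.le; simp; omega) h.fin, e, fun x k m =>
      ⟨d _ m (h.up x k m).1, d _ m (h.up x k m).2⟩⟩

theorem far_gam {j : ℕ} (l : Lg GZ f b u v) (n : ix u.2 ≠ j) :
    mv f u v (0, ry j - 1) = f (0, ry j - 1) := by
  have := far l.1 n
  refine mv_of_ne (fun e => ?_) fun e => ?_ <;> rw [← e] at this <;> omega

theorem PR.own {R : ℕ} (h : PR len R f U k) {j : ℕ} (hj : j ∈ U) :
    Lg GZ f false (0, ry j) (0, ry j - 1) ∧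
      PR len R (mv f (0, ry j) (0, ry j - 1)) (U.erase j) (k + len j) := by
  obtain ⟨J, p, O, I, m, fr, c, a⟩ := h
  obtain ⟨g, g1, g2⟩ := fr j hj
  have l : Lg GZ f false (0, ry j) (0, ry j - 1) := ⟨adj_iff.2 (by simp), g.eps, g1⟩
  have n : ∀ y ∈ J, (0, ry j - 1) ≠ (p y, y) := fun y hy e => by
    obtain ⟨e1, rfl⟩ := Prod.mk.inj e
    have := ((m.sea _ hy).up _ (m.sea _ hy).le le_rfl).1
    simp [← e1, g.eps] at this
  have s : Sea false (mv f (0, ry j) (0, ry j - 1)) (ry j) (-1) (lo len (ry j)) :=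
    g.sea.congr (fun x _ d => by
      rw [mv_of_ne (by simp; omega) (by simp; omega), update_of_ne (by simp; omega)])
      (mv_src _ l.1.ne) fun w d e => mv_none l.ne (by
        rwa [update_of_ne (fun q => by simp [q] at d)] at e)
  obtain ⟨m', e⟩ := (m.own l n).1.add g2 s
  refine ⟨l, _, _, _, _, m', fun i hi => ?_, ?_, ?_⟩
  · obtain ⟨i1, i2⟩ := mem_erase.1 hi
    have n : ix (0, ry j).2 ≠ i := by rw [ix_ry]; exact i1.symm
    exact ⟨(fr i i2).1.far l n, (far_gam l n).trans (fr i i2).2.1, by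
      simp [(fr i i2).2.2, show ry i ≠ ry j from fun e => i1 (ry_inj e)]⟩
  · rw [card_insert_of_notMem g2]
    have := card_erase_lt_of_mem hj
    omega
  · have := card_erase_le (s := O) (a := (0, ry j - 1))
    rw [e, lo, ix_ry]
    omega

theorem PR.opp {R : ℕ} (h : PR len R f U k) (l : Lg GZ f true u v) :
    (∃ j ∈ U, (v = (0, ry j) ∨ u = (0, ry j - 1)) ∧ PR len R (mv f u v) (U.erase j) (k - 1)) ∨
    PR len R (mv f u v) U (k - 1) ∨
      ∃ j ∈ U, PR len R (mv f u v) (U.erase j) (k + len j - 2) := by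
  obtain ⟨J, p, O, I, m, fr, c, a⟩ := h
  obtain ⟨p', O', m', a'⟩ : ∃ p' O', MS false (mv f u v) J p' (lo len) O' I ∅ ∧
      #O' + (k - 1) ≤ Phi J p' (lo len) := by
    rcases m.opp l with ⟨y, hy, -, -, m'⟩ | ⟨d, m'⟩
    · exact ⟨_, _, m', by rw [Phi_update hy]; omega⟩
    · have := card_ins (v := v) (d.resolve_right id)
      exact ⟨_, _, m', by omega⟩
  have fr' : ∀ j ∈ U.erase (ix u.2), Fr len (mv f u v) j ∧
      mv f u v (0, ry j - 1) = some true ∧ ry j ∉ J := fun j hj => by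
    obtain ⟨j1, j2⟩ := mem_erase.1 hj
    exact ⟨(fr j j2).1.far l j1.symm, (far_gam l j1.symm).trans (fr j j2).2.1, (fr j j2).2.2⟩
  by_cases hj : ix u.2 ∈ U
  swap
  · exact Or.inr (Or.inl ⟨J, p', O', I, m', by rwa [erase_eq_of_notMem hj] at fr', c, a'⟩)
  generalize ix u.2 = j at hj fr'
  obtain ⟨g, g1, g2⟩ := fr j hj
  have c1 := card_erase_lt_of_mem hj
  by_cases e : v = (0, ry j) ∨ u = (0, ry j - 1)
  · exact Or.inl ⟨j, hj, e, J, p', O', I, m', fr', by omega, a'⟩
  push Not at e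
  have hu : u ≠ (0, ry j) := fun e => by simpa [e, g.eps] using l.2.1
  by_cases t : Seg (ry j) (-1) (lo len (ry j)) u ∨ Seg (ry j) (-1) (lo len (ry j)) v
  · obtain ⟨t1, ⟨d, -⟩ | ⟨-, rfl, rfl⟩⟩ := g.sea.touch (lg_update l hu e.1) t
    · simp at d
    have s : Sea false (mv f (-1, ry j) (-1 - 1, ry j)) (ry j) (-1 - 1) (lo len (ry j)) := by
      have := (g.sea.adv t1).2
      rw [mv_update hu e.1] at this
      exact this.congr (fun x _ d => (update_of_ne (by simp; omega) _ _).symm)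
        (by rw [sub_add_cancel, mv_src _ l.1.ne]) fun w d q => by
          rwa [update_of_ne (fun q => by simp [q] at d)] at q
    obtain ⟨m'', q⟩ := m'.add g2 s
    refine Or.inr (Or.inr ⟨j, hj, _, _, _, _, m'', fun i hi => ⟨(fr' i hi).1, (fr' i hi).2.1, ?_⟩,
      by rw [card_insert_of_notMem g2]; omega, by rw [q, lo, ix_ry]; omega⟩)
    simp [(fr' i hi).2.2, show ry i ≠ ry j from fun e => (mem_erase.1 hi).1 (ry_inj e)]
  · refine Or.inr (Or.inl ⟨J, p', O', I, m', fun i hi => ?_, c, a'⟩)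
    by_cases d : i = j
    · rw [d]
      exact ⟨g.keep l hu e.1 t, by
        rw [mv_of_ne e.2.symm (fun q => by simpa [← q, g1] using l.2.2), g1], g2⟩
    · exact fr' i (mem_erase.2 ⟨d, hi⟩)

theorem PR.win {R : ℕ} (hl : ∀ j, 0 ≤ len j) (h : PR len R f U k)
    (a : 2 * (R * R + 1) ≤ 2 * k + ∑ j ∈ U, (len j - 2)) : Res GZ f false true := by
  induction hn : #U using Nat.strong_induction_on generalizing f U k with
  | _ n ih =>
    rcases U.eq_empty_or_nonempty with rfl | ne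
    · obtain ⟨J, p, O, I, m, -, c, d⟩ := h
      have : (#J : ℤ) * #J ≤ R * R := by
        have : #J ≤ R := by simpa using c
        exact_mod_cast Nat.mul_le_mul this this
      exact ms_all m (by simp at a; omega)
    obtain ⟨i, hi, mx⟩ := exists_max_image U len ne
    obtain ⟨l, h1⟩ := h.own hi
    have c1 := card_erase_lt_of_mem hi
    have s1 := add_sum_erase U (fun j => len j - 2) hi
    have := hl i
    refine l.win (lose (b := false) fun u v l' => ?_)
    rcases h1.opp l' with ⟨j, hj, -, h2⟩ | h2 | ⟨j, hj, h2⟩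
    · have := add_sum_erase _ (fun j => len j - 2) hj
      have := mx j (mem_of_mem_erase hj)
      exact ih _ (by have := card_erase_lt_of_mem hj; omega) h2 (by omega) rfl
    · exact ih _ (by omega) h2 (by omega) rfl
    · have := add_sum_erase _ (fun j => len j - 2) hj
      have := hl j
      exact ih _ (by have := card_erase_lt_of_mem hj; omega) h2 (by omega) rfl

end Pool.Agent.P.MP_6e435d_co.Gr
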