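import Pool.Agent.P.MP_6e435d_co.Gr.Tile
import Pool.Agent.P.MP_6e435d_co.Gr.Pun

/-!
The meaning of the network: valid assignments.
-/

set_option autoImplicit false
set_option linter.dupNamespace false

namespace Pool.Agent.P.MP_6e435d_co.Gr

open Pool.Agent.P.MP_6e435d_co.G Function

section Equi

variable (i c : ℤ) (v : ℤ × ℤ)

theorem pi_tau : PT0.π (tau i c + v) = PT0.π v := by simp only [PT0, lb_tau]
theorem isT_tau : PT0.isT (tau i c + v) ↔ PT0.isT v := by simp only [PT0, lb_tau]
theorem tg_tau : PT0.Tg (tau i c + v) ↔ PT0.Tg v := by simp only [Pat.Tg, PT0, lb_tau]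
theorem in_tau : PT0.In (tau i c + v) ↔ PT0.In v := by simp only [PT0, lb_tau]
theorem idx_tau : PT0.idx (tau i c + v) = PT0.idx v := by simp only [PT0, lb_tau]
theorem att_tau : PT0.att (tau i c + v) = tau i c + PT0.att v := by
  simp only [PT0, lb_tau, add_assoc]
theorem grd_tau : PT0.grd (tau i c + v) = tau i c + PT0.grd v := by
  simp only [PT0, lb_tau, add_assoc]
theorem lf_tau : PT0.lf (tau i c + v) = tau i c + PT0.lf v := by
  simp only [PT0, lb_tau, add_assoc]
theorem qq_tau : PT0.qq (tau i c + v) = tau i c + PT0.qq v := by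
  simp only [PT0, lb_tau, add_assoc]
theorem anc_tau : PT0.anc (tau i c + v) = tau i c + PT0.anc v := by
  simp only [PT0, lb_tau, add_assoc]
theorem e_tau (k : Fin 9) : PT0.e (tau i c + v) k = tau i c + PT0.e v k := by
  simp only [PT0, lb_tau, add_assoc]

end Equi

/-- The cells that are kept. -/
def Pres (R C : ℕ) (tp : ℕ → ℕ → Prop) (Y : Finset ℕ) (v : ℤ × ℤ) : Prop :=
  (0 ≤ v.1 ∧ v.1 < 52 * C ∧ 0 ≤ v.2 ∧ v.2 < 30 * R) ∧
    ¬ (v.1 % 52 = 20 ∧ v.2 % 30 = 5 ∧ tp (ix v.2) (v.1 / 52).toNat) ∧
    ¬ (v.1 % 52 = 24 ∧ v.2 = 30 * R - 1) ∧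
    ¬ (v.1 = 0 ∧ (v.2 % 30 = 15 ∨ v.2 % 30 = 14) ∧ ix v.2 ∈ Y)

open Classical in
/-- The network. -/
noncomputable def nw (R C : ℕ) (tp : ℕ → ℕ → Prop) (Y : Finset ℕ) (v : ℤ × ℤ) : Option Bool :=
  if Pres R C tp Y v then PT0.π v else none

variable {R C : ℕ} {tp : ℕ → ℕ → Prop} {Y : Finset ℕ} {v d : ℤ × ℤ} {i c : ℕ}

theorem nw_of (h : Pres R C tp Y v) : nw R C tp Y v = PT0.π v := if_pos h

theorem pres_of (h : nw R C tp Y v ≠ none) : Pres R C tp Y v := by
  by_contra a
  exact h (if_neg a)

theorem pres_kp (hi : i < R) (hc : c < C) (h : Kp d) : Pres R C tp Y (tau i c + d) := by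
  obtain ⟨x, y⟩ := d
  simp only [Kp, ne_eq, Prod.mk.injEq] at h
  simp only [Pres, tau, Prod.mk_add_mk]
  exact ⟨by omega, fun a => by omega, by omega, fun a => by omega⟩

theorem pres_loc (h : Pres R C tp Y v) : ∃ i < R, ∃ c < C, ∃ a < 52, ∃ b < 30,
    v = tau (i : ℕ) (c : ℕ) + (((a : ℕ) : ℤ), ((b : ℕ) : ℤ)) := by
  obtain ⟨a, ha, b, hb, e⟩ := exists_tau v
  have := h.1
  refine ⟨(v.2 / 30).toNat, by omega, (v.1 / 52).toNat, by omega, a, ha, b, hb, ?_⟩
  rwa [Int.toNat_of_nonneg (by omega), Int.toNat_of_nonneg (by omega)]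

theorem pres_iff (hi : i < R) (hc : c < C) {x y : ℤ} (h : 0 ≤ x ∧ x < 52 ∧ 0 ≤ y ∧ y < 30) :
    Pres R C tp Y (tau i c + (x, y)) ↔ ¬ (x = 20 ∧ y = 5 ∧ tp i c) ∧
      ¬ (x = 24 ∧ y = 29 ∧ i + 1 = R) ∧ ¬ (c = 0 ∧ x = 0 ∧ (y = 15 ∨ y = 14) ∧ i ∈ Y) := by
  have h1 : ix (30 * i + y) = i := by unfold ix; omega
  have h2 : ((52 * c + x) / 52).toNat = c := by omega
  have h3 : (52 * c + x) % 52 = x := by omega
  have h4 : (30 * i + y) % 30 = y := by omega
  have h5 : 0 ≤ 52 * c + x ∧ 52 * c + x < 52 * C ∧ 0 ≤ 30 * i + y ∧ 30 * i + y < 30 * R := by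
    omega
  have h6 : 30 * i + y = 30 * R - 1 ↔ y = 29 ∧ i + 1 = R := by omega
  have h7 : 52 * c + x = 0 ↔ c = 0 ∧ x = 0 := by omega
  simp only [Pres, tau, Prod.mk_add_mk, h1, h2, h3, h4, h5, h6, h7, true_and, and_assoc]

theorem cut_nw : PT0.Cut GZ (nw R C tp Y) := by
  have kp : ∀ {i c : ℕ} {d : ℤ × ℤ}, i < R → c < C → Kp d → PT0.π (tau i c + d) ≠ none →
      nw R C tp Y (tau i c + d) ≠ none := fun a b k n => by rwa [nw_of (pres_kp a b k)]
  refine ⟨?_, fun v => ?_, fun t a b d => ?_, fun t a b k => ?_, fun t a b => ?_,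
    fun t a _ b => ?_⟩
  · refine ((Finset.Ico (0 : ℤ) (52 * C)) ×ˢ (Finset.Ico (0 : ℤ) (30 * R))).finite_toSet.subset
      fun v a => ?_
    have := (pres_of a).1
    simp only [Finset.coe_product, Finset.coe_Ico, Set.mem_prod, Set.mem_Ico]
    omega
  · unfold nw
    split_ifs
    exacts [Or.inl rfl, Or.inr rfl]
  all_goals
    obtain ⟨i, hi, c, hc, x, hx, y, hy, rfl⟩ := pres_loc (pres_of b)
    have ct := ct_fin x hx y hy
  · have g := (ok0.a1 _ a).2.2.1
    rw [grd_tau] at g ⊢
    rcases ct.1 ((tg_tau ..).1 a) with k | ⟨k, m⟩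
    · exact kp hi hc k (by simp [g])
    · rw [att_tau, m] at d
      have := (pres_iff hi hc (by omega)).1 (pres_of d)
      rw [k] at g ⊢
      rw [nw_of ((pres_iff hi hc (by omega)).2 (by simp at this ⊢; exact this)), g]
      simp
  · have g := ok0.pie a k
    rw [anc_tau, e_tau] at g ⊢
    exact kp hi hc (ct.2.1 ((in_tau ..).1 a) k) (by simp [g])
  · have g := a.2.2.2.1
    have n := a.2.2.1.ne'
    rw [lf_tau] at g n ⊢
    exact kp hi hc (ct.2.2.1 fun e => n (by rw [e])) (by simp [g])
  · have g := ct.2.2.2 ((isT_tau ..).1 a)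
    rw [qq_tau]
    exact kp hi hc g.1 (by rw [pi_tau]; exact g.2)

/-- A protector that is no longer available. -/
def Blk (kn : List ((ℤ × ℤ) × ℤ × ℤ)) (t q : ℤ × ℤ) : Prop :=
  ∃ x ∈ kn, (x.2 = q ∧ x.1 ≠ t) ∨ (PT0.In q ∧ PT0.In x.2 ∧ PT0.anc x.2 = PT0.anc q ∧
    ((PT0.idx q = 6 ∧ (PT0.idx x.2 = 7 ∨ PT0.idx x.2 = 8)) ∨
      (PT0.idx x.2 = 6 ∧ (PT0.idx q = 7 ∨ PT0.idx q = 8))))

instance (kn : List ((ℤ × ℤ) × ℤ × ℤ)) (t q : ℤ × ℤ) : Decidable (Blk kn t q) := by
  unfold Blk
  infer_instance

/-- A forced assignment. -/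
def Stp (nt : Bool) (kn : List ((ℤ × ℤ) × ℤ × ℤ)) (x : (ℤ × ℤ) × ℤ × ℤ) : Prop :=
  PT0.Tg x.1 ∧ Kp x.1 ∧ (Kp (PT0.att x.1) ∨ (nt = true ∧ PT0.att x.1 = (20, 5))) ∧
    ∀ q, GZ.Adj x.1 q → PT0.π q = some false → q = x.2 ∨ Blk kn x.1 q

instance (nt : Bool) (kn : List ((ℤ × ℤ) × ℤ × ℤ)) (x : (ℤ × ℤ) × ℤ × ℤ) :
    Decidable (Stp nt kn x) := by
  unfold Stp
  infer_instance

/-- A chain of forced assignments ending in a contradiction. -/
def run (nt : Bool) : List ((ℤ × ℤ) × ℤ × ℤ) → List ((ℤ × ℤ) × ℤ × ℤ) → Bool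
  | _, [] => false
  | kn, x :: l => decide (Stp nt kn x) && (decide (x.2 = x.1) || run nt (x :: kn) l)

/-- The horizontal certificate. -/
def cH : List ((ℤ × ℤ) × ℤ × ℤ) :=
  [((2, 16), (3, 16)), ((3, 19), (3, 20)), ((49, 19), (49, 20)), ((4, 14), (4, 13)),
    ((48, 14), (48, 13)), ((3, 21), (3, 22)), ((49, 21), (49, 22)), ((4, 12), (4, 11)),
    ((48, 12), (48, 11)), ((3, 23), (3, 24)), ((49, 23), (49, 24)), ((4, 10), (4, 9)),
    ((48, 10), (48, 9)), ((3, 25), (4, 25)), ((48, 24), (47, 24)), ((4, 8), (4, 7)),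
    ((48, 8), (48, 7)), ((5, 25), (6, 25)), ((46, 24), (45, 24)), ((4, 6), (4, 5)),
    ((48, 6), (48, 5)), ((7, 25), (8, 25)), ((44, 24), (43, 24)), ((4, 4), (4, 3)),
    ((48, 4), (47, 4)), ((9, 25), (10, 25)), ((42, 24), (41, 24)), ((5, 3), (6, 3)),
    ((46, 4), (45, 4)), ((11, 25), (12, 25)), ((40, 24), (39, 24)), ((7, 3), (8, 3)),
    ((44, 4), (43, 4)), ((13, 25), (14, 25)), ((38, 24), (37, 24)), ((9, 3), (10, 3)),
    ((42, 4), (41, 4)), ((15, 23), (15, 22)), ((15, 21), (15, 20)), ((15, 19), (15, 18)),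
    ((15, 17), (15, 16)), ((15, 15), (15, 14)), ((15, 13), (15, 12)), ((36, 24), (35, 24)),
    ((11, 3), (12, 3)), ((40, 4), (39, 4)), ((33, 23), (33, 22)), ((33, 21), (33, 20)),
    ((33, 19), (33, 18)), ((33, 17), (33, 16)), ((33, 15), (33, 14)), ((33, 13), (33, 12)),
    ((13, 3), (14, 3)), ((38, 4), (37, 4)), ((15, 5), (15, 6)), ((15, 7), (15, 8)),
    ((15, 9), (15, 10)), ((36, 4), (35, 4)), ((15, 11), (16, 11)), ((33, 5), (33, 6)),
    ((33, 7), (33, 8)), ((33, 9), (33, 10)), ((17, 11), (18, 11)), ((19, 11), (20, 11)),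
    ((21, 11), (22, 11)), ((23, 11), (24, 11)), ((25, 11), (26, 11)), ((27, 11), (28, 11)),
    ((29, 11), (30, 11)), ((31, 11), (32, 11)), ((33, 11), (33, 11))]

/-- The vertical certificate. -/
def cV : List ((ℤ × ℤ) × ℤ × ℤ) :=
  [((24, 26), (24, 25)), ((24, 2), (24, 3)), ((27, 25), (28, 25)), ((29, 25), (30, 25)),
    ((31, 25), (32, 25)), ((22, 24), (21, 24)), ((20, 24), (19, 24)), ((18, 24), (17, 24)),
    ((22, 4), (21, 4)), ((20, 4), (19, 4)), ((18, 4), (17, 4)), ((27, 3), (28, 3)),
    ((29, 3), (30, 3)), ((31, 3), (32, 3)), ((15, 23), (15, 22)), ((15, 21), (15, 20)),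
    ((15, 19), (15, 18)), ((15, 17), (15, 16)), ((15, 15), (15, 14)), ((15, 13), (15, 12)),
    ((15, 5), (15, 6)), ((15, 7), (15, 8)), ((15, 9), (15, 10)), ((33, 23), (33, 22)),
    ((33, 21), (33, 20)), ((33, 19), (33, 18)), ((33, 17), (33, 16)), ((33, 15), (33, 14)),
    ((33, 13), (33, 12)), ((33, 5), (33, 6)), ((33, 7), (33, 8)), ((33, 9), (33, 10)),
    ((15, 11), (16, 11)), ((33, 11), (32, 11)), ((17, 11), (18, 11)), ((19, 11), (20, 11)),
    ((21, 11), (22, 11)), ((23, 11), (24, 11)), ((25, 11), (26, 11)), ((27, 11), (28, 11)),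
    ((29, 11), (30, 11)), ((31, 11), (31, 11))]

/-- The certificate for a tap. -/
def cT : List ((ℤ × ℤ) × ℤ × ℤ) :=
  [((2, 16), (3, 16)), ((24, 26), (24, 25)), ((24, 2), (24, 3)), ((27, 25), (28, 25)),
    ((29, 25), (30, 25)), ((31, 25), (32, 25)), ((22, 24), (21, 24)), ((20, 24), (19, 24)),
    ((18, 24), (17, 24)), ((27, 3), (28, 3)), ((29, 3), (30, 3)), ((31, 3), (32, 3)),
    ((4, 14), (4, 13)), ((15, 23), (15, 22)), ((15, 21), (15, 20)), ((15, 19), (15, 18)),
    ((15, 17), (15, 16)), ((15, 15), (15, 14)), ((15, 13), (15, 12)), ((33, 23), (33, 22)),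
    ((33, 21), (33, 20)), ((33, 19), (33, 18)), ((33, 17), (33, 16)), ((33, 15), (33, 14)),
    ((33, 13), (33, 12)), ((33, 5), (33, 6)), ((33, 7), (33, 8)), ((33, 9), (33, 10)),
    ((4, 12), (4, 11)), ((33, 11), (32, 11)), ((31, 11), (30, 11)), ((4, 10), (4, 9)),
    ((29, 11), (28, 11)), ((4, 8), (4, 7)), ((27, 11), (26, 11)), ((4, 6), (4, 5)),
    ((25, 11), (24, 11)), ((4, 4), (4, 3)), ((23, 11), (22, 11)), ((5, 3), (6, 3)),
    ((21, 11), (20, 11)), ((7, 3), (8, 3)), ((19, 11), (18, 11)), ((9, 3), (10, 3)),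
    ((17, 11), (16, 11)), ((11, 3), (12, 3)), ((15, 11), (15, 10)), ((15, 9), (15, 8)),
    ((13, 3), (14, 3)), ((15, 5), (15, 6)), ((15, 7), (15, 7))]

theorem run_H : run false [((0, 16), (1, 16)), ((52, 16), (51, 16))]
    (((50, 16), (49, 16)) :: cH) = true := by decide +kernel

theorem run_V : run true [((24, 0), (24, 1)), ((24, 28), (24, 27))] cV = true := by decide +kernel

theorem run_T : run false [((24, 0), (24, 1)), ((24, 28), (24, 27)), ((0, 16), (1, 16))] cT =
    true := by decide +kernel

section Sound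

variable {μ : ℤ × ℤ → ℤ × ℤ}

/-- A known assignment. -/
def Kn (f : Pos) (μ : ℤ × ℤ → ℤ × ℤ) (τ : ℤ × ℤ) (x : (ℤ × ℤ) × ℤ × ℤ) : Prop :=
  PT0.Act f (τ + x.1) ∧ μ (τ + x.1) = τ + x.2

theorem opt (m : PT0.Valid GZ (nw R C tp Y) μ) {i c : ℤ} {t : ℤ × ℤ}
    (a : PT0.Act (nw R C tp Y) (tau i c + t)) : ∃ q, μ (tau i c + t) = tau i c + q ∧ GZ.Adj t q ∧
      PT0.π q = some false ∧ Pres R C tp Y (tau i c + q) := by
  obtain ⟨p, k⟩ := m.adj _ a
  obtain ⟨q, e⟩ : ∃ q, μ (tau i c + t) = tau i c + q := ⟨μ (tau i c + t) - tau i c, by simp⟩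
  rw [e] at p k
  have g := pres_of (by simp [k] : nw R C tp Y (tau i c + q) ≠ none)
  exact ⟨q, e, adj_add.1 p.symm, by rwa [nw_of g, pi_tau] at k, g⟩

theorem act_of {i c : ℤ} {t : ℤ × ℤ} (a : PT0.Tg t) (p : Pres R C tp Y (tau i c + t))
    (q : Pres R C tp Y (tau i c + PT0.att t)) : PT0.Act (nw R C tp Y) (tau i c + t) :=
  ⟨(tg_tau ..).2 a, by simp [nw_of p, pi_tau, (ok0.a1 t a).1],
    by simp [att_tau, nw_of q, pi_tau, (ok0.a1 t a).2.1]⟩

theorem stp_sound (m : PT0.Valid GZ (nw R C tp Y) μ) (hi : i < R) (hc : c < C) {nt : Bool}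
    (hn : nt = true → ¬ tp i c) {kn : List ((ℤ × ℤ) × ℤ × ℤ)} {x : (ℤ × ℤ) × ℤ × ℤ}
    (h : Stp nt kn x) (k : ∀ y ∈ kn, Kn (nw R C tp Y) μ (tau i c) y) :
    Kn (nw R C tp Y) μ (tau i c) x := by
  obtain ⟨h1, h2, h3, h4⟩ := h
  have a : PT0.Act (nw R C tp Y) (tau i c + x.1) := act_of h1 (pres_kp hi hc h2)
    (h3.elim (pres_kp hi hc) fun e => by
      rw [e.2, pres_iff hi hc (by omega)]
      simp [hn e.1])
  obtain ⟨q, e, q1, q2, q3⟩ := opt m a
  refine ⟨a, ?_⟩
  rcases h4 q q1 q2 with rfl | ⟨y, hy, ⟨rfl, n⟩ | ⟨i1, i2, i3, i4⟩⟩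
  · exact e
  · exact absurd (add_left_cancel (m.inj _ _ (k y hy).1 a ((k y hy).2.trans e.symm))) n
  · exfalso
    have u1 : PT0.Us (nw R C tp Y) μ (PT0.e (PT0.anc (tau i c + q)) (PT0.idx q)) :=
      ⟨_, a, by rw [e, anc_tau, e_tau, (ok0.b1 q i1).1]⟩
    have u2 : PT0.Us (nw R C tp Y) μ (PT0.e (PT0.anc (tau i c + q)) (PT0.idx y.2)) :=
      ⟨_, (k y hy).1, by rw [(k y hy).2, anc_tau, e_tau, ← i3, (ok0.b1 _ i2).1]⟩
    have l := m.lam (tau i c + q) ((in_tau ..).2 i1) (by simp [nw_of q3, pi_tau, q2])
    rcases i4 with ⟨a, b | b⟩ | ⟨a, b | b⟩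
    exacts [(l (a ▸ u1)).1 (b ▸ u2), (l (a ▸ u1)).2 (b ▸ u2), (l (a ▸ u2)).1 (b ▸ u1),
      (l (a ▸ u2)).2 (b ▸ u1)]

theorem run_sound (m : PT0.Valid GZ (nw R C tp Y) μ) (hi : i < R) (hc : c < C) {nt : Bool}
    (hn : nt = true → ¬ tp i c) (l : List ((ℤ × ℤ) × ℤ × ℤ)) : ∀ kn, run nt kn l = true →
      ¬ ∀ y ∈ kn, Kn (nw R C tp Y) μ (tau i c) y := by
  induction l with
  | nil => simp [run]
  | cons x l ih =>
    intro kn h k
    simp only [run, Bool.and_eq_true, Bool.or_eq_true, decide_eq_true_eq] at h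
    have s := stp_sound m hi hc hn h.1 k
    rcases h.2 with e | e
    · exact (m.adj _ s.1).1.ne (by rw [s.2, e])
    · exact ih _ e (List.forall_mem_cons.2 ⟨s, k⟩)

theorem row_out (m : PT0.Valid GZ (nw R C tp Y) μ) (hi : i < R) (hY : i ∉ Y) (c : ℕ) :
    c < C → Kn (nw R C tp Y) μ (tau i c) ((0, 16), (1, 16)) := by
  have key : ∀ c < C, Kn (nw R C tp Y) μ (tau i c) ((0, 16), (1, 16)) ∨
      (0 < c ∧ Kn (nw R C tp Y) μ (tau i c) ((0, 16), (-1, 16))) := fun c hc => by
    have a : PT0.Act (nw R C tp Y) (tau i c + (0, 16)) := act_of (by decide +kernel)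
      (pres_kp hi hc (by decide)) (by
        rw [show PT0.att (0, 16) = (0, 15) by decide +kernel, pres_iff hi hc (by omega)]
        simp [hY])
    obtain ⟨q, e, q1, q2, q3⟩ := opt m a
    rcases (by decide +kernel : ∀ q, GZ.Adj (0, 16) q → PT0.π q = some false →
      q = (1, 16) ∨ q = (-1, 16)) q q1 q2 with rfl | rfl
    · exact Or.inl ⟨a, e⟩
    · refine Or.inr ⟨?_, a, e⟩
      have := q3.1
      simp only [tau, Prod.mk_add_mk] at this
      omega
  induction c with
  | zero => exact fun h => (key 0 h).resolve_right fun a => absurd a.1 (by omega)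
  | succ c ih =>
    intro h
    refine (key _ h).resolve_right fun a => ?_
    refine run_sound m hi (by omega) (by simp) _ _ run_H (List.forall_mem_cons.2 ⟨ih (by omega),
      List.forall_mem_singleton.2 ?_⟩)
    have e : tau i (c + 1 : ℕ) = tau i c + (52, 0) := by simp [tau]; ring
    have := a.2
    simp only [Kn, e, add_assoc] at this
    exact this

theorem col_tap (m : PT0.Valid GZ (nw R C tp Y) μ) (hR : 0 < R) (hc : c < C) :
    ∃ i < R, tp i c ∧ i ∈ Y := by
  by_contra hn
  have no : ∀ i < R, Kn (nw R C tp Y) μ (tau i c) ((24, 0), (24, 1)) →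
      ¬ Kn (nw R C tp Y) μ (tau i c) ((24, 28), (24, 27)) := fun i hi a b => by
    by_cases t : tp i c
    · exact run_sound m hi hc (by simp) _ _ run_T (List.forall_mem_cons.2 ⟨a,
        List.forall_mem_cons.2 ⟨b, List.forall_mem_singleton.2
          (row_out m hi (fun y => hn ⟨i, hi, t, y⟩) c hc)⟩⟩)
    · exact run_sound m hi hc (fun _ => t) _ _ run_V (List.forall_mem_cons.2 ⟨a,
        List.forall_mem_singleton.2 b⟩)
  have k1 : ∀ i < R, Kn (nw R C tp Y) μ (tau i c) ((24, 0), (24, 1)) ∨
      (0 < i ∧ Kn (nw R C tp Y) μ (tau i c) ((24, 0), (24, -1))) := fun i hi => by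
    have a : PT0.Act (nw R C tp Y) (tau i c + (24, 0)) := act_of (by decide +kernel)
      (pres_kp hi hc (by decide)) (pres_kp hi hc (by decide +kernel))
    obtain ⟨q, e, q1, q2, q3⟩ := opt m a
    rcases (by decide +kernel : ∀ q, GZ.Adj (24, 0) q → PT0.π q = some false →
      q = (24, 1) ∨ q = (24, -1)) q q1 q2 with rfl | rfl
    · exact Or.inl ⟨a, e⟩
    · refine Or.inr ⟨?_, a, e⟩
      have := q3.1
      simp only [tau, Prod.mk_add_mk] at this
      omega
  have k2 : ∀ i < R, Kn (nw R C tp Y) μ (tau i c) ((24, 28), (24, 27)) ∨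
      (i + 1 < R ∧ Kn (nw R C tp Y) μ (tau i c) ((24, 28), (24, 29))) := fun i hi => by
    have a : PT0.Act (nw R C tp Y) (tau i c + (24, 28)) := act_of (by decide +kernel)
      (pres_kp hi hc (by decide)) (pres_kp hi hc (by decide +kernel))
    obtain ⟨q, e, q1, q2, q3⟩ := opt m a
    rcases (by decide +kernel : ∀ q, GZ.Adj (24, 28) q → PT0.π q = some false →
      q = (24, 27) ∨ q = (24, 29)) q q1 q2 with rfl | rfl
    · exact Or.inl ⟨a, e⟩
    · refine Or.inr ⟨?_, a, e⟩
      have := ((pres_iff hi hc (by omega)).1 q3).2.1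
      omega
  have ent : ∀ i < R, Kn (nw R C tp Y) μ (tau i c) ((24, 0), (24, 1)) := fun i => by
    induction i with
    | zero => exact fun h => (k1 0 h).resolve_right fun a => absurd a.1 (by omega)
    | succ i ih =>
      intro h
      refine (k1 _ h).resolve_right fun a => ?_
      obtain ⟨-, b⟩ := (k2 i (by omega)).resolve_left (no i (by omega) (ih (by omega)))
      have e : tau (i + 1 : ℕ) c = tau i c + (0, 30) := by simp [tau]; ring
      have := m.inj _ _ a.2.1 b.1 (by rw [a.2.2, b.2, e, add_assoc]; rfl)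
      rw [e, add_assoc] at this
      exact absurd (add_left_cancel this) (by decide)
  have := (k2 (R - 1) (by omega)).resolve_left (no _ (by omega) (ent _ (by omega)))
  omega

end Sound

/-- The tables of the five local assignments. -/
def mbig : ℕ := 0x9249249248249249249249249249249229249249249249248cb2cc8249249249249249229249248cb2cb2ca9249248249249249249248249249229249249249249229249248249249249249248249249229249249249249229249248249249249249248249249229249249249249229249248249249249249248249249229249249249249229249248249249249249248249249229249249249249229249248249249249249248249249229249249249249229249248249249249249248249249249249249249249249249249196596596532cb32492491492492492412492452492412492492491492490492491492492492412492452492412492492491492490492491492492492412492452492412492492491492490492492492492492412492492492492492492491492492490b2cc9249249241249246599249249249249149249249249229249249241249229249248249249249149248249249229249249241249249249248249249249149248a49249229249249241249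209249248249249249149249249249249249249241249249249249196596596596596649249149249249249249249249241249249249249249149249149249249249249241249241249249249249249149249149249249249249241249241249249249249249149249149249249249249241249241249249249249249149249149249249249249241249241249249249249249149249149249246596596591249240cb2cc9249249249249249249249229249249249249249249248249249249249249249249229249249249249249249248249249249249249249249229249249249249248cb2cc8249249249249249229249248cb2cb2ca9249248249249249249248249249229249249249249229249248249249249249248249249229249249249249229249248249249249249248249249229249249249249229249248249249249249248249249229249249249249229249248249249249249248249249229249249249249229249248249249249249248249249229249249249249229249248249249249249248249249249249249249249249249249196596596532cb32492491492492492412492452492412492492491492490492491492492492412492452492412492492491492490492491492492492412492452492412492492491492490492492492492492412492492492492492492491492492490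b2cc9249249241249248cb9249249249249149248a49249229249249241249209249248249249249149248a49249229249249241249209249248249249249149248a49249229249249241249209249248249249249149249249249249249249241249249249249196596596596596649249149249249249249249249241249249249249249149249149249249249249241249241249249249249249149249149249249249249241249241249249249249249149249149249249249249241249241249249249249249149249149249249249249241249241249249249249249149249149249246596596591249240cb2cc9249249249249249249249229249249249249249249248249249249249249249249229249249249249249249248249249249249249249249229249249249249248cb2cc8249249249249249229249248cb2cb2ca9249248249249249249248249249229249249249249229249248249249249249248249249229249249249249229249248249249249249248249249229249249249249229249248249249249249248249249229249249249249229249248249249249249248249249229249249249249229249248249249249249248249249229249249249249229249248249249249249248249249249249249249249249249249196596596532cb324924914924924924124924524924124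9249249149249049249149249249241249245249241249249249149249049249149249249241249245249241249249249149249049249249249249241249249249249249249249149249249196649249249241249246599248a49249249149249249249209249249241249229249248a49249249149248249249209249249241249229249248a49249249149248249249209249249241249229249249249249249149248249249249249249241249249249248cb2cb2cb2cb2cb3249249249249249249249245249245249249249249249049249049249249249249245249245249249249249249049249049249249249249245249245249249249249249049249049249249249249245249245249249249249249049249049249249249249245249245249249249249249049249049249246596596599249246596599249249249249249249249229249249249249249249248249249249249249249249229249249249249249249248a49249249249249249249209249249249249248996599249249249249249209249246596596599249248a49249249249248a49249209249249249249209249248a49249249249248a49249209249249249249209249248a49249249249248a49249209249249249249209249248a49249249249248a49249209249249249249209249248a49249249249248a49249209249249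249249209249248a49249249249248a492492092492492492492092492492492492492492492492492492492492492492492492491965965965965966492491492492492452492492492412492492490492491492491492492492452492412492412492492490492491492491492492492452492412492412492492490492491492492492492492452492412492492492492490492492490b2cc9249249245249248cb9249249249249049248a49249229249249245249209249248249249249049248a49249229249249245249209249248249249249049248a49249229249249245249209249248249249249049249249249249249249245249249249249196596596432cb3249249149249249249249245249241249249249249249049249149249249249249245249241249249249249249049249149249249249249245249241249249249249249049249149249249249249245249241249249249249249049249149249249249249245249241249249249249249049249149249248cb2cb2cb3249240cb2cc8a49249249249249249249209249249249249249249248a49249249249249249249209249249249249249249248a49249249249249249249209249249249249248996599249249249249249209249246596596599249248a49249249249248a49249209249249249249209249248a492492492492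48a49249209249249249249209249248a49249249249248a49249209249249249249209249248a49249249249248a49249209249249249249209249248a49249249249248a49249209249249249249209249248a49249249249248a49249209249249249249209249249249249249249249249249249249249249249249249248cb2cb2cb2cb2cb3249249249249249245249245249245249249249049249049249049249249245249245249245249249249049249049249049249249245249245249245249249249049249049249049249249245249249249249249249249049249249196649249249245249246599248a49249249049249249249209249249245249229249248a49249249049248249249209249249245249229249248a49249249049248249249209249249245249229249249249249249049248249249249249249245249249249249196596596432cb3249249149249249249249245249241249249249249249049249149249249249249245249241249249249249249049249149249249249249245249241249249249249249049249149249249249249245249241249249249249249049249149249249249249245249241249249249249249049249149249248cb2cb2cb3249240cb2cc8a49249249249249249249209249249249249249249248a4924924924924924924920924924924924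

/-- The direction chosen in mode `m`. -/
def dm (m : ℕ) (v : ℤ × ℤ) : ℕ := mbig >>> (3 * (1560 * m + cix v)) % 8

theorem dm_tau (m : ℕ) (i c : ℤ) (v : ℤ × ℤ) : dm m (tau i c + v) = dm m v := by
  rw [dm, cix_tau, dm]

/-- The local assignment is correct at a cell. -/
def Km (m : ℕ) (d : ℤ × ℤ) : Prop :=
  (PT0.Tg d → ¬ (m = 4 ∧ PT0.att d = (20, 5)) →
    GZ.Adj (d + dir (dm m d)) d ∧ PT0.π (d + dir (dm m d)) = some false ∧
    (((Kp (d + dir (dm m d)) ∨ (d + dir (dm m d) = (24, 29) ∧ (m = 0 ∨ m = 2))) ∧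
      dm m (d + dir (dm m d)) < 4 ∧ d + dir (dm m d) + dir (dm m (d + dir (dm m d))) = d) ∨
    (d = (0, 16) ∧ d + dir (dm m d) = (-1, 16) ∧ 2 ≤ m) ∨
    (d = (24, 0) ∧ d + dir (dm m d) = (24, -1) ∧ (m = 1 ∨ m = 3)))) ∧
  (PT0.In d → dm m (PT0.e (PT0.anc d) 6) < 4 →
    ¬ dm m (PT0.e (PT0.anc d) 7) < 4 ∧ ¬ dm m (PT0.e (PT0.anc d) 8) < 4)

set_option synthInstance.maxSize 8192 in
instance (m : ℕ) : DecidablePred (Km m) := fun _ => by unfold Km; infer_instance

theorem km_fin : ∀ m < 5, ∀ a < 52, ∀ b < 30, Km m ((a : ℕ), (b : ℕ)) := by decide +kernel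

/-- The mode of a tile. -/
def mode (Y : Finset ℕ) (s : ℕ → ℕ) (i c : ℕ) : ℕ :=
  if i = s c then 4 else (if i ∈ Y then 2 else 0) + if i < s c then 0 else 1

/-- The direction chosen at a cell. -/
def dv (Y : Finset ℕ) (s : ℕ → ℕ) (v : ℤ × ℤ) : ℕ := dm (mode Y s (ix v.2) (v.1 / 52).toNat) v

theorem dv_tau (s : ℕ → ℕ) (i c : ℕ) (h : 0 ≤ d.1 ∧ d.1 < 52 ∧ 0 ≤ d.2 ∧ d.2 < 30) :
    dv Y s (tau i c + d) = dm (mode Y s i c) d := by
  have h1 : ix (tau i c + d).2 = i := by
    simp only [ix, tau, Prod.snd_add]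
    omega
  have h2 : ((tau i c + d).1 / 52).toNat = c := by
    simp only [tau, Prod.fst_add]
    omega
  rw [dv, h1, h2, dm_tau]

theorem valid_of (h : ∀ c < C, ∃ i < R, tp i c ∧ i ∈ Y) : ∃ μ, PT0.Valid GZ (nw R C tp Y) μ := by
  choose! s s1 s2 s3 using h
  have md : ∀ i c, mode Y s i c < 5 := fun i c => by
    unfold mode
    split_ifs <;> omega
  have key : ∀ t, PT0.Act (nw R C tp Y) t → GZ.Adj (t + dir (dv Y s t)) t ∧
      nw R C tp Y (t + dir (dv Y s t)) = some false ∧ dv Y s (t + dir (dv Y s t)) < 4 ∧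
      t + dir (dv Y s t) + dir (dv Y s (t + dir (dv Y s t))) = t := by
    intro t a
    obtain ⟨i, hi, c, hc, x, hx, y, hy, rfl⟩ := pres_loc (pres_of a.2.1)
    have pa := pres_of a.2.2
    have m2 : 2 ≤ mode Y s i c ↔ i ∈ Y := by
      have := s3 c hc
      unfold mode
      split_ifs <;> simp_all
    have m3 : ∀ j, (mode Y s j c = 1 ∨ mode Y s j c = 3 ↔ s c < j) ∧
        (mode Y s j c = 0 ∨ mode Y s j c = 2 ↔ j < s c) := fun j => by
      unfold mode
      split_ifs <;> simp <;> omega
    rw [att_tau] at pa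
    obtain ⟨k1, k2, k3⟩ := (km_fin _ (md i c) x hx y hy).1 ((tg_tau ..).1 a.1) (by
      rintro ⟨e, g⟩
      rw [g, pres_iff hi hc (by omega)] at pa
      refine pa.1 ⟨rfl, rfl, ?_⟩
      have : i = s c := by
        unfold mode at e
        split_ifs at e <;> omega
      exact this ▸ s2 c hc)
    rw [dv_tau s i c (by simp; omega), add_assoc]
    generalize ((x : ℤ), (y : ℤ)) = d at *
    generalize d + dir (dm (mode Y s i c) d) = p at *
    suffices g : Pres R C tp Y (tau i c + p) ∧ dv Y s (tau i c + p) < 4 ∧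
        p + dir (dv Y s (tau i c + p)) = d from
      ⟨adj_add.2 k1, by rw [nw_of g.1, pi_tau, k2], g.2.1, by rw [add_assoc, g.2.2]⟩
    rcases k3 with ⟨k | ⟨rfl, k⟩, l⟩ | ⟨rfl, rfl, k⟩ | ⟨rfl, rfl, k⟩
    · rw [dv_tau s i c ⟨k.1, k.2.1, k.2.2.1, k.2.2.2.1⟩]
      exact ⟨pres_kp hi hc k, l⟩
    · rw [dv_tau s i c (by simp), pres_iff hi hc (by omega)]
      have := (m3 i).2.1 k
      have := s1 c hc
      exact ⟨⟨by simp, by omega, by simp⟩, l⟩
    · rw [show PT0.att (0, 16) = (0, 15) by decide +kernel, pres_iff hi hc (by omega)] at pa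
      obtain ⟨c, rfl⟩ : ∃ e, c = e + 1 := ⟨c - 1, by
        by_contra e
        exact pa.2.2 ⟨by omega, rfl, Or.inl rfl, m2.1 k⟩⟩
      have e : tau i (c + 1 : ℕ) + (-1, 16) = tau i c + (51, 16) := by simp [tau]; ring
      have g : 2 ≤ mode Y s i c := by
        have := m2.1 k
        unfold mode
        split_ifs <;> omega
      rw [e, dv_tau s i c (by simp), (by decide +kernel : ∀ m < 5, 2 ≤ m → dm m (51, 16) = 0) _
        (md i c) g]
      exact ⟨pres_kp hi (by omega) (by decide), by decide, by decide⟩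
    · have g := (m3 i).1.1 k
      obtain ⟨i, rfl⟩ : ∃ e, i = e + 1 := ⟨i - 1, by omega⟩
      have e : tau (i + 1 : ℕ) c + (24, -1) = tau i c + (24, 29) := by simp [tau]; ring
      rw [e, dv_tau s i c (by simp), (by decide +kernel : ∀ m < 5, ¬ (m = 0 ∨ m = 2) →
        dm m (24, 29) = 1) _ (md i c) (by rw [(m3 i).2]; omega), pres_iff (by omega) hc (by omega)]
      exact ⟨⟨by simp, by omega, by simp⟩, by decide, by decide⟩
  refine ⟨fun t => t + dir (dv Y s t), fun t a => ⟨(key t a).1, (key t a).2.1⟩,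
    fun t u a b e => ?_, fun v a b => ?_⟩
  · rw [← (key t a).2.2.2, ← (key u b).2.2.2, e]
  · obtain ⟨i, hi, c, hc, x, hx, y, hy, rfl⟩ := pres_loc (pres_of b)
    have a' := (in_tau ..).1 a
    have u : ∀ k, PT0.Us (nw R C tp Y) (fun t => t + dir (dv Y s t))
        (PT0.e (PT0.anc (tau i c + (((x : ℕ) : ℤ), ((y : ℕ) : ℤ)))) k) →
        dm (mode Y s i c) (PT0.e (PT0.anc (((x : ℕ) : ℤ), ((y : ℕ) : ℤ))) k) < 4 := by
      rintro k ⟨t, p, q⟩
      have g := (ct_fin x hx y hy).2.1 a' k
      have := (key t p).2.2.1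
      rwa [show t + dir (dv Y s t) = _ from q, anc_tau, e_tau,
        dv_tau s i c ⟨g.1, g.2.1, g.2.2.1, g.2.2.2.1⟩] at this
    have k := (km_fin _ (md i c) x hx y hy).2 a'
    exact fun p => ⟨fun q => (k (u 6 p)).1 (u 7 q), fun q => (k (u 6 p)).2 (u 8 q)⟩

end Pool.Agent.P.MP_6e435d_co.Gr
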