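import Pool.Agent.P.MP_6e435d_co.Gr.Ph
import Pool.Agent.P.MP_6e435d_co.Gr.Sem
import Pool.Agent.P.MP_6e435d_co.Gr.Mem

/-!
Hardness of Clobber on rectangular boards.
-/

set_option autoImplicit false
set_option linter.dupNamespace false

namespace Pool.Agent.P.MP_6e435d_co.Gr

open Pool.Agent.P.MP_ba7db8_lc Pool.Agent.Lib.Helper47 Pool.Agent.P.MP_5d374e_co.S2 Turing
open Pool.Agent.P.MP_6e435d_co.G SimpleGraph Function

/-- The unit of length for a formula of size `n`. -/
def un (n : ℕ) : ℕ :=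
  2 * ((52 * (4 * n) + 1) * (30 * (4 * n + 2))) + 2 * (4 * n + 2) + 2 * ((4 * n + 2) * (4 * n + 2)) + 4

/-- The board of a formula. -/
noncomputable def bd (F : Fm) : Bd :=
  ⟨4 * F.n + 2, un F.n, 52 * (4 * F.n), nw (4 * F.n + 2) (4 * F.n) (tap F) ∅⟩

variable {F : Fm}

theorem nety_eq (Y : Finset ℕ) : (bd F).nety Y = nw (4 * F.n + 2) (4 * F.n) (tap F) Y := by
  classical
  funext v
  unfold Bd.nety
  split_ifs with h
  · exact (if_neg fun a => a.2.2.2 h).symm
  · exact if_congr (by simp [Pres, h]) rfl rfl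

theorem bd_ok (hn : 0 < F.n) : (bd F).OK (Win F) := by
  refine ⟨fun v a => ?_, fun i hi => ?_, le_rfl, by simp only [bd]; omega,
    by simp only [bd]; omega, by simp only [bd]; omega,
    fun X i ⟨c, hc, h⟩ => ⟨c, hc, fun j a => Finset.mem_insert_of_mem (h j a)⟩,
    fun X Y d ⟨c, hc, h⟩ => ?_, fun X Y all h => ?_⟩
  · simpa [bd] using (pres_of a).1
  · have e : ∀ x y : ℤ, 0 ≤ x ∧ x < 2 ∧ 0 ≤ y ∧ y < 30 →
        (bd F).net (x, 30 * i + y) = PT0.π (x, y) := fun x y a => by
      have := (pres_iff (tp := tap F) (Y := ∅) hi (show 0 < 4 * F.n by omega) (x := x) (y := y)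
        (by omega)).2 ⟨by omega, by omega, by simp⟩
      rw [← pi_tau i (0 : ℕ), ← nw_of this]
      simp [bd, tau]
    have e0 := e 0 0 (by omega)
    rw [add_zero] at e0
    rw [e0, show ry i - 2 = 30 * i + 13 by unfold ry; ring,
      show ry i - 1 = 30 * i + 14 by unfold ry; ring,
      show ry i + 1 = 30 * i + 16 by unfold ry; ring, ry, e _ _ (by omega), e _ _ (by omega),
      e _ _ (by omega), e _ _ (by omega), e _ _ (by omega), e _ _ (by omega)]
    decide +kernel
  · rw [nety_eq]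
    refine Pat.left ok0 cut_nw fun μ m => ?_
    obtain ⟨i, -, a, b⟩ := col_tap m (by omega) hc
    exact Finset.disjoint_left.1 d (h i a) b
  · rw [nety_eq]
    obtain ⟨μ, m⟩ := valid_of (R := 4 * F.n + 2) (C := 4 * F.n) (tp := tap F) (Y := Y)
      fun c hc => by
        by_contra a
        refine h ⟨c, hc, fun i t => ?_⟩
        have : i < 4 * F.n + 2 := by have := t.1; omega
        exact (all i this).resolve_right fun y => a ⟨i, this, t, y⟩
    exact ⟨_, Pat.right ok0 cut_nw m⟩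

theorem game (hn : 0 < F.n) :
    Res GZ ((bd F).st ∅ ∅ ∅) true true ∧ ¬ F.QB F.n 0 (fun _ => 0) ∨
      Res GZ ((bd F).st ∅ ∅ ∅) true false ∧ F.QB F.n 0 (fun _ => 0) := by
  by_cases h : F.QB F.n 0 fun _ => 0
  · exact Or.inr ⟨Bd.right (bd_ok hn) bi (bd F).wf0 rfl subset_rfl (by simp) (inv_of h), h⟩
  · exact Or.inl ⟨Bd.left (bd_ok hn) (bd F).wf0 rfl (mw_of h), h⟩

theorem res_comap {V W : Type} [DecidableEq V] [DecidableEq W] {G : SimpleGraph V} {ψ : W → V}
    (hψ : Injective ψ) {f : V → Option Bool} {b w : Bool} (h : Res G f b w)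
    (hr : ∀ v, f v ≠ none → ∃ u, ψ u = v) : Res (G.comap ψ) (f ∘ ψ) b w := by
  induction h with
  | win f b u v a c d _ ih =>
    have := ih fun w e => hr w (mv_ne (by simp [d]) e)
    obtain ⟨u', rfl⟩ := hr u (by simp [c])
    obtain ⟨v', rfl⟩ := hr v (by simp [d])
    exact Res.win _ _ u' v' a c d (by rw [mv_comp hψ]; exact this)
  | lose f b _ ih =>
    refine Res.lose _ _ fun u v a c d => ?_
    rw [mv_comp hψ]
    exact ih _ _ a c d fun w e => hr w (mv_ne (by simp [show f (ψ v) = _ from d]) e)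

/-- The position on the finite board. -/
noncomputable def pos (F : Fm) (v : Fin (3 * un F.n + 1 + 52 * (4 * F.n)) ×
    Fin (30 * (4 * F.n + 2))) : Option Bool :=
  (bd F).st ∅ ∅ ∅ ((v.1 : ℕ) - (3 * un F.n + 1 : ℕ), (v.2 : ℕ))

theorem res_pos (hn : 0 < F.n) {w : Bool} (h : Res GZ ((bd F).st ∅ ∅ ∅) true w) :
    Res ((pathGraph _).boxProd (pathGraph _)) (pos F) true w := by
  have := res_comap (ψ := fun v : Fin (3 * un F.n + 1 + 52 * (4 * F.n)) ×
    Fin (30 * (4 * F.n + 2)) => ((((v.1 : ℕ) : ℤ) - (3 * un F.n + 1 : ℕ), ((v.2 : ℕ) : ℤ)) : ℤ × ℤ))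
    (fun u v e => by
      simp only [Prod.mk.injEq] at e
      exact Prod.ext (Fin.ext (by omega)) (Fin.ext (by omega))) h fun v a => by
      have := Bd.st_sup (bd_ok hn) a
      simp only [bd] at this
      exact ⟨(⟨(v.1 + (3 * un F.n + 1 : ℕ)).toNat, by omega⟩, ⟨v.2.toNat, by omega⟩),
        Prod.ext (by simp only; omega) (by simp only; omega)⟩
  convert this using 1
  · ext u v
    simp only [boxProd_adj, pathGraph_adj, comap_adj, GZ, Fin.ext_iff]
    omega
  · rfl

/-- The stones of the tile. -/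
def tb0 (p : ℕ × ℕ) : Option Bool := if p.1 < 52 ∧ p.2 < 30 then PT0.π (p.1, p.2) else none

theorem pt_tb0 : PT tb0 :=
  PT.of_table _ (Finset.range 52 ×ˢ Finset.range 30).toList none fun p a => if_neg (by simpa using a)

open Classical in
/-- The stones in coordinates. -/
noncomputable def cf (F : Fm) (x y : ℕ) : Option Bool :=
  if x < 3 * un F.n + 1 then
    if 3 * un F.n ≤ x + (if y / 30 + 1 = 4 * F.n + 2 then un F.n else 3 * un F.n) then
      if y % 30 = 15 then (if x = 3 * un F.n then some true else some false)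
      else if y % 60 = 30 then (if x = 3 * un F.n then some false else some true) else none
    else none
  else if x = 3 * un F.n + 1 ∧ y % 30 = 15 then some false
  else if x = 3 * un F.n + 1 ∧ y % 30 = 14 then some true
  else if ¬ ((x - (3 * un F.n + 1)) % 52 = 20 ∧ y % 30 = 5 ∧
      tap F (y / 30) ((x - (3 * un F.n + 1)) / 52)) ∧
    ¬ ((x - (3 * un F.n + 1)) % 52 = 24 ∧ y + 1 = 30 * (4 * F.n + 2)) then
    tb0 ((x - (3 * un F.n + 1)) % 52, y % 30) else none

theorem cf_eq (x : Fin (3 * un F.n + 1 + 52 * (4 * F.n))) (y : Fin (30 * (4 * F.n + 2))) :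
    cf F x y = pos F (x, y) := by
  classical
  obtain ⟨x, hx⟩ := x
  obtain ⟨y, hy⟩ := y
  have h1 : ix y = y / 30 := by unfold ix; omega
  have h2 : (0 : ℤ) ≤ y ∧ (y : ℤ) < 30 * (bd F).R := by simp only [bd]; omega
  have h3 : (bd F).len (y / 30) =
      (if y / 30 + 1 = 4 * F.n + 2 then un F.n else 3 * un F.n : ℕ) := by
    rw [Nat.cast_ite]
    rfl
  simp only [pos, cf, Bd.st, h1, h2, lo, h3, Finset.notMem_empty, true_and, false_and, if_true,
    if_false]
  generalize (if y / 30 + 1 = 4 * F.n + 2 then un F.n else 3 * un F.n) = l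
  refine if_ctx_congr (by omega) (fun _ => if_congr (by omega) (if_congr (by omega)
    (if_congr (by omega) rfl rfl) (if_congr (by omega) ?_ rfl)) rfl) fun hs => ?_
  · split_ifs with a
    · rw [decide_eq_false (by omega)]
    · rw [decide_eq_true (by omega)]
  refine if_congr (by omega) (by simp) (if_congr (by omega) rfl ?_)
  obtain ⟨z, rfl⟩ : ∃ z, x = z + (3 * un F.n + 1) := ⟨x - (3 * un F.n + 1), by omega⟩
  rw [Nat.add_sub_cancel, Nat.cast_add, add_sub_cancel_right]
  have h4 : ((z : ℤ) / 52).toNat = z / 52 := by omega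
  have h5 : (z : ℤ) % 52 = 20 ↔ z % 52 = 20 := by omega
  have h6 : (y : ℤ) % 30 = 5 ↔ y % 30 = 5 := by omega
  have h7 : (z : ℤ) % 52 = 24 ∧ (y : ℤ) = 30 * (4 * F.n + 2 : ℕ) - 1 ↔
      z % 52 = 24 ∧ y + 1 = 30 * (4 * F.n + 2) := by omega
  have h8 : (0 : ℤ) ≤ z ∧ (z : ℤ) < 52 * (4 * F.n : ℕ) ∧ (0 : ℤ) ≤ y ∧
      (y : ℤ) < 30 * (4 * F.n + 2 : ℕ) := by omega
  refine if_congr ?_ ?_ rfl
  · simp only [Pres, h1, h4, h5, h6, h7, h8, Finset.notMem_empty, and_false, not_false_eq_true,
      and_true, true_and]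
  · rw [tb0, if_pos ⟨Nat.mod_lt _ (by omega), Nat.mod_lt _ (by omega)⟩]
    simp [PT0, lb, cix]

open Classical in
/-- The code of the board. -/
noncomputable def out (F : Fm) : List Bool :=
  pair (List.replicate (3 * un F.n + 1 + 52 * (4 * F.n)) true)
    (pair (List.replicate (30 * (4 * F.n + 2)) true)
      (pair ((List.range (3 * un F.n + 1 + 52 * (4 * F.n))).flatMap fun x =>
          (List.range (30 * (4 * F.n + 2))).map fun y => decide (cf F x y = some true))
        ((List.range (3 * un F.n + 1 + 52 * (4 * F.n))).flatMap fun x =>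
          (List.range (30 * (4 * F.n + 2))).map fun y => decide (cf F x y = some false))))

theorem out_eq (F : Fm) : out F = gcode (pos F) := by
  rw [gcode, bitmap_eq _ _ (fun x y => decide (cf F x y = some true)) fun i j => by simp [cf_eq],
    bitmap_eq _ _ (fun x y => decide (cf F x y = some false)) fun i j => by simp [cf_eq], out]

section PT

variable {α : Type} [Enc α] {F : α → Fm}

theorem pt_cf' (hn : PT fun a => (F a).n) (ho : PTP fun y : α × ℕ => (F y.1).own y.2)
    (hg : PTP fun y : α × ℕ × ℕ × ℕ => (F y.1).ng y.2.1 y.2.2.1 y.2.2.2) :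
    PT fun y : (α × ℕ) × ℕ => cf (F y.1.1) y.1.2 y.2 := by
  have h0 : PT fun y : (α × ℕ) × ℕ => (F y.1.1).n := hn.comp (by fun_prop)
  have h1 : PT fun y : (α × ℕ) × ℕ => un (F y.1.1).n := by unfold un; fun_prop
  have h2 := ho.comp (f := fun y : (α × ℕ) × ℕ =>
    (y.1.1, (y.1.2 - (3 * un (F y.1.1).n + 1)) / 52 / 4)) (by fun_prop)
  have h3 := hg.comp (f := fun y : (α × ℕ) × ℕ =>
    (y.1.1, (y.1.2 - (3 * un (F y.1.1).n + 1)) / 52 / 4, y.2 / 30 / 4, y.2 / 30 % 4 - 1))
    (by fun_prop)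
  have h4 : PT fun y : (α × ℕ) × ℕ => if y.2 / 30 + 1 = 4 * (F y.1.1).n + 2 then un (F y.1.1).n
      else 3 * un (F y.1.1).n := PTP.ite (PTP.eq (by fun_prop) (by fun_prop)) h1 (by fun_prop)
  have h5 : PT fun y : (α × ℕ) × ℕ =>
      tb0 ((y.1.2 - (3 * un (F y.1.1).n + 1)) % 52, y.2 % 30) := pt_tb0.comp (by fun_prop)
  classical
  unfold cf
  refine PTP.ite ?_ (PTP.ite ?_ (PTP.ite ?_ (PTP.ite ?_ (PT.const _) (PT.const _))
    (PTP.ite ?_ (PTP.ite ?_ (PT.const _) (PT.const _)) (PT.const _))) (PT.const _))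
    (PTP.ite ?_ (PT.const _) (PTP.ite ?_ (PT.const _) (PTP.ite ?_ h5 (PT.const _))))
  all_goals try unfold tap
  repeat' first
    | with_reducible exact h2
    | with_reducible exact h3
    | apply PTP.and
    | apply PTP.or
    | (apply PTP.eq <;> fun_prop)
    | (apply PTP.lt <;> fun_prop)
    | (apply PTP.le <;> fun_prop)
    | apply PTP.not

theorem pt_out' (hn : PT fun a => (F a).n) (hn' : PS fun a => (F a).n)
    (ho : PTP fun y : α × ℕ => (F y.1).own y.2)
    (hg : PTP fun y : α × ℕ × ℕ × ℕ => (F y.1).ng y.2.1 y.2.2.1 y.2.2.2) :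
    PT fun a => out (F a) := by
  classical
  have r1 : PS fun a => 4 * (F a).n + 2 := ((PB.const 4).mul hn').add (PB.const 2)
  have r2 : PS fun a => 52 * (4 * (F a).n) := (PB.const 52).mul ((PB.const 4).mul hn')
  have r3 : PS fun a => 30 * (4 * (F a).n + 2) := (PB.const 30).mul r1
  have r4 : PS fun a => un (F a).n := ((((PB.const 2).mul ((r2.add (PB.const 1)).mul r3)).add
    ((PB.const 2).mul r1)).add ((PB.const 2).mul (r1.mul r1))).add (PB.const 4)
  have r5 : PS fun a => 3 * un (F a).n + 1 + 52 * (4 * (F a).n) :=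
    (((PB.const 3).mul r4).add (PB.const 1)).add r2
  have p3 : PT fun a => 30 * (4 * (F a).n + 2) := by fun_prop
  have p5 : PT fun a => 3 * un (F a).n + 1 + 52 * (4 * (F a).n) := by unfold un; fun_prop
  have k : ∀ b : Bool, PT fun a => (List.range (3 * un (F a).n + 1 + 52 * (4 * (F a).n))).flatMap
      fun x => (List.range (30 * (4 * (F a).n + 2))).map fun y =>
        decide (cf (F a) x y = some b) := fun b =>
    PT.flatMap (g := fun a x => (List.range (30 * (4 * (F a).n + 2))).map fun y =>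
      decide (cf (F a) x y = some b)) (PT.map
        (g := fun (y : α × ℕ) v => decide (cf (F y.1) y.2 v = some b))
        (PTP.eq (pt_cf' hn ho hg) (PT.const _)).dec ((PT.range p3 r3).comp (by fun_prop)))
      (PT.range p5 r5)
  exact Par.pt_pair (PT.replicate p5 r5 (PT.const _))
    (Par.pt_pair (PT.replicate p3 r3 (PT.const _)) (Par.pt_pair (k true) (k false)))

theorem pt_fm' {I : α → Inst} {lx pw : α → ℕ} (hk : PT fun a => (I a).k)
    (hk' : PS fun a => (I a).k) (hD : PT fun a => (I a).D) (hD' : PS fun a => (I a).D)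
    (hE : PTP fun y : α × ℕ × ℕ × ℕ × ℕ => (I y.1).E y.2.1 y.2.2.1 y.2.2.2.1 y.2.2.2.2)
    (hA : PTP fun y : α × ℕ × ℕ × ℕ => (I y.1).A y.2.1 y.2.2.1 y.2.2.2)
    (hl : PT lx) (hp : PT pw) (hp' : PS pw) : PT fun a => out (fm (I a) (lx a) (pw a)) := by
  refine pt_out' (F := fun a => fm (I a) (lx a) (pw a)) (by simp only [fm]; fun_prop)
    ((((PB.const 3).mul ((hk'.mul hD').mul (hk'.mul hD'))).add ((PB.const 2).mul hp')).add
      (hk'.mul hD')) (PTP.and (PTP.lt (by fun_prop) (by fun_prop))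
      (PTP.eq (by fun_prop) (by fun_prop))) ?_
  have h1 : PT fun y : α × ℕ × ℕ × ℕ => (I y.1).k := hk.comp (by fun_prop)
  have h2 : PT fun y : α × ℕ × ℕ × ℕ => (I y.1).D := hD.comp (by fun_prop)
  have h3 := hE.comp (f := fun y : α × ℕ × ℕ × ℕ => (y.1,
    y.2.1 / 3 / ((I y.1).k * (I y.1).D) / (I y.1).D,
    y.2.1 / 3 / ((I y.1).k * (I y.1).D) % (I y.1).D,
    y.2.1 / 3 % ((I y.1).k * (I y.1).D) / (I y.1).D,
    y.2.1 / 3 % ((I y.1).k * (I y.1).D) % (I y.1).D)) (by fun_prop)
  have h4 := hA.comp (f := fun y : α × ℕ × ℕ × ℕ => (y.1,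
    y.2.1 / 3 / ((I y.1).k * (I y.1).D) / (I y.1).D,
    y.2.1 / 3 % ((I y.1).k * (I y.1).D),
    y.2.1 / 3 / ((I y.1).k * (I y.1).D) % (I y.1).D)) (by fun_prop)
  simp only [fm, nt, lit]
  repeat' first
    | exact h3
    | exact h4
    | apply PTP.and
    | apply PTP.or
    | (apply PTP.eq <;> fun_prop)
    | (apply PTP.lt <;> fun_prop)
    | (apply PTP.le <;> fun_prop)
    | apply PTP.not

end PT

theorem hard (L : Set (List Bool)) (hL : InAP L) :
    ∃ f : List Bool → List Bool, Nonempty (TM2ComputableInPolyTime id id f) ∧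
      ∀ x, x ∈ L ↔ f x ∈ GridLang := by
  obtain ⟨V, P, ⟨h⟩, hV⟩ := hL
  have hV' : PT (nver V P) := pt_nver (Pool.Agent.Lib.Helper33.Sim.pt_of_tm_bool h) P
  obtain ⟨h'⟩ := PT.computableInPolyTime id Computability.encodeBool (nver V P)
    (F := fun z => [nver V P z]) (PT.cons hV' (PT.const [])) fun _ => rfl
  obtain ⟨q, hqP, hd, hc, hq⟩ := exists_par2 h' P
  have hpt : PT fun x => out (fm (q.inst x) (Par2.lx x) (q.pw x)) :=
    pt_fm' (q.pt_k PT.id) (q.ps_k PT.id) (PT.const _) (PB.const _)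
      (q.ptp_agr (by fun_prop) (by fun_prop) (by fun_prop) (by fun_prop) (by fun_prop))
      (PTP.and (q.ptp_al hd hc (by fun_prop) (by fun_prop) (by fun_prop) (by fun_prop))
        (q.ptp_agr (by fun_prop) (by fun_prop) (by fun_prop) (by fun_prop) (by fun_prop)))
      (Par2.pt_lx PT.id) (q.pt_pw PT.id) (q.ps_pw PT.id)
  refine ⟨fun x => out (fm (q.inst x) (Par2.lx x) (q.pw x)),
    PT.computableInPolyTime id id _ hpt fun _ => rfl, fun x => ?_⟩
  dsimp only
  have hpw : q.pw x = P.eval x.length := by rw [Par2.pw, hqP]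
  have hK : 2 ≤ (q.inst x).k * (q.inst x).D := by
    have h1 : 2 ≤ (q.inst x).k := by
      change 2 ≤ q.k x
      unfold Par2.k
      omega
    have h2 : 0 < (q.inst x).D := pow_pos hd _
    nlinarith
  generalize hF : fm (q.inst x) (Par2.lx x) (q.pw x) = F
  have hn : F.n = 3 * ((q.inst x).k * (q.inst x).D * ((q.inst x).k * (q.inst x).D)) +
    2 * q.pw x + (q.inst x).k * (q.inst x).D := by rw [← hF]; rfl
  have ho : ∀ i, F.own i ↔ i < q.pw x ∧ i % 2 = 0 := by rw [← hF]; exact fun _ => Iff.rfl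
  have key : ∀ (z : ℕ → ℕ) (w : List Bool), w.length = q.pw x →
      (∀ i < q.pw x, z i = (w.getD i false).toNat) →
      ((∃ σ, (q.inst x).Sol (uu (Par2.lx x) (q.pw x) z) σ) ↔ ¬ V (pair x w) = true) := by
    intro z w hw e
    have he : ((List.range (2 * q.pw x)).map fun i => decide (z i = 1)).length = 2 * q.pw x := by
      simp
    rw [hq x _ _ he fun i hi => by simp [uu, List.getD_eq_getElem?_getD, hi]]
    have : ∀ w', nver V P (pair x (((List.range (2 * q.pw x)).map fun i => decide (z i = 1)) ++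
        w')) = !V (pair x w) := by
      intro w'
      simp only [nver, unp1_pair, unp2_pair, ← hpw]
      congr 3
      rw [List.take_append_of_le_length (by omega)]
      refine List.ext_getElem (by simp; omega) fun i a b => ?_
      have := e i (by omega)
      rw [List.getD_eq_getElem _ _ b] at this
      simp only [List.getElem_take, List.getElem_map, List.getElem_range, this]
      cases w[i] <;> simp
    simp only [this]
    exact ⟨fun ⟨_, _, a⟩ => by simpa using a, fun a => ⟨[], by simp, by simpa using a⟩⟩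
  have main : F.QB F.n 0 (fun _ => 0) ↔ ¬ Alt (fun w => V (pair x w) = true) (q.pw x) [] := by
    have := Fm.QB_alt (F := F) (P := fun w => V (pair x w) = true) (pw := q.pw x)
      (R := F.n - q.pw x) (fun i hi => by simp [ho, hi]) (fun z w hz hw e => by
        rw [Fm.QB_ex _ _ _ (by omega) (fun i hi a => by have := (ho i).1 a; omega) hz, ← hF]
        constructor
        · rintro ⟨z', a, b, c⟩
          exact (key z' w hw fun i hi => (a i hi).trans (e i hi)).1 (fm_sound hK b c)
        · intro a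
          obtain ⟨σ, b⟩ := (key z w hw e).2 a
          obtain ⟨z', c, d⟩ := fm_complete hK hz b
          exact ⟨z', fun i hi => c i (by omega), d⟩) (q.pw x) [] (fun _ => 0) (by simp)
      (by simp) (by simp)
    rwa [show F.n - q.pw x + q.pw x = F.n by omega] at this
  have hn0 : 0 < F.n := by omega
  rw [hV, ← hpw, out_eq, gcode_mem]
  rcases game hn0 with ⟨a, b⟩ | ⟨a, b⟩
  · exact iff_of_true (not_not.1 (mt main.2 b)) (res_pos hn0 a)
  · exact iff_of_false (main.1 b) (res_pos hn0 a).excl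

end Pool.Agent.P.MP_6e435d_co.Gr
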