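import Pool.Agent.P.MP_6e435d_co.Gr.Base

/-!
The nine-cell gadget and its local strategies.
-/

set_option autoImplicit false
set_option linter.dupNamespace false
set_option linter.unusedSectionVars false

namespace Pool.Agent.P.MP_6e435d_co.Gr

open Pool.Agent.P.MP_6e435d_co.G Function

/-- Edges of the gadget, in both directions. -/
def EL : List (Fin 9 × Fin 9) :=
  [(0, 1), (0, 2), (1, 3), (2, 3), (0, 4), (0, 5), (4, 6), (5, 6), (4, 7), (7, 1), (5, 8),
    (1, 0), (2, 0), (3, 1), (3, 2), (4, 0), (5, 0), (6, 4), (6, 5), (7, 4), (1, 7), (8, 5)]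

/-- No blue stone on a port. -/
def nbB (g : Fin 9 → Option Bool) : Bool :=
  g 6 != some true && g 7 != some true && g 8 != some true

/-- Colours fit. -/
def lgB (g : Fin 9 → Option Bool) (b : Bool) (e : Fin 9 × Fin 9) : Bool :=
  g e.1 == some b && g e.2 == some (!b)

/-- Red moving first loses. -/
def geB : ℕ → (Fin 9 → Option Bool) → Bool
  | 0, _ => false
  | n + 1, g => nbB g && EL.all fun e => !lgB g false e || EL.any fun e' =>
      lgB (mv g e.1 e.2) true e' && geB n (mv (mv g e.1 e.2) e'.1 e'.2)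

/-- At least a star. -/
def hfB : ℕ → (Fin 9 → Option Bool) → Bool
  | 0, _ => false
  | n + 1, g => nbB g && (EL.any fun e' => lgB g true e' && geB 5 (mv g e'.1 e'.2)) &&
      EL.all fun e => !lgB g false e || geB 5 (mv g e.1 e.2) || EL.any fun e' =>
        lgB (mv g e.1 e.2) true e' && hfB n (mv (mv g e.1 e.2) e'.1 e'.2)

/-- The colours of the gadget. -/
def colr (k : Fin 9) : Bool := decide (k < 4)

/-- The gadget with some ports vacated. -/
def stt (c u v : Bool) (k : Fin 9) : Option Bool :=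
  if (k = 6 ∧ c = true) ∨ (k = 7 ∧ u = true) ∨ (k = 8 ∧ v = true) then none else some (colr k)

theorem hf_stt : ∀ c u v : Bool, ∀ e ∈ EL, lgB (stt c u v) false e = true →
    hfB 5 (mv (stt c u v) e.1 e.2) = true := by
  decide +kernel

variable {V : Type} [DecidableEq V] {G : SimpleGraph V} {e : Fin 9 → V}

/-- Positions inside the gadget. -/
def Ins (e : Fin 9 → V) (B : ℕ → (Fin 9 → Option Bool) → Bool) (f : V → Option Bool) : Prop :=
  (∀ v, f v ≠ none → ∃ k, e k = v) ∧ ∃ n, B n (f ∘ e) = true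

theorem lg_of (ha : ∀ k l, G.Adj (e k) (e l) ↔ (k, l) ∈ EL) {f : V → Option Bool} {b : Bool}
    {x : Fin 9 × Fin 9} (hx : x ∈ EL) (h : lgB (f ∘ e) b x = true) :
    Lg G f b (e x.1) (e x.2) := by
  simp only [lgB, Bool.and_eq_true, beq_iff_eq, comp] at h
  exact ⟨(ha _ _).2 hx, h.1, h.2⟩

theorem of_lg (ha : ∀ k l, G.Adj (e k) (e l) ↔ (k, l) ∈ EL) {f : V → Option Bool} {b : Bool}
    (hf : ∀ v, f v ≠ none → ∃ k, e k = v) {u v : V} (h : Lg G f b u v) :
    ∃ x ∈ EL, lgB (f ∘ e) b x = true ∧ e x.1 = u ∧ e x.2 = v := by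
  obtain ⟨k, rfl⟩ := hf u (by simp [h.2.1])
  obtain ⟨l, rfl⟩ := hf v h.ne
  exact ⟨(k, l), (ha _ _).1 h.1, by simp [lgB, h.2.1, h.2.2], rfl, rfl⟩

theorem loc_lam (hi : Injective e) (ha : ∀ k l, G.Adj (e k) (e l) ↔ (k, l) ∈ EL) {F : Set V}
    (hF : ∀ k, e k ∈ F → 6 ≤ k) : Loc G true F (Ins e geB) (Ins e hfB) := by
  have hs : ∀ {f : V → Option Bool} {b : Bool} {u v : V}, (∀ v, f v ≠ none → ∃ k, e k = v) →
      Lg G f b u v → ∀ w, mv f u v w ≠ none → ∃ k, e k = w :=
    fun h l w a => h w (mv_ne l.ne a)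
  refine ⟨fun f h v hv a => ?_, fun f h u v l => ?_, fun f h => ?_, fun f h u v l => ?_⟩
  · have h1 : (∀ v, f v ≠ none → ∃ k, e k = v) ∧ nbB (f ∘ e) = true := by
      rcases h with ⟨h, n, c⟩ | ⟨h, n, c⟩ <;> cases n <;>
        simp only [geB, hfB, Bool.and_eq_true, Bool.false_eq_true] at c
      · exact ⟨h, c.1⟩
      · exact ⟨h, c.1.1⟩
    obtain ⟨k, rfl⟩ := h1.1 v (by simp [a])
    have h2 := hF k hv
    have h3 := h1.2
    simp only [nbB, Bool.and_eq_true, bne_iff_ne, comp] at h3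
    have : k = 6 ∨ k = 7 ∨ k = 8 := by omega
    rcases this with rfl | rfl | rfl
    exacts [h3.1.1 a, h3.1.2 a, h3.2 a]
  · obtain ⟨h, n, c⟩ := h
    obtain ⟨x, hx, d, rfl, rfl⟩ := of_lg ha h l
    cases n <;> simp only [geB, Bool.and_eq_true, Bool.false_eq_true, List.all_eq_true,
      Bool.or_eq_true, List.any_eq_true, Bool.not_eq_true'] at c
    obtain ⟨y, hy, p, q⟩ := (c.2 x hx).resolve_left (by simpa using d)
    rw [mv_comp hi] at p
    rw [mv_comp hi, mv_comp hi] at q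
    exact ⟨_, _, lg_of ha hy p, hs (hs h l) (lg_of ha hy p), _, q⟩
  · obtain ⟨h, n, c⟩ := h
    cases n <;> simp only [hfB, Bool.and_eq_true, Bool.false_eq_true, List.any_eq_true] at c
    obtain ⟨y, hy, p, q⟩ := c.1.2
    rw [mv_comp hi] at q
    exact ⟨_, _, lg_of ha hy p, hs h (lg_of ha hy p), _, q⟩
  · obtain ⟨h, n, c⟩ := h
    obtain ⟨x, hx, d, rfl, rfl⟩ := of_lg ha h l
    cases n <;> simp only [hfB, Bool.and_eq_true, Bool.false_eq_true, List.all_eq_true,
      Bool.or_eq_true, List.any_eq_true, Bool.not_eq_true'] at c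
    rcases c.2 x hx with (p | p) | ⟨y, hy, p, q⟩
    · exact absurd p (by simpa using d)
    · rw [mv_comp hi] at p
      exact Or.inl ⟨hs h l, _, p⟩
    · rw [mv_comp hi] at p
      rw [mv_comp hi, mv_comp hi] at q
      exact Or.inr ⟨_, _, lg_of ha hy p, hs (hs h l) (lg_of ha hy p), _, q⟩

end Pool.Agent.P.MP_6e435d_co.Gr
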