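import Pool.Agent.P.MP_6e435d_co.Gr.Lam

/-!
Networks of attackers, targets, protectors and gadgets.
-/

set_option autoImplicit false
set_option linter.dupNamespace false
set_option linter.unusedSectionVars false

namespace Pool.Agent.P.MP_6e435d_co.Gr

open Pool.Agent.P.MP_6e435d_co.G Function

/-- A pattern with roles. -/
structure Pat (V : Type) where
  /-- the stones -/
  π : V → Option Bool
  /-- ordinary targets -/
  isT : V → Prop
  /-- junction targets -/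
  isJ : V → Prop
  /-- gadget cells -/
  In : V → Prop
  /-- attacker -/
  att : V → V
  /-- the stone that recaptures -/
  grd : V → V
  /-- inverse of `grd` -/
  ginv : V → V
  /-- leaf -/
  lf : V → V
  /-- reserved protector -/
  qq : V → V
  /-- anchor of the gadget -/
  anc : V → V
  /-- position in the gadget -/
  idx : V → Fin 9
  /-- cells of a gadget -/
  e : V → Fin 9 → V

namespace Pat

variable {V : Type} [DecidableEq V] (P : Pat V) (G : SimpleGraph V)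

/-- Targets. -/
def Tg (t : V) : Prop := P.isT t ∨ P.isJ t

/-- Protectors with a leaf. -/
def Lf (p : V) : Prop := P.π p = some false ∧ ¬ P.In p ∧ G.Adj p (P.lf p) ∧
  P.π (P.lf p) = some false ∧ (∀ v, G.Adj (P.lf p) v → P.π v ≠ none → v = p) ∧
  ∀ v, G.Adj p v → P.π v ≠ some true ∧ ¬ P.In v

/-- All protectors have leaves. -/
def Good (t : V) : Prop := ∀ p, G.Adj t p → P.π p = some false → P.Lf G p

/-- The local rules. -/
structure OK : Prop where
  a1 : ∀ t, P.Tg t → P.π t = some false ∧ P.π (P.att t) = some true ∧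
    P.π (P.grd t) = some true ∧ G.Adj t (P.att t) ∧ G.Adj (P.grd t) (P.att t) ∧ ¬ P.In t ∧
    ¬ P.In (P.att t) ∧ ¬ P.In (P.grd t)
  a2 : ∀ t, P.Tg t → ∀ v, G.Adj (P.att t) v → P.π v ≠ none → v = t ∨ v = P.grd t
  a3 : ∀ t, P.Tg t → ∀ v, G.Adj (P.grd t) v → P.π v ≠ none → v = P.att t
  a4 : ∀ z r, Lg G P.π false z r → ((P.Tg z ∧ r = P.att z) ∨ P.In z) ∧ G.Adj (P.grd z) r ∧
    P.π (P.grd z) = some true ∧ P.ginv (P.grd z) = z
  a5 : ∀ t p, P.Tg t → G.Adj t p → P.π p = some false → ¬ P.Tg p ∧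
    (P.isJ t → ¬ P.In p ∧ ∀ s, G.Adj p s → P.isJ s → s = t)
  a6 : ∀ t, P.isT t → P.Good G t ∨ (G.Adj t (P.qq t) ∧ P.Lf G (P.qq t) ∧
    ∀ s, G.Adj (P.qq t) s → P.isT s → s = t ∨ P.Good G s)
  b1 : ∀ v, P.In v → P.e (P.anc v) (P.idx v) = v ∧ P.π v = some (colr (P.idx v))
  b2 : ∀ v, P.In v → ∀ k, P.In (P.e (P.anc v) k) ∧ P.anc (P.e (P.anc v) k) = P.anc v ∧
    P.idx (P.e (P.anc v) k) = k
  b3 : ∀ v, P.In v → ∀ k l, G.Adj (P.e (P.anc v) k) (P.e (P.anc v) l) ↔ (k, l) ∈ EL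
  b4 : ∀ v, P.In v → ∀ w, G.Adj v w → P.π w ≠ none →
    (P.In w ∧ P.anc w = P.anc v) ∨ (6 ≤ P.idx v ∧ ¬ P.In w ∧ P.isT w)
  b5 : ∀ v, P.In v → P.idx v = 7 → P.grd v = P.e (P.anc v) 3

/-- A finite part of the pattern. -/
structure Cut (f : V → Option Bool) : Prop where
  fi : Fi f
  le : ∀ v, f v = P.π v ∨ f v = none
  c2 : ∀ t, P.Tg t → f t ≠ none → f (P.att t) ≠ none → f (P.grd t) ≠ none
  c3 : ∀ v, P.In v → f v ≠ none → ∀ k, f (P.e (P.anc v) k) ≠ none
  c4 : ∀ p, P.Lf G p → f p ≠ none → f (P.lf p) ≠ none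
  c5 : ∀ t, P.isT t → ¬ P.Good G t → f t ≠ none → f (P.qq t) ≠ none

/-- Active targets. -/
def Act (f : V → Option Bool) (t : V) : Prop := P.Tg t ∧ f t ≠ none ∧ f (P.att t) ≠ none

/-- Used protectors. -/
def Us (f : V → Option Bool) (μ : V → V) (p : V) : Prop := ∃ t, P.Act f t ∧ μ t = p

/-- Valid assignments of protectors. -/
structure Valid (f : V → Option Bool) (μ : V → V) : Prop where
  adj : ∀ t, P.Act f t → G.Adj (μ t) t ∧ f (μ t) = some false
  inj : ∀ t s, P.Act f t → P.Act f s → μ t = μ s → t = s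
  lam : ∀ v, P.In v → f v ≠ none → P.Us f μ (P.e (P.anc v) 6) →
    ¬ P.Us f μ (P.e (P.anc v) 7) ∧ ¬ P.Us f μ (P.e (P.anc v) 8)

variable {P G} {f : V → Option Bool}

theorem Cut.eq (c : P.Cut G f) {v : V} (h : f v ≠ none) : f v = P.π v := (c.le v).resolve_right h

theorem Cut.lg (c : P.Cut G f) {b : Bool} {u v : V} (l : Lg G f b u v) : Lg G P.π b u v :=
  ⟨l.1, by rw [← c.eq (by simp [l.2.1]), l.2.1], by rw [← c.eq l.ne, l.2.2]⟩

theorem OK.same (h : P.OK G) {z r : V} (hz : P.In z) (a : G.Adj z r) (c : P.π r = some true) :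
    P.In r ∧ P.anc r = P.anc z := by
  refine (h.b4 z hz r a (by simp [c])).resolve_right fun d => ?_
  simp [(h.a1 r (Or.inl d.2.2)).1] at c

theorem OK.pie (h : P.OK G) {v : V} (hv : P.In v) (k : Fin 9) :
    P.π (P.e (P.anc v) k) = some (colr k) := by
  rw [(h.b1 _ (h.b2 v hv k).1).2, (h.b2 v hv k).2.2]

theorem OK.thr (h : P.OK G) {z r : V} (hz : P.In z) (l : Lg G P.π false z r) :
    P.In r ∧ P.anc r = P.anc z ∧ ((P.idx z = 4 ∧ P.idx r = 0) ∨ (P.idx z = 5 ∧ P.idx r = 0) ∨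
      (P.idx z = 7 ∧ P.idx r = 1)) := by
  obtain ⟨a, c⟩ := h.same hz l.1 l.2.2
  refine ⟨a, c, ?_⟩
  have h1 := (h.b3 z hz (P.idx z) (P.idx r)).1 (by
    rw [(h.b1 z hz).1, ← c, (h.b1 r a).1]
    exact l.1)
  have h2 := (h.b1 z hz).2.symm.trans l.2.1
  have h3 := (h.b1 r a).2.symm.trans l.2.2
  revert h1 h2 h3
  generalize P.idx z = k, P.idx r = m
  revert k m
  decide

open Classical in
/-- The recaptures of Right. -/
noncomputable def rho (P : Pat V) (f : V → Option Bool) (μ : V → V) (_ r : V) : V :=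
  if P.In r then P.e (P.anc r) (if P.idx r = 7 then 4 else if P.Us f μ (P.e (P.anc r) 6) then
    (if P.idx r = 4 then 7 else 8) else 6) else μ r

theorem right (h : P.OK G) (c : P.Cut G f) {μ : V → V} (m : P.Valid G f μ) :
    Pr G false (P.rho f μ) f := by
  classical
  have key : ∀ z r, Lg G f true z r → (¬ P.In r ∧ P.Act f r ∧ z = P.att r) ∨
      (P.In r ∧ ∃ k : Fin 9, P.rho f μ z r = P.e (P.anc r) k ∧ (k, P.idx r) ∈ EL ∧
        colr k = false ∧ ¬ P.Us f μ (P.e (P.anc r) k) ∧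
        z = P.e (P.anc r) (if k = 4 then 1 else 0)) := by
    intro z r l
    have l' : Lg G P.π false r z := ⟨l.1.symm, (c.lg l).2.2, (c.lg l).2.1⟩
    rcases (h.a4 r z l').1 with ⟨a, d⟩ | a
    · exact Or.inl ⟨(h.a1 r a).2.2.2.2.2.1, ⟨a, l.ne, by simp [← d, l.2.1]⟩, d⟩
    · obtain ⟨p, q, s⟩ := h.thr a l'
      have e := (h.b1 z p).1
      rw [q] at e
      have u4 : ¬ P.Us f μ (P.e (P.anc r) 4) := by
        rintro ⟨t, ht, k⟩
        have := h.b4 _ (h.b2 r a 4).1 t (k ▸ (m.adj t ht).1) (by rw [← c.eq ht.2.1]; exact ht.2.1)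
        rw [(h.b2 r a 4).2.2] at this
        exact this.elim (fun x => (h.a1 t ht.1).2.2.2.2.2.1 x.1) fun x => absurd x.1 (by decide)
      have hl := m.lam r a l.ne
      refine Or.inr ⟨a, _, if_pos a, ?_⟩
      by_cases u : P.Us f μ (P.e (P.anc r) 6) <;> rcases s with s | s | s <;>
        simp only [s.1, s.2, u] at e ⊢
      · exact ⟨by decide, by decide, (hl u).1, e.symm⟩
      · exact ⟨by decide, by decide, (hl u).2, e.symm⟩
      · exact ⟨by decide, by decide, u4, e.symm⟩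
      · exact ⟨by decide, by decide, u, e.symm⟩
      · exact ⟨by decide, by decide, u, e.symm⟩
      · exact ⟨by decide, by decide, u4, e.symm⟩
  refine ⟨fun z r l => ?_, fun z r z' r' l l' e => ?_⟩
  · rcases key z r l with ⟨a, b, -⟩ | ⟨a, k, b, d, p, -⟩
    · rw [rho, if_neg a]
      exact m.adj r b
    · rw [b, c.eq (c.c3 r a l.ne k), h.pie a, p]
      exact ⟨by simpa only [(h.b1 r a).1] using (h.b3 r a k (P.idx r)).2 d, rfl⟩
  · rcases key z r l with ⟨a, b, d⟩ | ⟨a, k, b, -, -, p, q⟩ <;>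
      rcases key z' r' l' with ⟨a', b', d'⟩ | ⟨a', k', b', -, -, p', q'⟩
    · rw [rho, rho, if_neg a, if_neg a'] at e
      rw [d, d', m.inj _ _ b b' e]
    · rw [b', rho, if_neg a] at e
      exact absurd ⟨r, b, e⟩ p'
    · rw [b, rho, if_neg a'] at e
      exact absurd ⟨r', b', e.symm⟩ p
    · rw [b, b'] at e
      have h1 := congrArg P.anc e
      have h2 := congrArg P.idx e
      rw [(h.b2 r a k).2.1, (h.b2 r' a' k').2.1] at h1
      rw [(h.b2 r a k).2.2, (h.b2 r' a' k').2.2] at h2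
      rw [q, q', h1, h2]

theorem OK.grd_ne (h : P.OK G) {z r t : V} (l : Lg G P.π false z r) (ht : P.Tg t) :
    P.grd z ≠ P.att t := by
  intro e
  have h1 := h.a1 t ht
  rcases h.a2 t ht r (e ▸ (h.a4 z r l).2.1) l.ne with rfl | rfl
  · simpa [h1.1] using l.2.2
  · obtain rfl := h.a3 t ht z l.1.symm (by simp [l.2.1])
    simpa [h1.2.1] using l.2.1

theorem pr_vac (h : P.OK G) (c : P.Cut G f) {g : V → Option Bool}
    (a : ∀ z r, Lg G g false z r → Lg G f false z r ∧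
      (Lg G P.π false z r → f (P.grd z) = some true → g (P.grd z) = some true)) :
    Pr G true (fun z _ => P.grd z) g := by
  have : Pr G true (fun z _ => P.grd z) f := by
    refine ⟨fun z r l => ⟨(h.a4 z r (c.lg l)).2.1, ?_⟩, fun z r z' r' l l' e => ?_⟩
    · obtain ⟨p, q, s, -⟩ := h.a4 z r (c.lg l)
      rw [← s]
      refine c.eq ?_
      rcases p with ⟨p, rfl⟩ | p
      · exact c.c2 z p (by simp [l.2.1]) l.ne
      · obtain ⟨x, y⟩ := h.same p l.1 (c.lg l).2.2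
        obtain ⟨x', y'⟩ := h.same x q.symm s
        rw [← (h.b1 _ x').1, y']
        exact c.c3 r x l.ne _
    · rw [← (h.a4 z r (c.lg l)).2.2.2, e, (h.a4 z' r' (c.lg l')).2.2.2]
  exact this.mono fun z r l => ⟨(a z r l).1, (a z r l).2 (c.lg (a z r l).1)⟩

end Pat

end Pool.Agent.P.MP_6e435d_co.Gr
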