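import Pool.Agent.P.MP_6e435d_co.Gr.Net

/-!
Left wins a network without a valid assignment.
-/

set_option autoImplicit false
set_option linter.dupNamespace false
set_option linter.unusedSectionVars false

namespace Pool.Agent.P.MP_6e435d_co.Gr

open Pool.Agent.P.MP_6e435d_co.G Function

variable {V : Type} [DecidableEq V] {G : SimpleGraph V}

theorem inv_win {b : Bool} (I : (V → Option Bool) → Prop)
    (hI : ∀ f, Fi f → I f → Res G f b true ∨ ∃ a c, Lg G f b a c ∧ ∀ u v,
      Lg G (mv f a c) (!b) u v → Res G (mv (mv f a c) u v) b true ∨ I (mv (mv f a c) u v))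
    {f : V → Option Bool} (hf : Fi f) (h : I f) : Res G f b true := by
  induction hn : {w | f w ≠ none}.ncard using Nat.strong_induction_on generalizing f with
  | _ n ih =>
    rcases hI f hf h with a | ⟨a, c, l, k⟩
    · exact a
    refine l.win (lose fun u v l' => ?_)
    rcases k u v l' with a | a
    · exact a
    · have h1 := l.lt hf
      have h2 := l'.lt (hf.mv l)
      exact ih _ (by omega) ((hf.mv l).mv l') a rfl

open Classical in
/-- Restriction of a position. -/
noncomputable def rs (R : Set V) (f : V → Option Bool) (v : V) : Option Bool :=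
  if v ∈ R then f v else none

theorem rs_mem {R : Set V} {f : V → Option Bool} {v : V} (h : v ∈ R) : rs R f v = f v := if_pos h

theorem rs_not {R : Set V} {f : V → Option Bool} {v : V} (h : v ∉ R) : rs R f v = none := if_neg h

theorem rs_ne {R : Set V} {f : V → Option Bool} {v : V} (h : rs R f v ≠ none) :
    v ∈ R ∧ rs R f v = f v := by
  by_cases a : v ∈ R
  · exact ⟨a, rs_mem a⟩
  · exact absurd (rs_not a) h

theorem rs_some {R : Set V} {f : V → Option Bool} {v : V} {b : Bool} (h : rs R f v = some b) :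
    v ∈ R ∧ f v = some b := by
  have := rs_ne (by simp [h] : rs R f v ≠ none)
  exact ⟨this.1, this.2 ▸ h⟩

theorem jn_rs {R F : Set V} {f : V → Option Bool}
    (h : ∀ u v, G.Adj u v → u ∈ R → v ∉ R → f u ≠ none → f v ≠ none → u ∈ F ∧ v ∈ F) :
    Jn G F f (rs R f) (rs Rᶜ f) := by
  refine ⟨fun v => ?_, fun u v a c d => h u v a (rs_ne c).1 (rs_ne d).1
    ((rs_ne c).2 ▸ c) ((rs_ne d).2 ▸ d)⟩
  by_cases a : v ∈ R
  · exact Or.inl ⟨rs_mem a, rs_not (not_not.2 a)⟩
  · exact Or.inr ⟨rs_mem a, rs_not a⟩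

namespace Pat

variable {P : Pat V} {f g : V → Option Bool} {U : Set V} {μ : V → V}

/-- States of the main line. -/
structure ML (P : Pat V) (G : SimpleGraph V) (f g : V → Option Bool) (U : Set V) (μ : V → V) :
    Prop where
  e1 : ∀ t ∈ U, g (P.att t) = none ∧ g (μ t) = none
  e2 : ∀ v, (∀ t ∈ U, v ≠ P.att t ∧ v ≠ μ t) → g v = f v
  act : ∀ t ∈ U, P.isT t ∧ P.Act f t
  adj : ∀ t ∈ U, G.Adj (μ t) t ∧ f (μ t) = some false
  inj : ∀ t ∈ U, ∀ s ∈ U, μ t = μ s → t = s
  ord : ∀ s, P.isT s → P.Act f s → s ∉ U → ¬ P.Good G s → ∀ t ∈ U, ¬ P.Good G t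

theorem ML.eq (m : ML P G f g U μ) {v : V} (a : g v ≠ none) : g v = f v :=
  m.e2 v fun t ht => ⟨fun e => a (e ▸ (m.e1 t ht).1), fun e => a (e ▸ (m.e1 t ht).2)⟩

theorem ML.pi (c : P.Cut G f) (m : ML P G f g U μ) {v : V} (a : g v ≠ none) : g v = P.π v := by
  rw [m.eq a, c.eq (m.eq a ▸ a)]

theorem ML.lg (m : ML P G f g U μ) {b : Bool} {u v : V} (l : Lg G g b u v) : Lg G f b u v :=
  ⟨l.1, by rw [← m.eq (by simp [l.2.1]), l.2.1], by rw [← m.eq l.ne, l.2.2]⟩

theorem ML.mu (c : P.Cut G f) (m : ML P G f g U μ) {t : V} (ht : t ∈ U) :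
    P.π (μ t) = some false := by
  rw [← c.eq (by simp [(m.adj t ht).2]), (m.adj t ht).2]

theorem ML.tg (h : P.OK G) (c : P.Cut G f) (m : ML P G f g U μ) {t : V} (a : P.Act f t)
    (hU : t ∉ U) : Lg G g true (P.att t) t := by
  have h1 := h.a1 t a.1
  refine ⟨h1.2.2.2.1.symm, ?_, ?_⟩
  · rw [m.e2, c.eq a.2.2, h1.2.1]
    refine fun s hs => ⟨fun e => ?_, fun e => ?_⟩
    · have h2 := h.a1 s (m.act s hs).2.1
      rcases h.a2 t a.1 s (e ▸ h2.2.2.2.1.symm) (by simp [h2.1]) with rfl | rfl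
      · exact hU hs
      · simpa [h2.1] using h1.2.2.1
    · simpa [← e, h1.2.1] using m.mu c hs
  · rw [m.e2, c.eq a.2.1, h1.1, Bool.not_true]
    refine fun s hs => ⟨fun e => ?_, fun e => ?_⟩
    · simpa [← e, h1.1] using (h.a1 s (m.act s hs).2.1).2.1
    · exact (h.a5 s _ (m.act s hs).2.1 (m.adj s hs).1.symm (m.mu c hs)).1 (e ▸ a.1)

theorem ML.grd (h : P.OK G) (m : ML P G f g U μ) {z r : V} (l : Lg G P.π false z r)
    (a : f (P.grd z) = some true) : g (P.grd z) = some true := by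
  rw [m.e2, a]
  exact fun t ht => ⟨h.grd_ne l (m.act t ht).2.1, fun e => by simpa [← e, a] using (m.adj t ht).2⟩

theorem ML.quiet (h : P.OK G) (c : P.Cut G f) (m : ML P G f g U μ) {g' : V → Option Bool}
    (a : ∀ z r, Lg G g' false z r → Lg G g false z r ∧
      (Lg G P.π false z r → g (P.grd z) = some true → g' (P.grd z) = some true)) :
    Pr G true (fun z _ => P.grd z) g' :=
  pr_vac h c fun z r l => ⟨m.lg (a z r l).1, fun x y => (a z r l).2 x (m.grd h x y)⟩

theorem lg_mv {a s z r : V} (l : Lg G g true a s) (k : Lg G (mv g a s) false z r) (hr : r ≠ s) :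
    Lg G g false z r ∧ z ≠ a ∧ r ≠ a ∧ z ≠ s := by
  obtain ⟨x, y, w⟩ := k
  have h1 : z ≠ s := by
    rintro rfl
    simp [mv_dst, l.2.1] at y
  have h2 : z ≠ a := by
    rintro rfl
    simp [mv_src g l.1.ne] at y
  have h3 : r ≠ a := by
    rintro rfl
    simp [mv_src g l.1.ne] at w
  rw [mv_of_ne h2 h1] at y
  rw [mv_of_ne h3 hr] at w
  exact ⟨⟨x, y, w⟩, h2, h3, h1⟩

theorem ML.blow (h : P.OK G) (c : P.Cut G f) (m : ML P G f g U μ) (hg : Fi g) {a s : V}
    (l : Lg G g true a s) (h1 : ∀ p, G.Adj s p → p ≠ a → g p ≠ some false)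
    (h2 : ∀ z r, Lg G g false z r → Lg G P.π false z r → z ≠ s → r ≠ a → P.grd z ≠ a) :
    Res G (mv g a s) false false := by
  refine (m.quiet h c fun z r k => ?_).res (hg.mv l)
  have hr : r ≠ s := by
    rintro rfl
    have h3 : z ≠ a := by
      rintro rfl
      simpa [mv_src g l.1.ne] using k.2.1
    exact h1 z k.1.symm h3 ((mv_of_ne h3 k.1.ne).symm.trans k.2.1)
  obtain ⟨p, -, q, w⟩ := lg_mv l k hr
  refine ⟨p, fun x y => ?_⟩
  rw [mv_of_ne (h2 z r p x w q), y]
  intro e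
  simpa [← e, y] using l.2.2

theorem ML.stt (h : P.OK G) (c : P.Cut G f) (m : ML P G f g U μ) {v : V} (hv : P.In v)
    (a : f v ≠ none) {k : Fin 9} (hk : k < 6 ∨ g (P.e (P.anc v) k) ≠ none) :
    g (P.e (P.anc v) k) = some (colr k) := by
  rcases hk with hk | hk
  · rw [m.e2, c.eq (c.c3 v hv a k), h.pie hv]
    refine fun t ht => ⟨fun e => (h.a1 t (m.act t ht).2.1).2.2.2.2.2.2.1 (e ▸ (h.b2 v hv k).1),
      fun e => ?_⟩
    have h1 := h.a1 t (m.act t ht).2.1
    have := h.b4 _ (h.b2 v hv k).1 t (e ▸ (m.adj t ht).1) (by simp [h1.1])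
    rw [(h.b2 v hv k).2.2] at this
    exact this.elim (fun x => h1.2.2.2.2.2.1 x.1) fun x => by omega
  · rw [m.pi c hk, h.pie hv]

theorem ML.raid (h : P.OK G) (c : P.Cut G f) (m : ML P G f g U μ) (hg : Fi g) {t q u v : V}
    (ht : P.Act f t) (hU : t ∉ U) (hq : G.Adj t q) (lq : P.Lf G q) (gq : g q ≠ none)
    (k : Lg G (mv g (P.att t) t) false u v) (hv : v ≠ t) :
    Res G (mv (mv g (P.att t) t) u v) true true := by
  have l := m.tg h c ht hU
  obtain ⟨k1, n1, n2, n3⟩ := lg_mv l k hv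
  have k2 := c.lg (m.lg k1)
  have h1 := h.a1 t ht.1
  have h4 := h.a4 u v k2
  have q0 : g q = some false := by rw [m.pi c gq, lq.1]
  have q1 : q ≠ u := by
    rintro rfl
    exact (lq.2.2.2.2.2 v k.1).1 k2.2.2
  have q2 : q ≠ v := by
    rintro rfl
    simpa [q0] using k1.2.2
  have q3 : q ≠ P.att t := by
    rintro rfl
    simpa [q0] using l.2.1
  have l2 : Lg G (mv (mv g (P.att t) t) u v) true t q :=
    ⟨hq, by rw [mv_of_ne n3.symm hv.symm, mv_dst, l.2.1],
      by rw [mv_of_ne q1 q2, mv_of_ne q3 hq.ne', q0, Bool.not_true]⟩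
  refine l2.win ?_
  generalize e : mv (mv (mv g (P.att t) t) u v) t q = g2
  have f2 : Fi g2 := e ▸ ((hg.mv l).mv k).mv l2
  have eq : g2 q = some true := by rw [← e, mv_dst, l2.2.1]
  have ev : g2 v = some false := by rw [← e, mv_of_ne hv q2.symm, mv_dst, k.2.1]
  have eu : g2 u = none := by rw [← e, mv_of_ne n3 q1.symm, mv_src _ k.1.ne]
  have et : g2 t = none := by rw [← e, mv_src _ hq.ne]
  have ea : g2 (P.att t) = none := by
    rw [← e, mv_of_ne l.1.ne q3.symm, mv_of_ne n1.symm n2.symm, mv_src _ l.1.ne]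
  have eo : ∀ w, w ≠ q → w ≠ v → w ≠ u → w ≠ t → w ≠ P.att t → g2 w = g w := fun w a b d x y => by
    rw [← e, mv_of_ne x a, mv_of_ne d b, mv_of_ne y x]
  have eo' : ∀ w, w ≠ q → w ≠ v → g2 w ≠ none → g2 w = g w := fun w a b d =>
    eo w a b (fun x => d (x ▸ eu)) (fun x => d (x ▸ et)) fun x => d (x ▸ ea)
  have en : ∀ w, g2 w ≠ none → P.π w ≠ none := fun w a => by
    have := mv_ne l.ne (mv_ne k.ne (mv_ne l2.ne (e ▸ a)))
    exact m.pi c this ▸ this
  have eb : ∀ w, w ≠ q → g2 w = some true → P.π w = some true := fun w a b => by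
    have d : w ≠ v := fun x => by simp [x, ev] at b
    have x := eo' w a d (by simp [b])
    rw [← m.pi c (by simp [← x, b]), ← x, b]
  let F : Set V := {w | (P.In w ∧ 6 ≤ P.idx w) ∨ P.isT w}
  have hF : ∀ w ∈ F, P.π w = some false := by
    rintro w (⟨a, b⟩ | a)
    · rw [(h.b1 w a).2, colr]
      simp only [Option.some.injEq, decide_eq_false_iff_not]
      omega
    · exact (h.a1 w (Or.inl a)).1
  have qF : q ∉ F := fun a => a.elim (fun b => lq.2.1 b.1) fun b =>
    (h.a5 t q ht.1 hq lq.1).1 (Or.inl b)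
  have lq' : P.lf q ≠ q := lq.2.2.1.ne'
  have rest : ∀ R : Set V, v ∈ R → q ∉ R → P.lf q ∉ R →
      (∀ z r, Lg G P.π false z r → r ∉ R → P.grd z ∉ R) →
      Star G true (fun z _ => P.grd z) F q (P.lf q) (rs Rᶜ g2) := by
    intro R r1 r2 r3 r4
    have p1 : ∀ w, G.Adj (P.lf q) w → P.π w ≠ some true := fun w a b => by
      rw [lq.2.2.2.2.1 w a (by simp [b]), lq.1] at b
      simp at b
    refine ⟨⟨lq.2.2.1, by rw [rs_mem r2, eq], ?_⟩, fun w a b => ?_, fun w a b => ?_,
      m.quiet h c fun z r k => ?_, fun w a b => ?_, ?_⟩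
    · rw [rs_mem r3, eo _ lq' (fun x => r3 (x ▸ r1)) (fun x => p1 v (x ▸ k.1) k2.2.2)
        (fun x => p1 _ (x ▸ h1.2.2.2.1) h1.2.1) (fun x => by simpa [x, h1.2.1] using lq.2.2.2.1),
        m.e2, c.eq (c.c4 q lq (m.eq gq ▸ gq)), lq.2.2.2.1, Bool.not_true]
      refine fun s hs => ⟨fun x => ?_, fun x => ?_⟩
      · simpa [x, (h.a1 s (m.act s hs).2.1).2.1] using lq.2.2.2.1
      · have := lq.2.2.2.2.1 s (x ▸ (m.adj s hs).1) (by simp [(h.a1 s (m.act s hs).2.1).1])
        exact (h.a5 t q ht.1 hq lq.1).1 (this ▸ (m.act s hs).2.1)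
    · exact lq.2.2.2.2.1 w a (en w ((rs_ne b).2 ▸ b))
    · exact (lq.2.2.2.2.2 w a).1 (eb w a.ne' (rs_some b).2)
    · obtain ⟨x, y, w⟩ := k
      have z1 : z ≠ q := fun a => by simp [a] at y
      have z2 : r ≠ q := fun a => by simp [a] at w
      rw [update_of_ne z1] at y
      rw [update_of_ne z2] at w
      obtain ⟨y1, y⟩ := rs_some y
      obtain ⟨w1, w⟩ := rs_some w
      refine ⟨⟨x, ?_, ?_⟩, fun a b => ?_⟩
      · rw [← eo' z z1 (fun d => y1 (d ▸ r1)) (by simp [y]), y]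
      · rw [← eo' r z2 (fun d => w1 (d ▸ r1)) (by simp [w]), w]
      · have d1 : P.grd z ≠ q := fun d => by simp [d, q0] at b
        have d2 := r4 z r a w1
        rw [update_of_ne d1, rs_mem d2, eo _ d1 (fun d => d2 (d ▸ r1))
          (fun d => by simpa [← d, b] using k1.2.1) (fun d => by simpa [← d, b] using l.2.2)
          (h.grd_ne a ht.1), b]
    · simpa [hF w a] using eb w (fun d => qF (d ▸ a)) (rs_some b).2
    · rintro (a | a)
      · exact (lq.2.2.2.2.2 _ lq.2.2.1).2 a.1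
      · exact p1 _ (h.a1 _ (Or.inl a)).2.2.2.1 (h.a1 _ (Or.inl a)).2.1
  rcases h4.1 with ⟨tu, rfl⟩ | iu
  · have h5 := h.a1 u tu
    have g0 : g (P.grd u) = some true := by
      refine m.grd h k2 ?_
      rw [c.eq (c.c2 u tu (by simp [(m.lg k1).2.1]) (m.lg k1).ne), h5.2.2.1]
    have g1 : g2 (P.grd u) = some true := by
      rw [eo _ (fun d => by rw [d, q0] at g0; simp at g0) h5.2.2.2.2.1.ne
        (fun d => by rw [d, k1.2.1] at g0; simp at g0)
        (fun d => by simpa [← d, g0] using l.2.2) (h.grd_ne k2 ht.1), g0]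
    have s1 : P.att u ∈ ({P.att u, P.grd u} : Set V) := Or.inl rfl
    have s2 : P.grd u ∈ ({P.att u, P.grd u} : Set V) := Or.inr rfl
    have s3 : ∀ w, P.π w = some false → w ∉ ({P.att u, P.grd u} : Set V) := by
      rintro w a (rfl | rfl)
      · simp [h5.2.1] at a
      · simp [h5.2.2.1] at a
    refine two (loc_pr true (fun z _ => z) F (P.grd u) (P.att u))
      (loc_pr true (fun z _ => P.grd z) F q (P.lf q)) f2
      (jn_rs (R := {P.att u, P.grd u}) fun x y a b d p s => ?_) (Or.inr ⟨⟨⟨h5.2.2.2.2.1,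
        by rw [rs_mem s2, g1], by rw [rs_mem s1, ev, Bool.not_true]⟩, fun w a b => ?_,
        fun w a b => ?_, ?_, fun w a b => ?_, fun a => s3 _ (hF _ a) s1⟩,
        rest _ s1 (s3 _ lq.1) (s3 _ lq.2.2.2.1) fun z r a b d => ?_⟩)
    · exfalso
      rcases b with rfl | rfl
      · rcases h.a2 u tu y a (en y s) with rfl | rfl
        exacts [s eu, d s2]
      · exact d (Or.inl (h.a3 u tu y a (en y s)))
    · exact (rs_ne b).1.resolve_left a.ne'
    · obtain ⟨rfl | rfl, d⟩ := rs_some b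
      · simp [ev] at d
      · exact a.ne rfl
    · have : ∀ z r, ¬ Lg G (update (rs {P.att u, P.grd u} g2) (P.grd u) none) (!true) z r := by
        rintro z r ⟨-, -, a⟩
        have b : r ≠ P.grd u := fun d => by simp [d] at a
        rw [update_of_ne b] at a
        obtain ⟨rfl | rfl, d⟩ := rs_some a
        · simp [ev] at d
        · exact b rfl
      exact ⟨fun z r a => absurd a (this z r), fun z r _ _ a => absurd a (this z r)⟩
    · exact s3 w (hF w a) (rs_some b).1
    · rcases d with d | d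
      · exact h.grd_ne a tu d
      · exact b (Or.inl (h.a3 u tu r (d ▸ (h.a4 z r a).2.1) a.ne))
  · obtain ⟨iv, av, -⟩ := h.thr iu k2
    have fu : f u ≠ none := by simp [(m.lg k1).2.1]
    have hi : Injective (P.e (P.anc u)) := fun x y a => by
      rw [← (h.b2 u iu x).2.2, a, (h.b2 u iu y).2.2]
    have s1 : ∀ w, w ∈ Set.range (P.e (P.anc u)) ↔ P.In w ∧ P.anc w = P.anc u := fun w =>
      ⟨fun ⟨x, a⟩ => a ▸ ⟨(h.b2 u iu x).1, (h.b2 u iu x).2.1⟩, fun a =>
        ⟨_, a.2 ▸ (h.b1 w a.1).1⟩⟩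
    refine two (loc_lam hi (h.b3 u iu) fun x a => ?_)
      (loc_pr true (fun z _ => P.grd z) F q (P.lf q)) f2
      (jn_rs (R := Set.range (P.e (P.anc u))) fun x y a b d p s => ?_)
      (Or.inr ⟨⟨fun w a => (rs_ne a).1, 5, ?_⟩, rest _ ((s1 v).2 ⟨iv, av⟩)
        (fun a => lq.2.1 ((s1 _).1 a).1) (fun a => (lq.2.2.2.2.2 _ lq.2.2.1).2 ((s1 _).1 a).1)
        fun z r a b d => ?_⟩)
    · rcases a with a | a
      · exact (h.b2 u iu x).2.2 ▸ a.2
      · exact absurd (h.b2 u iu x).1 (h.a1 _ (Or.inl a)).2.2.2.2.2.1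
    · obtain ⟨b1, b2⟩ := (s1 x).1 b
      rcases h.b4 x b1 y a (en y s) with w | w
      · exact absurd ((s1 y).2 ⟨w.1, w.2.trans b2⟩) d
      · exact ⟨Or.inl ⟨b1, w.1⟩, Or.inr w.2.2⟩
    · have e1 : g ∘ P.e (P.anc u) = Gr.stt (decide (g (P.e (P.anc u) 6) = none))
          (decide (g (P.e (P.anc u) 7) = none)) (decide (g (P.e (P.anc u) 8) = none)) := by
        funext x
        simp only [comp, Gr.stt, decide_eq_true_eq]
        split_ifs with a
        · rcases a with ⟨rfl, a⟩ | ⟨rfl, a⟩ | ⟨rfl, a⟩ <;> exact a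
        · refine m.stt h c iu fu ?_
          by_contra b
          rw [not_or, not_not] at b
          have : x = 6 ∨ x = 7 ∨ x = 8 := by omega
          rcases this with rfl | rfl | rfl <;> simp [b.2] at a
      have eu' := (h.b1 u iu).1
      have ev' := (h.b1 v iv).1
      rw [av] at ev'
      have e2 : rs (Set.range (P.e (P.anc u))) g2 ∘ P.e (P.anc u) =
          mv (g ∘ P.e (P.anc u)) (P.idx u) (P.idx v) := by
        rw [mv_comp hi, eu', ev']
        funext x
        have i := (h.b2 u iu x).1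
        simp only [comp]
        rw [rs_mem (Set.mem_range_self x), mv_apply]
        split_ifs with a b
        · rw [a, ev, k1.2.1]
        · rw [b, eu]
        · exact eo _ (fun d => lq.2.1 (d ▸ i)) a b (fun d => h1.2.2.2.2.2.1 (d ▸ i))
            fun d => h1.2.2.2.2.2.2.1 (d ▸ i)
      rw [e2, e1]
      refine hf_stt _ _ _ (P.idx u, P.idx v) ((h.b3 u iu _ _).1 (by rw [eu', ev']; exact k.1)) ?_
      rw [← e1]
      simp [lgB, eu', ev', k1.2.1, k1.2.2]
    · obtain ⟨d1, d2⟩ := (s1 _).1 d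
      obtain ⟨x, y⟩ := h.same d1 (h.a4 z r a).2.1 a.2.2
      exact b ((s1 r).2 ⟨x, y.trans d2⟩)

theorem left (h : P.OK G) (c : P.Cut G f) (hn : ∀ μ, ¬ P.Valid G f μ) : Res G f true true := by
  classical
  refine inv_win (fun g => ∃ U μ, ML P G f g U μ) ?_ c.fi ⟨∅, id, by simp, by simp, by simp,
    by simp, by simp, by simp⟩
  rintro g hg ⟨U, μ, m⟩
  have bl : ∀ t, P.Act f t → t ∉ U → (∀ p, G.Adj t p → g p ≠ some false) →
      Res G (mv g (P.att t) t) false false := fun t a b d =>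
    m.blow h c hg (m.tg h c a b) (fun p x _ => d p x) fun z r _ x _ _ => h.grd_ne x a.1
  by_cases hA : ∃ t, P.isT t ∧ P.Act f t ∧ t ∉ U
  · obtain ⟨t, t1, t2, t3, t4⟩ : ∃ t, P.isT t ∧ P.Act f t ∧ t ∉ U ∧
        ((∃ s, P.isT s ∧ P.Act f s ∧ s ∉ U ∧ ¬ P.Good G s) → ¬ P.Good G t) := by
      by_cases a : ∃ s, P.isT s ∧ P.Act f s ∧ s ∉ U ∧ ¬ P.Good G s
      · obtain ⟨s, s1, s2, s3, s4⟩ := a
        exact ⟨s, s1, s2, s3, fun _ => s4⟩
      · obtain ⟨s, s1, s2, s3⟩ := hA
        exact ⟨s, s1, s2, s3, fun b => absurd b a⟩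
    have l := m.tg h c t2 t3
    refine Or.inr ⟨_, _, l, fun u v k => ?_⟩
    by_cases hv : v = t
    · subst hv
      have n1 : u ≠ P.att v := by
        rintro rfl
        simpa [mv_src g l.1.ne] using k.2.1
      have gu : g u = some false := (mv_of_ne n1 k.1.ne).symm.trans k.2.1
      have e := mv_mv (b := false) l k.1 gu
      have hu : ∀ s ∈ U, update μ v u s = μ s := fun s hs =>
        update_of_ne (fun a : s = v => t3 (a ▸ hs)) _ _
      refine Or.inr ⟨insert v U, update μ v u, ?_, fun w a => ?_, ?_, ?_, ?_, ?_⟩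
      · rintro s (rfl | hs)
        · simp [e]
        · simp [e, hu s hs, m.e1 s hs]
      · have := a v (Or.inl rfl)
        rw [update_self] at this
        rw [e, if_neg (by simp [this]), m.e2 w fun s hs => hu s hs ▸ a s (Or.inr hs)]
      · rintro s (rfl | hs)
        exacts [⟨t1, t2⟩, m.act s hs]
      · rintro s (rfl | hs)
        · rw [update_self]
          exact ⟨k.1, by rw [← m.eq (by simp [gu]), gu]⟩
        · rw [hu s hs]
          exact m.adj s hs
      · rintro s (rfl | hs) s' (rfl | hs') a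
        · rfl
        · rw [update_self, hu s' hs'] at a
          simp [a, (m.e1 s' hs').2] at gu
        · rw [update_self, hu s hs] at a
          simp [← a, (m.e1 s hs).2] at gu
        · rw [hu s hs, hu s' hs'] at a
          exact m.inj s hs s' hs' a
      · rintro s s1 s2 s3 s4 s' (rfl | hs')
        · exact t4 ⟨s, s1, s2, fun a => s3 (Or.inr a), s4⟩
        · exact m.ord s s1 s2 (fun a => s3 (Or.inr a)) s4 s' hs'
    · left
      by_cases hp : ∃ p, G.Adj t p ∧ g p = some false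
      · obtain ⟨p, p1, p2⟩ := hp
        by_cases gd : P.Good G t
        · exact m.raid h c hg t2 t3 p1 (gd p p1 (by rw [← m.pi c (by simp [p2]), p2]))
            (by simp [p2]) k hv
        · obtain ⟨q1, q2, q3⟩ := (h.a6 t t1).resolve_left gd
          refine m.raid h c hg t2 t3 q1 q2 ?_ k hv
          rw [m.e2]
          · exact c.c5 t t1 gd t2.2.1
          refine fun s hs => ⟨fun a => ?_, fun a => ?_⟩
          · simpa [a, (h.a1 s (m.act s hs).2.1).2.1] using q2.1
          · rcases q3 s (a ▸ (m.adj s hs).1) (m.act s hs).1 with rfl | b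
            · exact t3 hs
            · exact m.ord t t1 t2 t3 gd s hs b
      · exact lose_inv (b := true) (bl t t2 t3 fun p a b => hp ⟨p, a, b⟩) k
  left
  have hU : ∀ t, P.Act f t → t ∉ U → P.isJ t := fun t a b =>
    a.1.resolve_left fun d => hA ⟨t, d, a, b⟩
  by_cases hB : ∃ t, P.Act f t ∧ t ∉ U ∧ ∀ p, G.Adj t p → g p ≠ some false
  · obtain ⟨t, a, b, d⟩ := hB
    exact (m.tg h c a b).win (bl t a b d)
  have hB' : ∀ t, ∃ p, P.Act f t → t ∉ U → G.Adj t p ∧ g p = some false := fun t => by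
    by_contra a
    push Not at a
    exact hB ⟨t, (a t).1, (a t).2.1, fun p x => (a p).2.2 x⟩
  choose ν hν using hB'
  by_contra hw
  have nu : ∀ t, P.Act f t → t ∉ U → P.π (ν t) = some false := fun t a b => by
    rw [← m.pi c (by simp [(hν t a b).2]), (hν t a b).2]
  refine hn (fun t => if t ∈ U then μ t else ν t) ⟨fun t a => ?_, fun t s a b d => ?_,
    fun v iv fv u6 => ?_⟩
  · split_ifs with b
    · exact m.adj t b
    · exact ⟨(hν t a b).1.symm, by rw [← m.eq (by simp [(hν t a b).2]), (hν t a b).2]⟩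
  · split_ifs at d with x y y
    · exact m.inj t x s y d
    · simpa [← d, (m.e1 t x).2] using (hν s b y).2
    · simpa [d, (m.e1 s y).2] using (hν t a x).2
    · exact (((h.a5 t _ a.1 (hν t a x).1 (nu t a x)).2 (hU t a x)).2 s
        (d ▸ (hν s b y).1.symm) (hU s b y)).symm
  · have us : ∀ k, P.Us f (fun t => if t ∈ U then μ t else ν t) (P.e (P.anc v) k) →
        g (P.e (P.anc v) k) = none := by
      rintro k ⟨t, a, b⟩
      dsimp only at b
      split_ifs at b with x
      · exact b ▸ (m.e1 t x).2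
      · exact absurd (h.b2 v iv k).1
          (b ▸ ((h.a5 t _ a.1 (hν t a x).1 (nu t a x)).2 (hU t a x)).1)
    have nb : ∀ (k : Fin 9) p, k < 6 → G.Adj (P.e (P.anc v) k) p → g p ≠ none →
        ∃ l, (k, l) ∈ EL ∧ p = P.e (P.anc v) l := fun k p a b d => by
      have := h.b4 _ (h.b2 v iv k).1 p b (m.pi c d ▸ d)
      rw [(h.b2 v iv k).2.2, (h.b2 v iv k).2.1] at this
      obtain ⟨x, y⟩ := this.resolve_right fun x => by omega
      have z := (h.b1 p x).1
      rw [y] at z
      exact ⟨_, (h.b3 v iv _ _).1 (z.symm ▸ b), z.symm⟩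
    have fin : ∀ s o : Fin 9, (0, s) ∈ EL → s < 6 → colr s = false →
        (∀ l, (s, l) ∈ EL → l = 0 ∨ l = 6 ∨ l = o) → g (P.e (P.anc v) o) ≠ none := by
      intro s o s1 s2 s3 s4 s5
      have l : Lg G g true (P.e (P.anc v) 0) (P.e (P.anc v) s) :=
        ⟨(h.b3 v iv _ _).2 s1, m.stt h c iv fv (Or.inl (by decide)),
          by rw [m.stt h c iv fv (Or.inl s2), s3, Bool.not_true]⟩
      refine hw (l.win (m.blow h c hg l (fun p a b d => ?_) fun z r a b d x y => ?_))
      · obtain ⟨k, k1, rfl⟩ := nb s p s2 a (by simp [d])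
        rcases s4 k k1 with rfl | rfl | rfl
        · exact b rfl
        · simp [us 6 u6] at d
        · simp [s5] at d
      · have i0 := h.b2 v iv 0
        obtain ⟨r1, r2⟩ := h.same i0.1 (y ▸ (h.a4 z r b).2.1) b.2.2
        have iz : P.In z := by
          refine (h.a4 z r b).1.resolve_left fun w => ?_
          exact (h.a1 z w.1).2.2.2.2.2.2.1 (w.2 ▸ r1)
        obtain ⟨-, z1, z2⟩ := h.thr iz b
        rw [i0.2.1] at r2
        have z3 : P.idx r ≠ 0 := fun w => x (by rw [← (h.b1 r r1).1, r2, w])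
        have z4 := h.b5 z iz (by tauto)
        have := congrArg P.idx (y.symm.trans z4)
        rw [i0.2.2, (h.b2 z iz 3).2.2] at this
        exact absurd this (by decide)
    exact ⟨fun a => fin 4 7 (by decide) (by decide) (by decide) (by decide) (us 7 a),
      fun a => fin 5 8 (by decide) (by decide) (by decide) (by decide) (us 8 a)⟩

end Pat

end Pool.Agent.P.MP_6e435d_co.Gr
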