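import Pool.Agent.P.MP_6e435d_co.G.Hard

/-!
A positional game attached to a quantified formula.
-/

set_option autoImplicit false
set_option linter.dupNamespace false

namespace Pool.Agent.P.MP_6e435d_co.Gr

open Pool.Agent.P.MP_6e435d_co.G Function Finset

/-- Left wins the positional game on `R` rows, never taking the last row. -/
inductive MW (R : ℕ) (W : Finset ℕ → Prop) : Finset ℕ → Finset ℕ → Prop
  | base (X Y : Finset ℕ) : W X → MW R W X Y
  | step (X Y : Finset ℕ) (i : ℕ) : i + 1 < R → i ∉ X → i ∉ Y →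
      (∀ j < R, j ≠ i → j ∉ X → j ∉ Y → MW R W (insert i X) (insert j Y)) → MW R W X Y

/-- An invariant for Right. -/
structure BI (R : ℕ) (W : Finset ℕ → Prop) (I : Finset ℕ → Finset ℕ → Prop) : Prop where
  out : ∀ X Y, I X Y → Disjoint X Y → ¬ W X
  mono : ∀ X Y j, I X Y → I X (insert j Y)
  step : ∀ X Y i, I X Y → i ∉ Y → I (insert i X) Y ∨
    ∃ j, j + 1 < R ∧ j ≠ i ∧ j ∉ X ∧ j ∉ Y ∧ I (insert i X) (insert j Y)

variable (F : Fm)

/-- Row `i` belongs to column `c`. -/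
def tap (i c : ℕ) : Prop :=
  i < 4 * F.n ∧ ((i % 4 = 0 ∧ (c % 4 = 3 ∨ i / 4 < c / 4)) ∨
    (c % 4 = 3 ∧ (i % 4 = 1 ∨ i % 4 = 2) ∧ F.ng (c / 4) (i / 4) (i % 4 - 1)) ∨
    (c % 4 = 0 ∧ i / 4 = c / 4 ∧ (i % 4 = 1 ∨ i % 4 = 2 ∨ (i % 4 = 0 ∧ ¬ F.own (c / 4)))) ∨
    (c % 4 ≠ 0 ∧ c % 4 ≠ 3 ∧ i / 4 = c / 4 ∧ (i % 4 = 0 ∨ i % 4 = c % 4 ∨ i % 4 = 3)))

/-- Some column is fully claimed. -/
def Win (X : Finset ℕ) : Prop := ∃ c < 4 * F.n, ∀ i, tap F i c → i ∈ X

variable {F} {X Y : Finset ℕ}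

theorem threat {c i : ℕ} (hc : c < 4 * F.n) (hi : i < 4 * F.n) (hX : i ∉ X) (hY : i ∉ Y)
    (h : ∀ e, tap F e c → e = i ∨ e ∈ X) : MW (4 * F.n + 2) (Win F) X Y :=
  MW.step _ _ i (by omega) hX hY fun _ _ _ _ _ => MW.base _ _ ⟨c, hc, fun e a => mem_insert.2 (h e a)⟩

theorem force {c i j : ℕ} (hc : c < 4 * F.n) (hi : i < 4 * F.n) (hj : j < 4 * F.n) (n : j ≠ i)
    (hX : i ∉ X) (hY : i ∉ Y) (jX : j ∉ X) (jY : j ∉ Y)
    (h : ∀ e, tap F e c → e = j ∨ e = i ∨ e ∈ X)
    (k : MW (4 * F.n + 2) (Win F) (insert i X) (insert j Y)) : MW (4 * F.n + 2) (Win F) X Y := by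
  refine MW.step _ _ i (by omega) hX hY fun l _ _ _ _ => ?_
  by_cases e : l = j
  · exact e ▸ k
  · exact threat hc hj (by simp [n, jX]) (by simp [Ne.symm e, jY]) fun e a => by
      simpa using h e a

theorem tap_e1 {b e : ℕ} (h : tap F e (4 * b)) (p : ∀ i < b, 4 * i ∈ X) :
    e = 4 * b + 1 ∨ e = 4 * b + 2 ∨ (e = 4 * b ∧ ¬ F.own b) ∨ e ∈ X := by
  obtain ⟨-, ⟨a, c⟩ | ⟨a, -⟩ | ⟨-, a, c⟩ | ⟨a, -⟩⟩ := h
  · have := p (e / 4) (by omega)
    rw [show 4 * (e / 4) = e by omega] at this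
    tauto
  · omega
  · rw [show 4 * b / 4 = b by omega] at c
    rcases c with c | c | c
    · omega
    · omega
    · exact Or.inr (Or.inr (Or.inl ⟨by omega, c.2⟩))
  · omega

theorem tap_e2 {b r e : ℕ} (hr : r < 2) (h : tap F e (4 * b + 1 + r)) (p : ∀ i < b, 4 * i ∈ X) :
    e = 4 * b ∨ e = 4 * b + 1 + r ∨ e = 4 * b + 3 ∨ e ∈ X := by
  obtain ⟨-, ⟨a, c⟩ | ⟨a, -⟩ | ⟨a, -⟩ | ⟨-, -, a, c⟩⟩ := h
  · have := p (e / 4) (by omega)
    rw [show 4 * (e / 4) = e by omega] at this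
    tauto
  all_goals omega

theorem mw_aux (m : ℕ) : ∀ (b : ℕ) (z : ℕ → ℕ) (X Y : Finset ℕ), b + m = F.n → (∀ i, z i < 2) →
    (∀ i < b, 4 * i ∈ X ∧ 4 * i + 1 + z i ∈ X) →
    (∀ e, 4 * b ≤ e → e < 4 * F.n → e ∉ X ∧ e ∉ Y) → ¬ F.QB m b z →
    MW (4 * F.n + 2) (Win F) X Y := by
  induction m with
  | zero =>
    intro b z X Y hb hz h1 _ h3
    obtain rfl : b = F.n := by omega
    simp only [Fm.QB, not_forall] at h3
    obtain ⟨k, hk, h3⟩ := h3
    refine MW.base _ _ ⟨4 * k + 3, by omega, fun e a => ?_⟩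
    obtain ⟨a0, ⟨a, -⟩ | ⟨-, a, c⟩ | ⟨a, -⟩ | ⟨-, a, -⟩⟩ := a
    · have := (h1 (e / 4) (by omega)).1
      rwa [show 4 * (e / 4) = e by omega] at this
    · rw [show (4 * k + 3) / 4 = k by omega] at c
      have d : e % 4 - 1 = z (e / 4) := by
        by_contra d
        exact h3 ⟨e / 4, by omega, _, by omega, c, d⟩
      have := (h1 (e / 4) (by omega)).2
      rwa [show 4 * (e / 4) + 1 + z (e / 4) = e by omega] at this
    · omega
    · omega
  | succ m ih =>
    intro b z X Y hb hz h1 h2 h3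
    have p : ∀ i < b, 4 * i ∈ X := fun i hi => (h1 i hi).1
    have nx : ∀ r < 2, ¬ F.QB m (b + 1) (update z b r) → ∀ X' Y' : Finset ℕ, X ⊆ X' →
        4 * b ∈ X' → 4 * b + 1 + r ∈ X' → (∀ e ∈ X', e ∈ X ∨ e < 4 * b + 4) →
        (∀ e ∈ Y', e ∈ Y ∨ e < 4 * b + 4) → MW (4 * F.n + 2) (Win F) X' Y' := by
      intro r hr q X' Y' a1 a2 a3 a4 a5
      refine ih (b + 1) _ X' Y' (by omega) (Fm.lt_update hz b hr) (fun i hi => ?_)
        (fun e c d => ⟨fun g => ?_, fun g => ?_⟩) q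
      · by_cases e : i = b
        · rw [e, update_self]
          exact ⟨a2, a3⟩
        · rw [update_of_ne e]
          exact ⟨a1 (h1 i (by omega)).1, a1 (h1 i (by omega)).2⟩
      · exact (a4 e g).elim (h2 e (by omega) d).1 (by omega)
      · exact (a5 e g).elim (h2 e (by omega) d).2 (by omega)
    have f0 := h2 (4 * b) (by omega) (by omega)
    have f3 := h2 (4 * b + 3) (by omega) (by omega)
    have fr := fun r (hr : r < 2) => h2 (4 * b + 1 + r) (by omega) (by omega)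
    have sb : ∀ x y : ℕ, X ⊆ insert x (insert y X) := fun _ _ _ a => by simp [a]
    by_cases o : F.own b
    · simp only [Fm.QB, o, true_implies, not_true_eq_false, false_implies, and_true,
        not_forall] at h3
      obtain ⟨r, hr, q⟩ := h3
      refine force (c := 4 * b) (i := 4 * b + 1 + r) (j := 4 * b + 1 + (1 - r)) (by omega)
        (by omega) (by omega) (by omega) (fr r hr).1 (fr r hr).2 (fr _ (by omega)).1
        (fr _ (by omega)).2 (fun e a => ?_) ?_
      · rcases tap_e1 a p with a | a | a | a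
        · omega
        · omega
        · exact absurd o a.2
        · tauto
      refine force (c := 4 * b + 1 + r) (i := 4 * b) (j := 4 * b + 3) (by omega) (by omega)
        (by omega) (by omega) (by simp [f0]; omega) (by simp [f0]; omega) (by simp [f3]; omega)
        (by simp [f3]; omega) (fun e a => ?_) (nx r hr q _ _ (sb _ _) (by simp) (by simp)
          (fun e a => ?_) fun e a => ?_)
      · have := tap_e2 hr a p
        simp only [mem_insert]
        tauto
      all_goals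
        simp only [mem_insert] at a
        rcases a with a | a | a
        exacts [Or.inr (by omega), Or.inr (by omega), Or.inl a]
    · simp only [Fm.QB, o, false_implies, not_false_eq_true, true_implies, true_and, not_exists,
        not_and] at h3
      refine MW.step _ _ (4 * b) (by omega) f0.1 f0.2 fun j _ j1 j2 j3 => ?_
      have fin : ∀ r < 2, j < 4 * b + 4 → ∀ l, l < 4 * b + 4 → MW (4 * F.n + 2) (Win F)
          (insert (4 * b + 1 + r) (insert (4 * b) X)) (insert l (insert j Y)) := by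
        intro r hr a l c
        refine nx r hr (h3 r hr) _ _ (sb _ _) (by simp) (by simp) (fun e a => ?_) fun e a => ?_
        all_goals
          simp only [mem_insert] at a
          rcases a with a | a | a
          exacts [Or.inr (by omega), Or.inr (by omega), Or.inl a]
      have e2 : ∀ r < 2, ∀ e, tap F e (4 * b + 1 + r) →
          e = 4 * b + 3 ∨ e = 4 * b + 1 + r ∨ e ∈ insert (4 * b) X := fun r hr e a => by
        have := tap_e2 hr a p
        simp only [mem_insert]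
        tauto
      have e1 : ∀ e, tap F e (4 * b) →
          e = 4 * b + 1 + 1 ∨ e = 4 * b + 1 + 0 ∨ e ∈ insert (4 * b) X := fun e a => by
        have := tap_e1 a p
        simp only [mem_insert]
        tauto
      have g0 := fr 0 (by omega)
      have g1 := fr 1 (by omega)
      by_cases c1 : j = 4 * b + 1 ∨ j = 4 * b + 2
      · obtain ⟨r, hr, c⟩ : ∃ r < 2, j = 4 * b + 1 + (1 - r) := ⟨4 * b + 2 - j, by omega, by omega⟩
        exact force (c := 4 * b + 1 + r) (by omega) (by omega) (by omega) (by omega)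
          (by simp [fr r hr]; omega) (by simp [fr r hr]; omega) (by simp [f3])
          (by simp [f3]; omega) (e2 r hr) (fin r hr (by omega) _ (by omega))
      by_cases c2 : j = 4 * b + 3
      · exact force (c := 4 * b) (by omega) (by omega) (by omega) (by omega)
          (by simp [g0]) (by simp [g0]; omega) (by simp [g1]; omega)
          (by simp [g1]; omega) e1 (fin 0 (by omega) (by omega) _ (by omega))
      · refine force (c := 4 * b) (by omega) (by omega) (by omega) (by omega)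
          (by simp [g0]) (by simp [g0]; omega) (by simp [g1]; omega)
          (by simp [g1]; omega) e1 (threat (c := 4 * b + 1 + 0) (i := 4 * b + 3) (by omega)
            (by omega) (by simp [f3]) (by simp [f3]; omega) fun e a => ?_)
        have := e2 0 (by omega) e a
        simp only [mem_insert] at this ⊢
        tauto

theorem mw_of (h : ¬ F.QB F.n 0 fun _ => 0) : MW (4 * F.n + 2) (Win F) ∅ ∅ :=
  mw_aux F.n 0 _ ∅ ∅ (by simp) (by simp) (by simp) (by simp) h

/-- A set that Right has entered or can still enter. -/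
def Safe (X Y : Finset ℕ) (S : ℕ → Prop) : Prop :=
  (∃ e, S e ∧ e ∈ Y) ∨ ∃ e e', S e ∧ S e' ∧ e ≠ e' ∧ e ∉ X ∧ e' ∉ X

theorem Safe.mono {S : ℕ → Prop} (h : Safe X Y S) (j : ℕ) : Safe X (insert j Y) S :=
  h.imp_left fun ⟨e, a, b⟩ => ⟨e, a, mem_insert_of_mem b⟩

theorem Safe.keep {S : ℕ → Prop} (h : Safe X Y S) {i : ℕ} (n : ¬ S i) : Safe (insert i X) Y S :=
  h.imp_right fun ⟨e, e', a, b, c, d, g⟩ => ⟨e, e', a, b, c,
    by simp [d, show e ≠ i from fun k => n (k ▸ a)], by simp [g, show e' ≠ i from fun k => n (k ▸ b)]⟩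

theorem Safe.step {S : ℕ → Prop} (h : Safe X Y S) (i : ℕ) : Safe (insert i X) Y S ∨
    ∃ j, S j ∧ j ≠ i ∧ j ∉ X ∧ j ∉ Y ∧ Safe (insert i X) (insert j Y) S := by
  by_cases a : ∃ e, S e ∧ e ∈ Y
  · exact Or.inl (Or.inl a)
  obtain ⟨e, e', b, c, d, g, k⟩ := h.resolve_left a
  right
  by_cases l : e = i
  · exact ⟨e', c, l ▸ d.symm, k, fun m => a ⟨_, c, m⟩, Or.inl ⟨_, c, mem_insert_self _ _⟩⟩
  · exact ⟨e, b, l, g, fun m => a ⟨_, b, m⟩, Or.inl ⟨_, b, mem_insert_self _ _⟩⟩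

theorem Safe.out {S : ℕ → Prop} (h : Safe X Y S) (d : Disjoint X Y) : ∃ e, S e ∧ e ∉ X :=
  h.elim (fun ⟨e, a, b⟩ => ⟨e, a, disjoint_right.1 d b⟩) fun ⟨e, _, a, _, _, b, _⟩ => ⟨e, a, b⟩

/-- Finished stages. -/
def Done (X Y : Finset ℕ) (b : ℕ) (z : ℕ → ℕ) : Prop :=
  ∀ i < b, 4 * i + 1 + (1 - z i) ∈ Y ∧
    Safe X Y fun e => e = 4 * i ∨ e = 4 * i + 1 + z i ∨ e = 4 * i + 3

/-- The current stage. -/
def Cur (F : Fm) (X Y : Finset ℕ) (b : ℕ) (z : ℕ → ℕ) : Prop :=
  (F.QB (F.n - b) b z ∧ ∀ e, 4 * b ≤ e → e < 4 * F.n → e ∉ X) ∨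
    (b < F.n ∧ 4 * b ∈ Y ∧ (F.own b → Safe X Y fun e => e = 4 * b + 1 ∨ e = 4 * b + 2))

/-- The invariant of Right. -/
def Inv (F : Fm) (X Y : Finset ℕ) : Prop :=
  ∃ b ≤ F.n, ∃ z : ℕ → ℕ, (∀ i, z i < 2) ∧ Done X Y b z ∧ Cur F X Y b z

theorem Done.mono {b : ℕ} {z : ℕ → ℕ} (h : Done X Y b z) (j : ℕ) : Done X (insert j Y) b z :=
  fun i hi => ⟨mem_insert_of_mem (h i hi).1, (h i hi).2.mono j⟩

theorem Cur.mono {b : ℕ} {z : ℕ → ℕ} (h : Cur F X Y b z) (j : ℕ) : Cur F X (insert j Y) b z :=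
  h.imp_right fun ⟨a, c, d⟩ => ⟨a, mem_insert_of_mem c, fun o => (d o).mono j⟩

theorem bi : BI (4 * F.n + 2) (Win F) (Inv F) := by
  refine ⟨?_, fun X Y j ⟨b, hb, z, hz, h1, h2⟩ => ⟨b, hb, z, hz, h1.mono j, h2.mono j⟩, ?_⟩
  · rintro X Y ⟨b, hb, z, hz, h1, h2⟩ d ⟨c, hc, h⟩
    have v : b < F.n → 4 * b ∉ X := fun a =>
      h2.elim (fun k => k.2 _ le_rfl (by omega)) fun k => disjoint_right.1 d k.2.1
    by_cases c3 : c % 4 = 3
    · by_cases a : b < F.n
      · exact v a (h _ ⟨by omega, Or.inl ⟨by omega, Or.inl c3⟩⟩)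
      · obtain rfl : b = F.n := by omega
        have q := (h2.resolve_right fun k => a k.1).1
        rw [Nat.sub_self] at q
        obtain ⟨i, hi, r, hr, g, n⟩ := q (c / 4) (by omega)
        have := hz i
        refine disjoint_right.1 d (h1 i hi).1 (h _ ⟨by omega, Or.inr (Or.inl ⟨c3, by omega, ?_⟩)⟩)
        rwa [show (4 * i + 1 + (1 - z i)) / 4 = i by omega,
          show (4 * i + 1 + (1 - z i)) % 4 - 1 = r by omega]
    rcases lt_trichotomy (c / 4) b with a | a | a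
    · have := hz (c / 4)
      by_cases c0 : c % 4 = 1 + z (c / 4)
      · obtain ⟨e, g, k⟩ := (h1 _ a).2.out d
        exact k (h _ ⟨by omega, Or.inr (Or.inr (Or.inr (by omega)))⟩)
      · refine disjoint_right.1 d (h1 _ a).1 (h _ ⟨by omega, Or.inr (Or.inr ?_)⟩)
        by_cases c1 : c % 4 = 0
        · exact Or.inl ⟨c1, by omega, by omega⟩
        · exact Or.inr (by omega)
    · by_cases c0 : c % 4 = 0
      · by_cases o : F.own b
        · rcases h2 with k | k
          · exact k.2 (4 * b + 1) (by omega) (by omega)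
              (h _ ⟨by omega, Or.inr (Or.inr (Or.inl ⟨c0, by omega, by omega⟩))⟩)
          · obtain ⟨e, g, k⟩ := (k.2.2 o).out d
            exact k (h _ ⟨by omega, Or.inr (Or.inr (Or.inl ⟨c0, by omega, by omega⟩))⟩)
        · exact v (by omega) (h _ ⟨by omega, Or.inr (Or.inr (Or.inl
            ⟨c0, by omega, Or.inr (Or.inr ⟨by omega, a ▸ o⟩)⟩))⟩)
      · exact v (by omega) (h _ ⟨by omega, Or.inr (Or.inr (Or.inr (by omega)))⟩)
    · exact v (by omega) (h _ ⟨by omega, Or.inl (by omega)⟩)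
  rintro X Y i ⟨b, hb, z, hz, h1, h2⟩ hi
  have opt : ∀ j, j < 4 * F.n → j ≠ i → j ∉ X → (∀ Y' : Finset ℕ, j ∈ Y' →
      Done X Y' b z → Inv F (insert i X) Y') → Inv F (insert i X) Y ∨
      ∃ j, j + 1 < 4 * F.n + 2 ∧ j ≠ i ∧ j ∉ X ∧ j ∉ Y ∧ Inv F (insert i X) (insert j Y) := by
    intro j a c d e
    by_cases g : j ∈ Y
    · exact Or.inl (e Y g h1)
    · exact Or.inr ⟨j, by omega, c, d, g, e _ (mem_insert_self _ _) (h1.mono j)⟩
  by_cases c : i < 4 * b
  · have cu : Cur F (insert i X) Y b z := h2.imp (fun k => ⟨k.1, fun e p q => by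
      simp [k.2 e p q]; omega⟩) fun k => ⟨k.1, k.2.1, fun o => (k.2.2 o).keep (by omega)⟩
    have dn : ∀ Y' : Finset ℕ, Done X Y' b z → (Safe (insert i X) Y' fun e => e = 4 * (i / 4) ∨
        e = 4 * (i / 4) + 1 + z (i / 4) ∨ e = 4 * (i / 4) + 3) → Done (insert i X) Y' b z := by
      intro Y' p q l hl
      refine ⟨(p l hl).1, ?_⟩
      by_cases e : l = i / 4
      · exact e ▸ q
      · have := hz l
        exact (p l hl).2.keep (by omega)
    rcases (h1 (i / 4) (by omega)).2.step i with k | ⟨j, j1, j2, j3, j4, k⟩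
    · exact Or.inl ⟨b, hb, z, hz, dn _ h1 k, cu⟩
    · have := hz (i / 4)
      exact Or.inr ⟨j, by omega, j2, j3, j4, b, hb, z, hz, dn _ (h1.mono j) k, cu.mono j⟩
  have dn : ∀ {Y' : Finset ℕ}, Done X Y' b z → Done (insert i X) Y' b z := fun p l hl =>
    ⟨(p l hl).1, by have := hz l; exact (p l hl).2.keep (by omega)⟩
  rcases h2 with ⟨q, h2⟩ | ⟨a, h2, h3⟩
  · by_cases c1 : 4 * F.n ≤ i
    · exact Or.inl ⟨b, hb, z, hz, dn h1, Or.inl ⟨q, fun e p s => by simp [h2 e p s]; omega⟩⟩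
    have kill : i ≠ 4 * b → (F.own b → i ≠ 4 * b + 1 ∧ i ≠ 4 * b + 2) → _ := fun n1 n2 =>
      opt (4 * b) (by omega) n1.symm (h2 _ le_rfl (by omega)) fun Y' p s =>
        ⟨b, hb, z, hz, dn s, Or.inr ⟨by omega, p, fun o => Or.inr ⟨4 * b + 1, 4 * b + 2,
          Or.inl rfl, Or.inr rfl, by omega,
          by simp [h2 (4 * b + 1) (by omega) (by omega), (n2 o).1.symm],
          by simp [h2 (4 * b + 2) (by omega) (by omega), (n2 o).2.symm]⟩⟩⟩
    by_cases c2 : 4 * b + 4 ≤ i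
    · exact kill (by omega) fun _ => by omega
    have adv : ∀ r < 2, F.QB (F.n - (b + 1)) (b + 1) (update z b r) →
        i ≠ 4 * b + 1 + (1 - r) → _ := fun r hr q n =>
      opt (4 * b + 1 + (1 - r)) (by omega) n.symm (h2 _ (by omega) (by omega)) fun Y' p s =>
        ⟨b + 1, by omega, update z b r, Fm.lt_update hz b hr, fun l hl => by
          by_cases e : l = b
          · rw [e, update_self]
            have g : ∀ e, 4 * b ≤ e → e < 4 * b + 4 → e ≠ i → e ∉ insert i X := fun e x y w => by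
              simp [w, h2 e x (by omega)]
            refine ⟨p, Or.inr ?_⟩
            by_cases k : i = 4 * b
            · exact ⟨4 * b + 1 + r, 4 * b + 3, by simp, by simp, by omega,
                g _ (by omega) (by omega) (by omega), g _ (by omega) (by omega) (by omega)⟩
            by_cases k' : i = 4 * b + 3
            · exact ⟨4 * b, 4 * b + 1 + r, by simp, by simp, by omega,
                g _ (by omega) (by omega) (by omega), g _ (by omega) (by omega) (by omega)⟩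
            by_cases k'' : i = 4 * b + 1 + r
            all_goals exact ⟨4 * b, 4 * b + 3, by simp, by simp, by omega,
                g _ (by omega) (by omega) (by omega), g _ (by omega) (by omega) (by omega)⟩
          · rw [update_of_ne e]
            exact dn s l (by omega), Or.inl ⟨q, fun e x y => by
              simp [h2 e (by omega) y]; omega⟩⟩
    rw [show F.n - b = F.n - (b + 1) + 1 by omega, Fm.QB] at q
    by_cases o : F.own b
    · by_cases e : i = 4 * b + 2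
      · exact adv 1 (by omega) (q.1 o 1 (by omega)) (by omega)
      · exact adv 0 (by omega) (q.1 o 0 (by omega)) (by omega)
    · obtain ⟨r, hr, q⟩ := q.2 o
      by_cases e : i = 4 * b + 1 + (1 - r)
      · exact kill (by omega) fun k => absurd k o
      · exact adv r hr q e
  · by_cases o : F.own b
    · rcases (h3 o).step i with k | ⟨j, j1, j2, j3, j4, k⟩
      · exact Or.inl ⟨b, hb, z, hz, dn h1, Or.inr ⟨a, h2, fun _ => k⟩⟩
      · exact Or.inr ⟨j, by omega, j2, j3, j4, b, hb, z, hz, dn (h1.mono j),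
          Or.inr ⟨a, mem_insert_of_mem h2, fun _ => k⟩⟩
    · exact Or.inl ⟨b, hb, z, hz, dn h1, Or.inr ⟨a, h2, fun k => absurd k o⟩⟩

theorem inv_of (h : F.QB F.n 0 fun _ => 0) : Inv F ∅ ∅ :=
  ⟨0, Nat.zero_le _, fun _ => 0, by simp, fun _ a => by omega, Or.inl ⟨h, by simp⟩⟩

end Pool.Agent.P.MP_6e435d_co.Gr
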