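import Pool.Agent.P.MP_6e435d_co.Gr.St
import Pool.Agent.P.MP_6e435d_co.Gr.PG

/-!
The board simulates the positional game.
-/

set_option autoImplicit false
set_option linter.dupNamespace false

namespace Pool.Agent.P.MP_6e435d_co.Gr

open Pool.Agent.P.MP_6e435d_co.G Function Finset

theorem exists_bij {S T : Finset ℕ} {d : ℕ} (hS : d ∈ S) (hT : d ∈ T) (h : #S = #T) :
    ∃ σ : ℕ → ℕ, Set.BijOn σ S T ∧ σ d = d := by
  obtain ⟨σ, a⟩ := S.finite_toSet.exists_bijOn_of_encard_eq (t := (T : Set ℕ)) (by simp [h])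
  exact ⟨Equiv.swap (σ d) d ∘ σ, (Equiv.swap_bijOn_self (iff_of_true (a.mapsTo hS) hT)).comp a,
    by simp⟩

theorem Sea.rs {c : Bool} {f : Pos} {y p o : ℤ} {R : Set (ℤ × ℤ)} (h : Sea c f y p o)
    (a : ∀ x ≤ p, (x, y) ∈ R) : Sea c (rs R f) y p o := by
  have e : ∀ w, f w = none → Gr.rs R f w = none := fun w d => by
    unfold Gr.rs
    split_ifs
    exacts [d, rfl]
  exact h.congr (fun x _ d => rs_mem (a x d)) (e _ h.beh) fun w _ => e w

namespace Bd

variable {B : Bd} {W : Finset ℕ → Prop} {X Y D : Finset ℕ}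

/-- The region of the walkers. -/
def R2 (Y : Finset ℕ) : Set (ℤ × ℤ) := {v | v.1 < 0 ∨ (v.1 = 0 ∧ v.2 % 30 = 14 ∧ ix v.2 ∈ Y)}

/-- The contact cells. -/
def FD (D : Finset ℕ) : Set (ℤ × ℤ) := {v | ∃ j ∈ D, v = (-1, ry j) ∨ v = (0, ry j)}

/-- Rows of seas of colour `b`. -/
def rw (b : Bool) (i : ℕ) : ℤ := if b then 30 * i else ry i

theorem ix_rw (b : Bool) (i : ℕ) : ix (rw b i) = i := by
  cases b
  exacts [ix_ry i, ix_cy i]

theorem rw_ne (b : Bool) (i j : ℕ) : rw (!b) i ≠ rw b j := by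
  cases b <;> simp [rw, ry] <;> omega

theorem lg_left {b : Bool} {u v : ℤ × ℤ} (l : Lg GZ (rs (R2 Y) (B.st X Y D)) b u v) : u.1 < 0 := by
  obtain ⟨u1, u2⟩ := rs_some l.2.1
  obtain ⟨v1, v2⟩ := rs_some l.2.2
  have a := l.1
  simp only [GZ] at a
  refine u1.resolve_right fun e => ?_
  rcases v1 with d | d
  · rw [st_none d (by omega)] at v2
    simp at v2
  · omega

theorem pi_st (h : B.OK W) (d : Disjoint X Y) (hD : D ⊆ X) (hY : Y ⊆ range B.R)
    (all : ∀ i < B.R, i ∈ X ∨ i ∈ Y) (c : 2 * #Y = B.R) (l : B.R - 1 ∈ Y) (b : Bool)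
    (hb : b = true → D = ∅) :
    ∃ σ Al p, PI b σ (lo B.len) (FD D) (rs (R2 Y) (B.st X Y D)) Al p := by
  let S : Bool → Finset ℕ := fun b => if b then B.Od else Y
  have s1 : ∀ b, B.R - 1 ∈ S b := fun b => by
    cases b
    exacts [l, last_Od h]
  have s2 : ∀ b, 2 * #(S b) = B.R := fun b => by
    cases b
    exacts [c, card_Od h]
  have s3 : ∀ b, ∀ i ∈ S b, Sea b (rs (R2 Y) (B.st X Y D)) (rw b i) (-1) (-1 - B.len i) := by
    intro b i hi
    rw [← ix_rw b i]
    nth_rewrite 1 [ix_rw b i]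
    refine Sea.rs ?_ fun x a => Or.inl (by simp; omega)
    cases b
    · exact sea_Y (mem_range.1 (hY hi)) (disjoint_right.1 d hi) hi
    · have := mem_filter.1 hi
      exact sea_K h (mem_range.1 this.1) this.2
  obtain ⟨σ, bj, fx⟩ := exists_bij (s1 b) (s1 (!b)) (by have := s2 b; have := s2 (!b); omega)
  have ln : ∀ i ∈ S b, B.len (σ i) = B.len i := fun i hi => by
    have := h.pos
    have : σ i = B.R - 1 ↔ i = B.R - 1 :=
      ⟨fun e => bj.injOn hi (s1 b) (e.trans fx.symm), fun e => e ▸ fx⟩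
    unfold len
    split_ifs <;> omega
  have nD : ∀ j ∈ D, ∀ b, ∀ i ∈ S b, ry j ≠ rw b i := fun j hj b i hi e => by
    cases b
    · exact disjoint_left.1 d (hD hj) (ry_inj e ▸ hi)
    · exact rw_ne true j i e
  refine ⟨fun y => rw (!b) (σ (ix y)), (S b).image (rw b), fun _ => -1, fun y hy => ?_,
    fun y hy => ?_, fun y hy z hz => ?_, fun u v k => ?_, ?_⟩
  · obtain ⟨i, hi, rfl⟩ := mem_image.1 hy
    rw [lo, ix_rw]
    exact s3 b i hi
  · obtain ⟨i, hi, rfl⟩ := mem_image.1 hy
    rw [lo, ix_rw, ← ln i hi]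
    exact s3 _ _ (bj.mapsTo hi)
  · obtain ⟨i, hi, rfl⟩ := mem_image.1 hy
    obtain ⟨j, hj, rfl⟩ := mem_image.1 hz
    refine ⟨rw_ne _ _ _, fun e => ?_⟩
    have := congrArg ix e
    simp only [ix_rw] at this
    rw [bj.injOn hi hj this]
  · have u0 := lg_left k
    have v0 : v.1 < 0 := lg_left (b := b) ⟨k.1.symm, by simpa using k.2.2, k.2.1⟩
    have a := k.1
    simp only [GZ] at a
    have hw : ∀ i ∈ S b, u = (-1, rw b i) → _ := fun i hi e =>
      (⟨_, mem_image_of_mem _ hi, Or.inl e⟩ : ∃ y ∈ (S b).image (rw b),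
        u = (-1, y) ∨ v = (-1, rw (!b) (σ (ix y))))
    have hv : ∀ i ∈ S (!b), v = (-1, rw (!b) i) → ∃ y ∈ (S b).image (rw b),
        u = (-1, y) ∨ v = (-1, rw (!b) (σ (ix y))) := fun i hi e => by
      obtain ⟨j, hj, rfl⟩ := bj.surjOn hi
      exact ⟨_, mem_image_of_mem _ hj, Or.inr (by rwa [ix_rw])⟩
    obtain ⟨-, p⟩ := st_neg u0 (rs_some k.2.1).2
    obtain ⟨-, q⟩ := st_neg v0 (rs_some k.2.2).2
    unfold ry at p q
    cases b
    · simp only [Bool.not_false, Bool.not_true, Bool.true_eq_false, Bool.false_eq_true, and_true,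
        and_false, false_and, or_false, false_or, true_and] at p q
      rcases p with ⟨i, i1, i2, i3, i4⟩ | ⟨i, i1, i2, i3, i4⟩ <;>
        rcases q with ⟨j, j1, j2, j3⟩ | ⟨j, j1, j2, j3, j4⟩
      · by_cases e : i ∈ Y
        · exact Or.inl (hw i e (Prod.ext i3 i2))
        have e' := i4 ((all i i1).resolve_right e)
        refine Or.inr ⟨i3, Prod.ext (by simp; omega) (by simp; omega), ?_, fun y hy => ?_⟩
        · have := lo_le (B := B) (ry i)
          have := h.big
          rw [rs_mem (R := R2 Y) (v := (-3, u.2)) (Or.inl (by simp)), i2]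
          exact st_tail i1 (by omega) (by omega)
        · obtain ⟨z, hz, rfl⟩ := mem_image.1 hy
          rw [ix_rw, i2]
          exact ⟨nD i e' _ z hz, nD i e' _ _ (bj.mapsTo hz)⟩
      · omega
      · omega
      · exact Or.inl (hv j (by simp [S, Od, j1, j2]) (Prod.ext j4 j3))
    · simp only [Bool.not_false, Bool.not_true, Bool.true_eq_false, Bool.false_eq_true, and_true,
        and_false, false_and, or_false, false_or, true_and] at p q
      rcases p with ⟨i, i1, i2, i3⟩ | ⟨i, i1, i2, i3, i4⟩ <;>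
        rcases q with ⟨j, j1, j2, j3, j4⟩ | ⟨j, j1, j2, j3, j4⟩
      · refine Or.inl (hv j ((all j j1).resolve_left fun e => ?_) (Prod.ext j3 j2))
        simpa [hb rfl] using j4 e
      · omega
      · omega
      · exact Or.inl (hw i (by simp [S, Od, i1, i2]) (Prod.ext i4 i3))
  · rintro v ⟨j, hj, e⟩
    obtain rfl : b = false := by
      cases b
      · rfl
      · simp [hb rfl] at hj
    refine ⟨fun a => ?_, by rcases e with rfl | rfl <;> simp, fun y hy => ?_⟩
    · obtain ⟨a1, a2⟩ := rs_some a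
      have m := ry_mod j
      rcases e with rfl | rfl
      · obtain ⟨-, ⟨i, -, -, p⟩ | ⟨i, -, -, p, -⟩⟩ := st_neg (by simp) a2
        · simp at p
        · simp at p; omega
      · simp [R2] at a1; omega
    · obtain ⟨z, hz, rfl⟩ := mem_image.1 hy
      rw [ix_rw, show v.2 = ry j by rcases e with rfl | rfl <;> rfl]
      exact ⟨nD j hj _ z hz, nD j hj _ _ (bj.mapsTo hz)⟩

theorem jn_st (h : B.OK W) (all : ∀ i < B.R, i ∈ X ∨ i ∈ Y) :
    Jn GZ (FD D) (B.st X Y D) (rs (R2 Y) (B.st X Y D)) (rs (R2 Y)ᶜ (B.st X Y D)) := by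
  refine jn_rs fun u v a p q s t => ?_
  have a' := a
  simp only [GZ] at a'
  simp only [R2, Set.mem_ofPred_eq, not_or] at p q
  rcases p with p | p
  · obtain ⟨c, e⟩ := Option.ne_none_iff_exists'.1 s
    have e1 : u.1 = -1 := by omega
    obtain ⟨-, ⟨j, j1, j2, j3⟩ | ⟨j, j1, -, j2, -⟩⟩ := st_neg p e
    · obtain rfl : v = (0, ry j) := Prod.ext (by simp; omega) (by simp; omega)
      have y : j ∉ Y := fun y => t (by rw [st_eps j1, if_pos y])
      have := (j3.resolve_right (by omega)).2.2 ((all j j1).resolve_right y)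
      exact ⟨⟨j, this, Or.inl (Prod.ext e1 j2)⟩, j, this, Or.inr rfl⟩
    · obtain rfl : v = (0, 30 * (j : ℤ)) := Prod.ext (by simp; omega) (by simp; omega)
      rw [st_net h (by simp) (by simp)] at t
      exact absurd (h.n0 j j1).1 t
  · have := st_sup h s
    have j1 : ix u.2 < B.R := by unfold ix; omega
    have e : u = (0, ry (ix u.2) - 1) := Prod.ext p.1 (by unfold ix ry; simp; omega)
    rw [nb_gam h j1 (e ▸ a) t, st_eps j1, if_pos p.2.2] at t
    exact absurd rfl t

theorem rs_net (h : B.OK W) (all : ∀ i < B.R, i ∈ X ∨ i ∈ Y) (v : ℤ × ℤ) :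
    rs (R2 Y)ᶜ (B.st X Y D) v = if v.1 = 0 ∧ v.2 % 30 = 14 ∧ ix v.2 ∈ D then none
      else B.nety Y v := by
  have o : B.net v = none ∨ _ := (em _).imp_right (h.out v)
  unfold nety
  by_cases e : v ∈ R2 Y
  · rw [rs_not (not_not.2 e)]
    rcases e with e | e
    · rw [if_neg (by omega), if_neg (by omega), o.resolve_right (by omega)]
    · simp [e]
  rw [rs_mem e]
  simp only [R2, Set.mem_ofPred_eq, not_or] at e
  by_cases g : v.1 = 0 ∧ (v.2 % 30 = 15 ∨ v.2 % 30 = 14)
  swap
  · rw [st_net h (by omega) (by omega), if_neg (by tauto), if_neg (by tauto)]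
  by_cases r : 0 ≤ v.2 ∧ v.2 < 30 * B.R
  swap
  · rw [st, if_neg r, o.resolve_right (by omega)]
    simp
  have j1 : ix v.2 < B.R := by unfold ix; omega
  have n := h.n0 _ j1
  rcases g with ⟨g, k | k⟩
  · have q : v = (0, ry (ix v.2)) := Prod.ext g (by unfold ix ry; simp; omega)
    have := all _ j1
    rw [← q] at n
    rw [if_neg (by omega), n.2.2.2.2.2.1]
    nth_rewrite 1 [q]
    rw [st_eps j1]
    by_cases y : ix v.2 ∈ Y
    · simp [y, g, k]
    · simp [y, this.resolve_right y]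
  · have q : v = (0, ry (ix v.2) - 1) := Prod.ext g (by unfold ix ry; simp; omega)
    have y : ix v.2 ∉ Y := fun y => e.2 ⟨g, k, y⟩
    rw [← q] at n
    rw [n.2.2.2.2.2.2]
    nth_rewrite 1 [q]
    rw [st_gam j1]
    simp [y, g, k]

/-- Well-formed states. -/
structure WF (B : Bd) (X Y : Finset ℕ) : Prop where
  dj : Disjoint X Y
  sx : X ⊆ range B.R
  sy : Y ⊆ range B.R
  ls : B.R - 1 ∉ X

theorem WF.card (w : B.WF X Y) : #(B.fre X Y) + #X + #Y = B.R := by
  have h1 := card_sdiff_add_card_eq_card (union_subset w.sx w.sy)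
  rw [card_union_of_disjoint w.dj, card_range] at h1
  unfold fre
  omega

theorem WF.insX (w : B.WF X Y) {i : ℕ} (hi : i ∈ B.fre X Y) (n : i ≠ B.R - 1) :
    B.WF (insert i X) Y := by
  rw [mem_fre] at hi
  exact ⟨disjoint_insert_left.2 ⟨hi.2.2, w.dj⟩, insert_subset (mem_range.2 hi.1) w.sx, w.sy,
    by simp [n.symm, w.ls]⟩

theorem WF.insY (w : B.WF X Y) {i : ℕ} (hi : i ∈ B.fre X Y) : B.WF X (insert i Y) := by
  rw [mem_fre] at hi
  exact ⟨disjoint_insert_right.2 ⟨hi.2.1, w.dj⟩, w.sx, insert_subset (mem_range.2 hi.1) w.sy, w.ls⟩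

theorem all_of (e : B.fre X Y = ∅) : ∀ i < B.R, i ∈ X ∨ i ∈ Y := fun i hi => by
  by_contra a
  simpa [e] using (mem_fre (B := B)).2 ⟨hi, not_or.1 a⟩

theorem exists_real {U : Finset ℕ} (h : 1 < #U) (d : ℕ) : ∃ i ∈ U, i ≠ d := by
  obtain ⟨a, ha, b, hb, n⟩ := one_lt_card.1 h
  by_cases e : a = d
  · exact ⟨b, hb, e ▸ n.symm⟩
  · exact ⟨a, ha, e⟩

theorem left (h : B.OK W) (w : B.WF X Y) (c : #X = #Y) (m : MW B.R W X Y) :
    Res GZ (B.st X Y ∅) true true := by
  induction hn : #(B.fre X Y) using Nat.strong_induction_on generalizing X Y with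
  | _ n ih =>
    have cd := w.card
    have ev := h.ev
    have ps := h.pos
    rcases (B.fre X Y).eq_empty_or_nonempty with e | ne
    · have all := all_of e
      have hw : W X := by
        cases m with
        | base _ _ a => exact a
        | step _ _ i a b d => exact ((all i (by omega)).elim b d).elim
      rw [e, card_empty] at cd
      obtain ⟨σ, p⟩ := pi_st (D := ∅) h w.dj (by simp) w.sy all (by omega)
        ((all _ (by omega)).resolve_left w.ls) true fun _ => rfl
      have j := (jn_st (D := ∅) h all).symm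
      rw [show FD ∅ = ∅ by simp [FD]] at j
      refine sum_win (st_fi h) j ?_ ((loc_pi true σ _ _).res
        ((st_fi h).subset fun v a e => a ((rs_ne a).2.trans e)) p)
      rw [show rs (R2 Y)ᶜ (B.st X Y ∅) = B.nety Y from funext fun v => by simp [rs_net h all]]
      exact h.left X Y w.dj hw
    obtain ⟨i, hi, n1, nx⟩ : ∃ i ∈ B.fre X Y, i ≠ B.R - 1 ∧ ∀ j < B.R, j ≠ i → j ∉ X → j ∉ Y →
        MW B.R W (insert i X) (insert j Y) := by
      cases m with
      | base _ _ a =>
        obtain ⟨i, hi, n⟩ := exists_real (U := B.fre X Y)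
          (by have := card_pos.2 ne; omega) (B.R - 1)
        exact ⟨i, hi, n, fun _ _ _ _ _ => MW.base _ _ (h.mono _ _ a)⟩
      | step _ _ i a b d e => exact ⟨i, mem_fre.2 ⟨by omega, b, d⟩, by omega, e⟩
    obtain ⟨i1, i2, i3⟩ := mem_fre.1 hi
    have w1 := w.insX hi n1
    have l : Lg GZ (B.st X Y ∅) true (-1, ry i) (0, ry i) :=
      ⟨adj_iff.2 (by simp), (fr_U i1 i2 i3).beta, (fr_U i1 i2 i3).eps⟩
    refine l.win (lose fun u v k => ?_)
    rw [mv_clean i1 i2 i3 (by simp)] at k ⊢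
    have c1 := w1.card
    have c2 := card_insert_of_notMem i2
    rcases (pl_st h).opp len_nn k with ⟨j, hj, rfl, n, -⟩ | ⟨U, s, p⟩
    · obtain ⟨j1, j2, j3⟩ := mem_fre.1 hj
      obtain rfl := (nb_eps h j1 k.1 k.2.2).resolve_left n
      rw [mv_red j1 j2 j3]
      have := (w1.insY hj).card
      have := card_insert_of_notMem j3
      rw [mem_insert, not_or] at j2
      exact ih _ (by omega) (w1.insY hj) (by omega) (nx j j1 j2.1 j2.2 j3) rfl
    · refine p.win (fun y hy => ?_) len_nn ?_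
      · obtain ⟨z, -, rfl⟩ := mem_image.1 hy
        omega
      have a1 := sum_le_sum_of_subset_of_nonneg (f := fun j => B.len j + 2) s fun j _ _ => by
        have := len_nn (B := B) j
        omega
      have a2 : #(B.Od.image fun i : ℕ => (30 * i : ℤ)) ≤ B.R :=
        card_image_le.trans ((card_filter_le _ _).trans (card_range _).le)
      have a3 : (#(B.Od.image fun i : ℕ => (30 * i : ℤ)) : ℤ) *
          #(B.Od.image fun i : ℕ => (30 * i : ℤ)) ≤ B.R * B.R := by
        exact_mod_cast Nat.mul_le_mul a2 a2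
      have a4 : ((2 * ((B.wd + 1) * (30 * B.R)) + 2 * B.R + 2 * (B.R * B.R) + 4 : ℕ) : ℤ) ≤ B.a := by
        exact_mod_cast h.big
      have a5 := card_Od h
      have a6 : B.R - 1 ∈ Y ∨ B.R - 1 ∈ B.fre (insert i X) Y :=
        (em _).imp_right fun a => mem_fre.2 ⟨by omega, w1.ls, a⟩
      rw [sum_add_distrib (s := B.fre _ _), sum_len ps, sum_const, nsmul_eq_mul] at a1
      rw [sum_len ps, sum_len ps, if_pos (last_Od h)]
      have a8 : (#(B.fre (insert i X) Y) : ℤ) ≤ B.R := by omega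
      have a7 : (B.a : ℤ) * (#(B.fre (insert i X) Y) + 2 * #Y + 1) = B.a * (2 * #B.Od) := by
        congr 1
        omega
      push_cast at a4
      split_ifs at a1 ⊢ <;> first | tauto | nlinarith

theorem right {I : Finset ℕ → Finset ℕ → Prop} (h : B.OK W) (bi : BI B.R W I) (w : B.WF X Y)
    (c : #X = #Y) (hD : D ⊆ X) (ly : B.R - 1 ∈ Y → B.fre X Y = ∅) (m : I X Y) :
    Res GZ (B.st X Y D) true false := by
  induction hn : #(B.fre X Y) using Nat.strong_induction_on generalizing X Y D with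
  | _ n ih =>
    have cd := w.card
    have ev := h.ev
    have ps := h.pos
    rcases (B.fre X Y).eq_empty_or_nonempty with e | ne
    · have all := all_of e
      rw [e, card_empty] at cd
      obtain ⟨σ, p⟩ := pi_st h w.dj hD w.sy all (by omega)
        ((all _ (by omega)).resolve_left w.ls) false (by simp)
      obtain ⟨ρ, r⟩ := h.right X Y all (bi.out X Y m w.dj)
      refine two (b := false) (loc_pi false σ _ _) (loc_pr false ρ _ 0 0) (st_fi h) (jn_st h all)
        (Or.inl ⟨p, r.mono fun z s k => ?_, ?_⟩)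
      · obtain ⟨a, k1, k2⟩ := k
        rw [rs_net h all] at k1 k2
        split_ifs at k1 k2
        refine ⟨⟨a, k1, k2⟩, fun g => ?_⟩
        rw [rs_net h all, if_neg, g]
        rintro ⟨g1, g2, g3⟩
        have := (h.n0 _ (mem_range.1 (w.sx (hD g3)))).2.2.2.2.2.2
        have o := h.out (ρ z s)
        unfold nety at g
        split_ifs at g
        rw [show (0, ry (ix (ρ z s).2) - 1) = ρ z s from Prod.ext g1.symm (by
          have := o (by simp [g])
          unfold ix ry
          simp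
          omega), g] at this
        simp at this
      · rintro v ⟨j, hj, rfl | rfl⟩ a
        · exact (rs_some a).1 (Or.inl (by simp))
        · have := (rs_some a).2
          rw [st_eps (mem_range.1 (w.sx (hD hj)))] at this
          split_ifs at this
          simp [hD hj] at this
    have ly' : B.R - 1 ∉ Y := fun a => ne.ne_empty (ly a)
    have lu : B.R - 1 ∈ B.fre X Y := mem_fre.2 ⟨by omega, w.ls, ly'⟩
    have a4 : ((2 * ((B.wd + 1) * (30 * B.R)) + 2 * B.R + 2 * (B.R * B.R) + 4 : ℕ) : ℤ) ≤ B.a := by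
      exact_mod_cast h.big
    have a5 := card_Od h
    have a7 : (B.a : ℤ) * (#(B.fre X Y) + 2 * #Y) = B.a * (2 * #B.Od) := by
      congr 1
      omega
    have a8 : 2 * (B.R * B.R + 1 : ℤ) ≤ 2 * (∑ j ∈ Y, B.len j - ((B.wd + 1) * (30 * B.R) +
        ∑ j ∈ B.Od, B.len j) - 1) + ∑ j ∈ B.fre X Y, (B.len j - 2) - B.a := by
      rw [sum_sub_distrib, sum_len ps, sum_len ps, sum_len ps, if_pos (last_Od h), if_pos lu,
        if_neg ly', sum_const, nsmul_eq_mul]
      push_cast at a4
      have : (#(B.fre X Y) : ℤ) ≤ B.R := by omega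
      nlinarith
    refine lose (b := false) fun u v k => ?_
    rcases (pr_st h w.dj hD w.sy).opp k with ⟨i, hi, e, p⟩ | p | ⟨i, hi, p⟩
    · have s := add_sum_erase _ (fun j => B.len j - 2) hi
      by_cases n1 : i = B.R - 1
      · refine p.win len_nn ?_
        have : B.len i = B.a := if_pos (by omega)
        omega
      obtain ⟨i1, i2, i3⟩ := mem_fre.1 hi
      have i4 : i ∉ D := fun a => i2 (hD a)
      obtain rfl : v = (0, ry i) := e.elim id fun e => nb_gam h i1 (e ▸ k.1) k.ne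
      have w1 := w.insX hi n1
      have c1 := w1.card
      have c2 := card_insert_of_notMem i2
      obtain ⟨D', hD', q⟩ : ∃ D' ⊆ insert i X, mv (B.st X Y D) u (0, ry i) =
          B.st (insert i X) Y D' := by
        rcases nb_eps h i1 k.1.symm k.2.1 with rfl | rfl
        · exact ⟨D, hD.trans (subset_insert _ _), mv_clean i1 i2 i3 i4⟩
        · exact ⟨_, insert_subset_insert _ hD, mv_dirty i1 i2 i3 i4⟩
      obtain ⟨j, hj, j0, nx⟩ : ∃ j ∈ B.fre (insert i X) Y, (j = B.R - 1 →
          #(B.fre (insert i X) Y) = 1) ∧ I (insert i X) (insert j Y) := by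
        rcases bi.step X Y i m i3 with a | ⟨j, j1, j2, j3, j4, a⟩
        · by_cases g : 1 < #(B.fre (insert i X) Y)
          · obtain ⟨j, hj, n⟩ := exists_real g (B.R - 1)
            exact ⟨j, hj, fun e => absurd e n, bi.mono _ _ _ a⟩
          · exact ⟨_, mem_fre.2 ⟨by omega, w1.ls, ly'⟩, fun _ => by omega, bi.mono _ _ _ a⟩
        · exact ⟨j, mem_fre.2 ⟨by omega, by simp [j2, j3], j4⟩, fun e => by omega, a⟩
      obtain ⟨j1, j2, j3⟩ := mem_fre.1 hj
      have l : Lg GZ (B.st (insert i X) Y D') false (0, ry j) (0, ry j - 1) :=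
        ⟨adj_iff.2 (by simp), (fr_U j1 j2 j3).eps, by
          rw [st_gam j1, if_neg j3, if_neg fun a => j2 (hD' a), Bool.not_false]⟩
      rw [q]
      refine l.win ?_
      rw [mv_red j1 j2 j3]
      have := (w1.insY hj).card
      have := card_insert_of_notMem j3
      refine ih _ (by omega) (w1.insY hj) (by omega) hD' (fun a => card_eq_zero.1 ?_) nx rfl
      have := j0 ((mem_insert.1 a).resolve_right ly').symm
      omega
    · exact p.win len_nn (by omega)
    · have s := add_sum_erase _ (fun j => B.len j - 2) hi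
      have := len_nn (B := B) i
      exact p.win len_nn (by omega)

theorem wf0 (B : Bd) : B.WF ∅ ∅ := ⟨by simp, by simp, by simp, by simp⟩

end Bd

end Pool.Agent.P.MP_6e435d_co.Gr
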