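import Pool.Agent.P.MP_6e435d_co.Gr.Base

/-!
Walkers in long rows of the grid.
-/

set_option autoImplicit false
set_option linter.dupNamespace false

namespace Pool.Agent.P.MP_6e435d_co.Gr

open Pool.Agent.P.MP_6e435d_co.G Function Finset

/-- The square grid. -/
def GZ : SimpleGraph (ℤ × ℤ) where
  Adj u v := (u.1 = v.1 ∧ (u.2 + 1 = v.2 ∨ v.2 + 1 = u.2)) ∨
    (u.2 = v.2 ∧ (u.1 + 1 = v.1 ∨ v.1 + 1 = u.1))
  symm := ⟨fun _ _ h => by omega⟩
  loopless := ⟨fun _ h => by omega⟩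

theorem adj_iff {x y : ℤ} {v : ℤ × ℤ} : GZ.Adj (x, y) v ↔
    v = (x + 1, y) ∨ v = (x, y + 1) ∨ v = (x - 1, y) ∨ v = (x, y - 1) := by
  obtain ⟨a, b⟩ := v
  simp only [GZ, Prod.mk.injEq]
  omega

/-- Positions on the grid. -/
abbrev Pos : Type := ℤ × ℤ → Option Bool

/-- A walker at `(p, y)` in front of a row of stones of colour `c`. -/
structure Sea (c : Bool) (f : Pos) (y p lo : ℤ) : Prop where
  here : f (p, y) = some (!c)
  sea : ∀ x, lo ≤ x → x < p → f (x, y) = some c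
  le : lo ≤ p
  fin : f (lo - 1, y) = none
  beh : f (p + 1, y) = none
  up : ∀ x, lo ≤ x → x ≤ p → f (x, y + 1) = none ∧ f (x, y - 1) = none

variable {b c : Bool} {f : Pos} {y p lo : ℤ} {u v : ℤ × ℤ}

theorem Sea.nbr (h : Sea c f y p lo) {x : ℤ} (h1 : lo ≤ x) (h2 : x ≤ p) (a : GZ.Adj (x, y) v)
    (d : f v ≠ none) : (v = (x - 1, y) ∧ lo < x) ∨ (v = (x + 1, y) ∧ x < p) := by
  rcases adj_iff.1 a with rfl | rfl | rfl | rfl
  · exact Or.inr ⟨rfl, h2.lt_of_ne fun e => d (e ▸ h.beh)⟩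
  · exact absurd (h.up x h1 h2).1 d
  · exact Or.inl ⟨rfl, h1.lt_of_ne fun e => d (e ▸ h.fin)⟩
  · exact absurd (h.up x h1 h2).2 d

/-- The cells of the row. -/
def Seg (y p lo : ℤ) (v : ℤ × ℤ) : Prop := v.2 = y ∧ lo ≤ v.1 ∧ v.1 ≤ p

theorem Sea.keep (h : Sea c f y p lo) (l : Lg GZ f b u v) (hu : ¬ Seg y p lo u)
    (hv : ¬ Seg y p lo v) : Sea c (mv f u v) y p lo := by
  have e : ∀ x, lo ≤ x → x ≤ p → mv f u v (x, y) = f (x, y) := fun x a d =>
    mv_of_ne (fun q => hu (q ▸ ⟨rfl, a, d⟩)) fun q => hv (q ▸ ⟨rfl, a, d⟩)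
  exact ⟨(e p h.le le_rfl).trans h.here, fun x a d => (e x a d.le).trans (h.sea x a d), h.le,
    mv_none l.ne h.fin, mv_none l.ne h.beh, fun x a d =>
      ⟨mv_none l.ne (h.up x a d).1, mv_none l.ne (h.up x a d).2⟩⟩

theorem Sea.touch (h : Sea c f y p lo) (l : Lg GZ f b u v) (k : Seg y p lo u ∨ Seg y p lo v) :
    lo < p ∧ ((b = c ∧ u = (p - 1, y) ∧ v = (p, y)) ∨ (b = !c ∧ u = (p, y) ∧ v = (p - 1, y))) := by
  have key : ∀ {b : Bool} {u v : ℤ × ℤ}, Lg GZ f b u v → Seg y p lo u → lo < p ∧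
      ((b = c ∧ u = (p - 1, y) ∧ v = (p, y)) ∨ (b = !c ∧ u = (p, y) ∧ v = (p - 1, y))) := by
    rintro b ⟨x, _⟩ v l ⟨rfl, h1, h2⟩
    dsimp only at h1 h2
    have n := h.nbr h1 h2 l.1 l.ne
    rcases h2.lt_or_eq with h2 | rfl
    · obtain rfl : b = c := by simpa [l.2.1] using h.sea x h1 h2
      rcases n with ⟨rfl, n⟩ | ⟨rfl, n⟩
      · simpa [l.2.2] using h.sea (x - 1) (by omega) (by omega)
      · by_cases e : x + 1 = p
        · subst e
          exact ⟨by omega, Or.inl ⟨rfl, by simp, rfl⟩⟩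
        · simpa [l.2.2] using h.sea (x + 1) (by omega) (by omega)
    · rcases n with ⟨rfl, n⟩ | ⟨rfl, n⟩
      · exact ⟨n, Or.inr ⟨by simpa [l.2.1] using h.here, rfl, rfl⟩⟩
      · omega
  rcases k with k | k
  · exact key l k
  · obtain ⟨a, d | d⟩ := key (b := !b) ⟨l.1.symm, l.2.2, by simpa using l.2.1⟩ k
    · exact ⟨a, Or.inr ⟨by simp [← d.1], d.2.2, d.2.1⟩⟩
    · exact ⟨a, Or.inl ⟨by simpa using d.1, d.2.2, d.2.1⟩⟩

theorem Sea.adv (h : Sea c f y p lo) (a : lo < p) :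
    Lg GZ f (!c) (p, y) (p - 1, y) ∧ Sea c (mv f (p, y) (p - 1, y)) y (p - 1) lo := by
  have l : Lg GZ f (!c) (p, y) (p - 1, y) :=
    ⟨adj_iff.2 (by simp), h.here, by simpa using h.sea _ (by omega) (by omega)⟩
  refine ⟨l, by rw [mv_dst, h.here], fun x d e => ?_, by omega, mv_none l.ne h.fin, ?_,
    fun x d e => ⟨mv_none l.ne (h.up x d (by omega)).1, mv_none l.ne (h.up x d (by omega)).2⟩⟩
  · rw [mv_of_ne (by simp; omega) (by simp; omega), h.sea x d (by omega)]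
  · rw [sub_add_cancel, mv_src _ l.1.ne]

theorem Sea.kill (h : Sea c f y p lo) (a : lo < p) :
    Lg GZ f c (p - 1, y) (p, y) ∧ ∀ v, GZ.Adj (p, y) v → mv f (p - 1, y) (p, y) v = none := by
  have l : Lg GZ f c (p - 1, y) (p, y) :=
    ⟨adj_iff.2 (by simp), h.sea _ (by omega) (by omega), h.here⟩
  refine ⟨l, fun v d => ?_⟩
  by_contra e
  rcases h.nbr h.le le_rfl d (mv_ne l.ne e) with ⟨rfl, -⟩ | ⟨-, g⟩
  · exact e (mv_src _ l.1.ne)
  · omega

theorem lg_old {b' : Bool} {z r : ℤ × ℤ} (k : Lg GZ (mv f u v) b' z r) (hz : z ≠ v) (hr : r ≠ v)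
    (n : u ≠ v) : Lg GZ f b' z r ∧ z ≠ u ∧ r ≠ u := by
  have h1 : z ≠ u := fun e => by simpa [e, mv_src f n] using k.2.1
  have h2 : r ≠ u := fun e => by simpa [e, mv_src f n] using k.2.2
  exact ⟨⟨k.1, (mv_of_ne h1 hz).symm.trans k.2.1, (mv_of_ne h2 hr).symm.trans k.2.2⟩, h1, h2⟩

/-- Several walkers in seas of colour `b`; the other enemy stones are in `O`, `I` or `X`. -/
structure MS (b : Bool) (f : Pos) (J : Finset ℤ) (p lo : ℤ → ℤ) (O : Finset (ℤ × ℤ))
    (I X : Set (ℤ × ℤ)) : Prop where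
  sea : ∀ y ∈ J, Sea b f y (p y) (lo y)
  cls : ∀ v, f v = some (!b) → v ∈ O ∨ v ∈ I ∨ v ∈ X ∨ ∃ y ∈ J, v = (p y, y)
  ine : ∀ z ∈ I, f z ≠ some b ∧ ∀ v, GZ.Adj z v → v ∈ I ∨ f v = none

section Multi

variable {J : Finset ℤ} {p lo : ℤ → ℤ} {O : Finset (ℤ × ℤ)} {I X : Set (ℤ × ℤ)}

theorem MS.own (h : MS b f J p lo O I X) (l : Lg GZ f b u v) (n : ∀ y ∈ J, v ≠ (p y, y)) :
    MS b (mv f u v) J p lo (O.erase v) I X ∧ (v ∈ O ∨ v ∈ X) := by
  have hI : v ∉ I := fun a => ((h.ine v a).2 u l.1.symm).elim (fun d => (h.ine u d).1 l.2.1)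
    fun d => by simpa [d] using l.2.1
  refine ⟨⟨fun y hy => ?_, fun w a => ?_, fun z a => ⟨?_, fun w d => ?_⟩⟩, ?_⟩
  · have : ¬ (Seg y (p y) (lo y) u ∨ Seg y (p y) (lo y) v) := fun k => by
      rcases ((h.sea y hy).touch l k).2 with d | d
      · exact n y hy d.2.2
      · simpa using d.1
    exact (h.sea y hy).keep l (fun a => this (Or.inl a)) fun a => this (Or.inr a)
  · rw [mv_apply] at a
    split_ifs at a with d e
    · simp [l.2.1] at a
    · exact (h.cls w a).imp_left fun g => mem_erase.2 ⟨d, g⟩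
  · rw [mv_apply, if_neg fun e : z = v => hI (e ▸ a)]
    split_ifs
    · simp
    · exact (h.ine z a).1
  · exact ((h.ine z a).2 w d).imp_right (mv_none l.ne)
  · rcases h.cls v l.2.2 with a | a | a | ⟨y, hy, a⟩
    exacts [Or.inl a, absurd a hI, Or.inr a, absurd a (n y hy)]

theorem MS.opp (h : MS b f J p lo O I X) (l : Lg GZ f (!b) u v) :
    (∃ y ∈ J, u = (p y, y) ∧ v = (p y - 1, y) ∧
      MS b (mv f u v) J (update p y (p y - 1)) lo O I X) ∨
    ((u ∈ O ∨ u ∈ X) ∧ MS b (mv f u v) J p lo (insert v (O.erase u)) I X) := by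
  have hv : f v = some b := by simpa using l.2.2
  have hi : ∀ z ∈ I, mv f u v z ≠ some b ∧ ∀ w, GZ.Adj z w → w ∈ I ∨ mv f u v w = none := by
    refine fun z a => ⟨?_, fun w d => ((h.ine z a).2 w d).imp_right (mv_none l.ne)⟩
    rw [mv_apply]
    split_ifs
    · simp [l.2.1]
    · simp
    · exact (h.ine z a).1
  have hk : ∀ y ∈ J, u ≠ (p y, y) → Sea b (mv f u v) y (p y) (lo y) := fun y hy n => by
    have : ¬ (Seg y (p y) (lo y) u ∨ Seg y (p y) (lo y) v) := fun k => by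
      rcases ((h.sea y hy).touch l k).2 with d | d
      · simpa using d.1
      · exact n d.2.1
    exact (h.sea y hy).keep l (fun a => this (Or.inl a)) fun a => this (Or.inr a)
  by_cases hw : ∃ y ∈ J, u = (p y, y)
  · obtain ⟨y, hy, rfl⟩ := hw
    obtain ⟨a, d⟩ := (h.sea y hy).touch l (Or.inl ⟨rfl, (h.sea y hy).le, le_rfl⟩)
    obtain rfl : v = (p y - 1, y) := (d.resolve_left fun d => by simpa using d.1).2.2
    refine Or.inl ⟨y, hy, rfl, rfl, fun z hz => ?_, fun w a => ?_, hi⟩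
    · by_cases e : z = y
      · rw [e, update_self]
        exact ((h.sea y hy).adv a).2
      · rw [update_of_ne e]
        exact hk z hz fun g => e (congrArg Prod.snd g).symm
    · rw [mv_apply] at a
      split_ifs at a with d e
      · exact Or.inr (Or.inr (Or.inr ⟨y, hy, by simp [d]⟩))
      · refine (h.cls w a).imp_right (Or.imp_right (Or.imp_right fun ⟨z, hz, g⟩ => ⟨z, hz, ?_⟩))
        rwa [update_of_ne fun k : z = y => e (k ▸ g)]
  · refine Or.inr ⟨?_, fun y hy => hk y hy fun a => hw ⟨y, hy, a⟩, fun w a => ?_, hi⟩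
    · rcases h.cls u l.2.1 with a | a | a | a
      · exact Or.inl a
      · rcases (h.ine u a).2 v l.1 with d | d
        · exact absurd hv (h.ine v d).1
        · exact absurd d l.ne
      · exact Or.inr a
      · exact absurd a hw
    · rw [mv_apply] at a
      split_ifs at a with d e
      · exact Or.inl (d ▸ mem_insert_self _ _)
      · exact (h.cls w a).imp_left fun g => mem_insert_of_mem (mem_erase.2 ⟨e, g⟩)

/-- The total remaining length. -/
def Phi (J : Finset ℤ) (p lo : ℤ → ℤ) : ℤ := ∑ y ∈ J, (p y - lo y)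

theorem Phi_update {y : ℤ} (hy : y ∈ J) : Phi J (update p y (p y - 1)) lo = Phi J p lo - 1 := by
  unfold Phi
  rw [← add_sum_erase _ _ hy, ← add_sum_erase _ _ hy, update_self,
    sum_congr rfl fun z hz => by rw [update_of_ne (mem_erase.1 hz).1]]
  ring

theorem card_ins {O : Finset (ℤ × ℤ)} (h : u ∈ O) : #(insert v (O.erase u)) ≤ #O := by
  have := card_insert_le v (O.erase u)
  have := card_erase_of_mem h
  have := card_pos.2 ⟨_, h⟩
  omega

theorem ms_aux {s : ℤ} (H : ∀ f p O I, MS b f J p lo O I ∅ →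
      (∀ u v, Lg GZ f b u v → ∃ y ∈ J, v = (p y, y)) → s ≤ Phi J p lo → Res GZ f b true)
    (k : ℕ) : ∀ f p O I, MS b f J p lo O I ∅ → #O ≤ k → k + s ≤ Phi J p lo →
      Res GZ f b true := by
  induction k with
  | zero =>
    refine fun f p O I h a d => H f p O I h (fun u v l => ?_) (by simpa using d)
    by_contra e
    have := (h.own l fun y hy g => e ⟨y, hy, g⟩).2.resolve_right id
    have := card_pos.2 ⟨_, this⟩
    omega
  | succ k ih =>
    intro f p O I h a d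
    by_cases e : ∀ u v, Lg GZ f b u v → ∃ y ∈ J, v = (p y, y)
    · exact H f p O I h e (by omega)
    push Not at e
    obtain ⟨u, v, l, n⟩ := e
    obtain ⟨h1, h2⟩ := h.own l n
    have := card_erase_of_mem (h2.resolve_right id)
    refine l.win (lose fun z r l' => ?_)
    rcases h1.opp l' with ⟨y, hy, -, -, h3⟩ | ⟨h3, h4⟩
    · exact ih _ _ _ _ h3 (by omega) (by rw [Phi_update hy]; omega)
    · have := card_ins (v := r) (h3.resolve_right id)
      exact ih _ _ _ _ h4 (by omega) (by omega)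

theorem ms_one {y : ℤ} (h : MS b f {y} p lo O I ∅) (a : (#O : ℤ) + 1 ≤ p y - lo y) :
    Res GZ f b true := by
  refine ms_aux (s := 1) (fun f p O I h n d => ?_) _ f p O I h le_rfl (by simpa [Phi] using a)
  have hs := h.sea y (mem_singleton_self y)
  obtain ⟨l, e⟩ := hs.kill (by simp [Phi] at d; omega)
  refine l.win (lose fun z r k => ?_)
  exfalso
  have h1 : r ≠ (p y, y) := fun g => by simpa [e z (g ▸ k.1.symm)] using k.2.1
  have h2 : z ≠ (p y, y) := fun g => by simpa [g, mv_dst, l.2.1] using k.2.1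
  obtain ⟨k', -⟩ := lg_old k h2 h1 l.1.ne
  obtain ⟨w, hw, g⟩ := n r z ⟨k'.1.symm, by simpa using k'.2.2, k'.2.1⟩
  exact h2 (mem_singleton.1 hw ▸ g)

theorem ms_all (h : MS b f J p lo O I ∅) (a : (#O : ℤ) + (#J * #J + 1) ≤ Phi J p lo) :
    Res GZ f b true := by
  refine ms_aux (fun f p O I h n d => ?_) _ f p O I h le_rfl a
  obtain ⟨y, hy, e⟩ : ∃ y ∈ J, (#J : ℤ) < p y - lo y := by
    by_contra e
    push Not at e
    have := sum_le_card_nsmul J _ _ e
    rw [nsmul_eq_mul] at this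
    unfold Phi at d
    omega
  have hc : #(J.image fun z => (p z, z)) ≤ #J := card_image_le
  refine ms_one (y := y) (p := p) (lo := lo) (O := J.image fun z => (p z, z))
    (I := {z | f z = some (!b) ∧ ∀ y ∈ J, z ≠ (p y, y)}) ⟨fun z hz => ?_, fun v a => ?_,
      fun z a => ⟨by simp [a.1], fun v d => ?_⟩⟩ (by omega)
  · exact mem_singleton.1 hz ▸ h.sea y hy
  · by_cases g : ∃ z ∈ J, v = (p z, z)
    · obtain ⟨z, hz, g⟩ := g
      exact Or.inl (mem_image.2 ⟨z, hz, g.symm⟩)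
    · exact Or.inr (Or.inl ⟨a, fun z hz k => g ⟨z, hz, k⟩⟩)
  · rcases hv : f v with _ | c
    · exact Or.inr rfl
    left
    have hc : c = !b := by
      by_contra g
      obtain ⟨w, hw, k⟩ := n v z ⟨d.symm, by rw [hv]; simpa using g, a.1⟩
      exact a.2 w hw k
    refine ⟨hc ▸ hv, fun w hw k => ?_⟩
    have hs := h.sea w hw
    rcases hs.nbr hs.le le_rfl (k ▸ d.symm) (by simp [a.1]) with ⟨g, m⟩ | ⟨-, m⟩
    · simpa [← g, a.1] using hs.sea (p w - 1) (by omega) (by omega)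
    · omega

end Multi

/-- Pairs of walkers of equal length. -/
structure PI (b : Bool) (σ lo : ℤ → ℤ) (F : Set (ℤ × ℤ)) (f : Pos) (Al : Finset ℤ) (p : ℤ → ℤ) :
    Prop where
  s1 : ∀ y ∈ Al, Sea b f y (p y) (lo y)
  s2 : ∀ y ∈ Al, Sea (!b) f (σ y) (p y) (lo y)
  inj : ∀ y ∈ Al, ∀ z ∈ Al, σ y ≠ z ∧ (σ y = σ z → y = z)
  cls : ∀ u v, Lg GZ f (!b) u v → (∃ y ∈ Al, u = (p y, y) ∨ v = (p y, σ y)) ∨
    (u.1 = -1 ∧ v = (-2, u.2) ∧ f (-3, u.2) = some b ∧ ∀ y ∈ Al, u.2 ≠ y ∧ u.2 ≠ σ y)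
  nb : ∀ v ∈ F, f v ≠ some b ∧ -1 ≤ v.1 ∧ ∀ y ∈ Al, v.2 ≠ y ∧ v.2 ≠ σ y

theorem loc_pi (b : Bool) (σ lo : ℤ → ℤ) (F : Set (ℤ × ℤ)) :
    Loc GZ b F (fun f => ∃ Al p, PI b σ lo F f Al p) fun _ => False := by
  refine ⟨fun f h v hv => ?_, ?_, fun _ h => h.elim, fun _ h => h.elim⟩
  · obtain ⟨Al, p, h⟩ := h.resolve_right id
    exact (h.nb v hv).1
  rintro f ⟨Al, p, h⟩ u v l
  have keep : ∀ {c : Bool} {y q o : ℤ} {a d : ℤ × ℤ}, Sea c f y q o → Lg GZ (mv f u v) b a d →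
      u.2 ≠ y → v.2 ≠ y → a.2 ≠ y → d.2 ≠ y → Sea c (mv (mv f u v) a d) y q o :=
    fun s k h1 h2 h3 h4 => (s.keep l (fun e => h1 e.1) fun e => h2 e.1).keep k
      (fun e => h3 e.1) fun e => h4 e.1
  have nb : ∀ {a d : ℤ × ℤ}, d ∉ F → ∀ w ∈ F, mv (mv f u v) a d w ≠ some b := by
    intro a d n w hw
    rw [mv_apply, if_neg fun e : w = d => n (e ▸ hw), mv_apply]
    split_ifs
    · simp
    · simp [l.2.1]
    · simp
    · exact (h.nb w hw).1
  have old : ∀ {a d z r : ℤ × ℤ}, Lg GZ (mv f u v) b a d → Lg GZ (mv (mv f u v) a d) (!b) z r →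
      d ≠ v → a ≠ v → z ≠ v → r ≠ d → Lg GZ f (!b) z r ∧ z ≠ u ∧ z ≠ d ∧ r ≠ a ∧ r ≠ v := by
    intro a d z r k k' n1 n2 n3 n4
    have h1 : z ≠ d := fun e => by simpa [e, mv_dst, k.2.1] using k'.2.1
    have h2 : r ≠ v := fun e => by
      simpa [e, mv_of_ne n2.symm n1.symm, mv_dst, l.2.1] using k'.2.2
    obtain ⟨k1, -, h3⟩ := lg_old k' h1 n4 k.1.ne
    obtain ⟨k2, h4, -⟩ := lg_old k1 n3 h2 l.1.ne
    exact ⟨k2, h4, h1, h3, h2⟩
  rcases h.cls u v l with ⟨y, hy, rfl | rfl⟩ | ⟨h1, rfl, h3, h4⟩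
  · have s1 := h.s1 y hy
    have s2 := h.s2 y hy
    have n := (h.inj y hy y hy).1
    obtain ⟨a, d⟩ := s1.touch l (Or.inl ⟨rfl, s1.le, le_rfl⟩)
    obtain rfl : v = (p y - 1, y) := (d.resolve_left fun d => by simpa using d.1).2.2
    obtain ⟨k, t2⟩ := (s2.keep l (fun e => n e.1.symm) fun e => n e.1.symm).adv a
    rw [Bool.not_not] at k
    have t1 := (s1.adv a).2.keep k (fun e => n e.1) fun e => n e.1
    refine ⟨_, _, k, Al, update p y (p y - 1), fun z hz => ?_, fun z hz => ?_, h.inj,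
      fun z r k' => ?_, fun w hw => ⟨nb (fun e => ((h.nb _ e).2.2 y hy).2 rfl) w hw, (h.nb w hw).2⟩⟩
    · by_cases e : z = y
      · rwa [e, update_self]
      · rw [update_of_ne e]
        exact keep (h.s1 z hz) k (Ne.symm e) (Ne.symm e) (h.inj y hy z hz).1 (h.inj y hy z hz).1
    · by_cases e : z = y
      · rwa [e, update_self]
      · rw [update_of_ne e]
        have := fun g => e ((h.inj y hy z hz).2 g).symm
        exact keep (h.s2 z hz) k (h.inj z hz y hy).1.symm (h.inj z hz y hy).1.symm this this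
    · by_cases e1 : z = (p y - 1, y)
      · exact Or.inl ⟨y, hy, Or.inl (by simp [e1])⟩
      by_cases e2 : r = (p y - 1, σ y)
      · exact Or.inl ⟨y, hy, Or.inr (by simp [e2])⟩
      obtain ⟨k1, n1, -, n3, -⟩ := old k k' (by simp [n]) (by simp [n]) e1 e2
      rcases h.cls z r k1 with ⟨w, hw, g⟩ | ⟨g1, g2, g3, g4⟩
      · have : w ≠ y := by
          rintro rfl
          exact g.elim n1 n3
        exact Or.inl ⟨w, hw, by rwa [update_of_ne this]⟩
      · have := g4 y hy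
        exact Or.inr ⟨g1, g2, by rwa [mv_of_ne (by simp [this]) (by simp [this]),
          mv_of_ne (by simp [this]) (by simp [this])], g4⟩
  · have s1 := h.s1 y hy
    have s2 := h.s2 y hy
    have n := (h.inj y hy y hy).1
    obtain ⟨a, d⟩ := s2.touch l (Or.inr ⟨rfl, s2.le, le_rfl⟩)
    obtain rfl : u = (p y - 1, σ y) := (d.resolve_right fun d => by simpa using d.1).2.1
    obtain ⟨k, t1⟩ := (s1.keep l (fun e => n e.1) fun e => n e.1).kill a
    have t2 := (s2.kill a).2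
    refine ⟨_, _, k, Al.erase y, p, fun z hz => ?_, fun z hz => ?_,
      fun z hz w hw => h.inj z (mem_of_mem_erase hz) w (mem_of_mem_erase hw), fun z r k' => ?_,
      fun w hw => ⟨nb (fun e => ((h.nb _ e).2.2 y hy).1 rfl) w hw, (h.nb w hw).2.1,
        fun z hz => (h.nb w hw).2.2 z (mem_of_mem_erase hz)⟩⟩
    · obtain ⟨e, hz⟩ := mem_erase.1 hz
      exact keep (h.s1 z hz) k (h.inj y hy z hz).1 (h.inj y hy z hz).1 (Ne.symm e) (Ne.symm e)
    · obtain ⟨e, hz⟩ := mem_erase.1 hz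
      have := fun g => e ((h.inj y hy z hz).2 g).symm
      exact keep (h.s2 z hz) k this this (h.inj z hz y hy).1.symm (h.inj z hz y hy).1.symm
    · have e1 : z ≠ (p y, σ y) := fun e => k'.ne (mv_none k.ne (t2 r (e ▸ k'.1)))
      have e2 : r ≠ (p y, y) := fun e => by simpa [t1 z (e ▸ k'.1.symm)] using k'.2.1
      obtain ⟨k1, -, n2, -, n4⟩ := old k k' (by simp [n.symm]) (by simp) e1 e2
      rcases h.cls z r k1 with ⟨w, hw, g⟩ | ⟨g1, g2, g3, g4⟩
      · have : w ≠ y := by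
          rintro rfl
          exact g.elim n2 n4
        exact Or.inl ⟨w, mem_erase.2 ⟨this, hw⟩, g⟩
      · have := g4 y hy
        exact Or.inr ⟨g1, g2, by rwa [mv_of_ne (by simp [this]) (by simp [this]),
          mv_of_ne (by simp [this]) (by simp [this])], fun w hw => g4 w (mem_of_mem_erase hw)⟩
  · have a : GZ.Adj (-3, u.2) (-2, u.2) := adj_iff.2 (by simp)
    have e := mv_mv l a h3
    have k : Lg GZ (mv f u (-2, u.2)) b (-3, u.2) (-2, u.2) :=
      ⟨a, by rw [mv_of_ne (fun g => by have := congrArg Prod.fst g; omega) a.ne, h3], by rw [mv_dst, l.2.1]⟩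
    refine ⟨_, _, k, Al, p, fun z hz => ?_, fun z hz => ?_, h.inj, fun z r k' => ?_,
      fun w hw => ⟨nb (fun e => by simpa using (h.nb _ e).2.1) w hw, (h.nb w hw).2⟩⟩
    · exact keep (h.s1 z hz) k (h4 z hz).1 (h4 z hz).1 (h4 z hz).1 (h4 z hz).1
    · exact keep (h.s2 z hz) k (h4 z hz).2 (h4 z hz).2 (h4 z hz).2 (h4 z hz).2
    · obtain ⟨x, y, w⟩ := k'
      rw [e] at y w
      split_ifs at y w with d1 d2
      refine (h.cls z r ⟨x, y, w⟩).imp_right fun ⟨g1, g2, g3, g4⟩ => ⟨g1, g2, ?_, g4⟩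
      rw [e, if_neg, g3]
      rintro (g | g)
      · have := congrArg Prod.fst g
        omega
      · exact d1 (Or.inl (Prod.ext (g1.trans h1.symm) (Prod.mk.inj g).2))

end Pool.Agent.P.MP_6e435d_co.Gr
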