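import Pool.Agent.P.MP_6e435d_co.Gr.Pun
import Pool.Agent.P.MP_6e435d_co.Gr.NetL

/-!
The states of the first phase.
-/

set_option autoImplicit false
set_option linter.dupNamespace false

namespace Pool.Agent.P.MP_6e435d_co.Gr

open Pool.Agent.P.MP_6e435d_co.G Function Finset

/-- The data of a board. -/
structure Bd where
  /-- number of rows -/
  R : ℕ
  /-- unit of length -/
  a : ℕ
  /-- width of the network -/
  wd : ℕ
  /-- the network -/
  net : Pos

namespace Bd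

variable (B : Bd)

/-- Lengths of the tails. -/
def len (i : ℕ) : ℤ := if i + 1 = B.R then B.a else 3 * B.a

/-- The position after some rows are claimed. -/
def st (X Y D : Finset ℕ) (v : ℤ × ℤ) : Option Bool :=
  if 0 ≤ v.2 ∧ v.2 < 30 * B.R then
    if v.1 < 0 then
      if lo B.len v.2 ≤ v.1 then
        if v.2 % 30 = 15 then
          (if v.1 = -1 then (if ix v.2 ∈ X ∧ ix v.2 ∉ D then none else some true) else some false)
        else if v.2 % 60 = 30 then some (decide (v.1 ≠ -1)) else none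
      else none
    else if v.1 = 0 ∧ v.2 % 30 = 15 then (if ix v.2 ∈ Y then none else some (decide (ix v.2 ∈ X)))
    else if v.1 = 0 ∧ v.2 % 30 = 14 then
      (if ix v.2 ∈ Y then some false else if ix v.2 ∈ D then none else some true)
    else B.net v
  else none

/-- The network with the rows of `Y` switched off. -/
def nety (Y : Finset ℕ) (v : ℤ × ℤ) : Option Bool :=
  if v.1 = 0 ∧ (v.2 % 30 = 15 ∨ v.2 % 30 = 14) ∧ ix v.2 ∈ Y then none else B.net v

/-- What is needed of the network. -/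
structure OK (W : Finset ℕ → Prop) : Prop where
  out : ∀ v, B.net v ≠ none → 0 ≤ v.1 ∧ v.1 < B.wd ∧ 0 ≤ v.2 ∧ v.2 < 30 * B.R
  n0 : ∀ i < B.R, B.net (0, 30 * i) = none ∧ B.net (0, ry i - 2) = none ∧
    B.net (1, ry i - 1) = none ∧ B.net (1, ry i) = none ∧ B.net (0, ry i + 1) = some false ∧
    B.net (0, ry i) = some true ∧ B.net (0, ry i - 1) = some true
  big : 2 * ((B.wd + 1) * (30 * B.R)) + 2 * B.R + 2 * (B.R * B.R) + 4 ≤ B.a
  ev : B.R % 2 = 0
  pos : 0 < B.R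
  wp : 0 < B.wd
  mono : ∀ X i, W X → W (insert i X)
  left : ∀ X Y, Disjoint X Y → W X → Res GZ (B.nety Y) true true
  right : ∀ X Y, (∀ i < B.R, i ∈ X ∨ i ∈ Y) → ¬ W X → ∃ ρ, Pr GZ false ρ (B.nety Y)

variable {B} {W : Finset ℕ → Prop} {X Y D : Finset ℕ} {j : ℕ} {x : ℤ} {v : ℤ × ℤ}

theorem len_nn (j : ℕ) : 0 ≤ B.len j := by
  unfold len
  split_ifs <;> omega

theorem len_le (j : ℕ) : B.a ≤ B.len j ∧ B.len j ≤ 3 * B.a := by
  unfold len
  split_ifs <;> omega

theorem lo_le (y : ℤ) : lo B.len y ≤ -1 - B.a ∧ -1 - 3 * B.a ≤ lo B.len y := by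
  have := len_le (B := B) (ix y)
  unfold lo
  omega

theorem ry_in (hj : j < B.R) : 0 ≤ ry j ∧ ry j < 30 * B.R := by unfold ry; omega

theorem ry_mod (j : ℕ) : ry j % 30 = 15 := by unfold ry; omega

theorem st_beta (hj : j < B.R) :
    B.st X Y D (-1, ry j) = if j ∈ X ∧ j ∉ D then none else some true := by
  have := lo_le (B := B) (ry j)
  simp [st, ry_in hj, ry_mod, ix_ry, show lo B.len (ry j) ≤ -1 by omega]

theorem st_tail (hj : j < B.R) (a : lo B.len (ry j) ≤ x) (d : x < -1) :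
    B.st X Y D (x, ry j) = some false := by
  simp [st, ry_in hj, ry_mod, a, d.ne, show x < 0 by omega]

theorem st_eps (hj : j < B.R) :
    B.st X Y D (0, ry j) = if j ∈ Y then none else some (decide (j ∈ X)) := by
  simp [st, ry_in hj, ry_mod, ix_ry]

theorem st_gam (hj : j < B.R) : B.st X Y D (0, ry j - 1) =
    if j ∈ Y then some false else if j ∈ D then none else some true := by
  have h1 : 0 ≤ ry j - 1 ∧ ry j - 1 < 30 * B.R := by unfold ry; omega
  have h2 : (ry j - 1) % 30 = 14 := by unfold ry; omega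
  have h3 : ix (ry j - 1) = j := by unfold ix ry; omega
  simp only [st, h1, h2, h3]
  simp

theorem st_kap (hj : j < B.R) (o : j % 2 = 1) (a : lo B.len (30 * j) ≤ x) (d : x < 0) :
    B.st X Y D (x, 30 * j) = some (decide (x ≠ -1)) := by
  have h1 : (0 : ℤ) ≤ 30 * j ∧ (30 : ℤ) * j < 30 * B.R := by omega
  have h2 : ¬ (30 * j : ℤ) % 30 = 15 := by omega
  have h3 : (30 * j : ℤ) % 60 = 30 := by omega
  simp only [st, h1, h2, h3, a, d]
  simp

theorem st_net (h : B.OK W) (a : 0 ≤ v.1) (d : v.1 = 0 → v.2 % 30 ≠ 15 ∧ v.2 % 30 ≠ 14) :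
    B.st X Y D v = B.net v := by
  unfold st
  rw [if_neg (by omega : ¬ v.1 < 0), if_neg (by omega : ¬ (v.1 = 0 ∧ v.2 % 30 = 15)),
    if_neg (by omega : ¬ (v.1 = 0 ∧ v.2 % 30 = 14))]
  split_ifs with e
  · rfl
  · by_contra g
    exact e (h.out v (Ne.symm g)).2.2

theorem st_neg (a : v.1 < 0) {c : Bool} (h : B.st X Y D v = some c) : lo B.len v.2 ≤ v.1 ∧
    ((∃ j < B.R, v.2 = ry j ∧ ((v.1 = -1 ∧ c = true ∧ (j ∈ X → j ∈ D)) ∨ (v.1 < -1 ∧ c = false))) ∨
      ∃ j < B.R, j % 2 = 1 ∧ v.2 = 30 * j ∧ ((v.1 = -1 ∧ c = false) ∨ (v.1 < -1 ∧ c = true))) := by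
  unfold st at h
  rw [if_pos a] at h
  have e : 0 ≤ v.2 ∧ v.2 < 30 * B.R → ix v.2 < B.R := by unfold ix; omega
  split_ifs at h with h1 h2 h3 h4 h5 h6
  · exact ⟨h2, Or.inl ⟨_, e h1, by unfold ix ry; omega, Or.inl ⟨h4, by simpa using h.symm,
      by tauto⟩⟩⟩
  · exact ⟨h2, Or.inl ⟨_, e h1, by unfold ix ry; omega, Or.inr ⟨by omega, by simpa using h.symm⟩⟩⟩
  · refine ⟨h2, Or.inr ⟨_, e h1, by unfold ix; omega, by unfold ix; omega, ?_⟩⟩
    by_cases g : v.1 = -1
    · exact Or.inl ⟨g, by simpa [g] using h.symm⟩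
    · exact Or.inr ⟨by omega, by simpa [g] using h.symm⟩

theorem st_none (a : v.1 < 0) (d : v.1 < lo B.len v.2 ∨ (v.2 % 30 ≠ 15 ∧ v.2 % 30 ≠ 0)) :
    B.st X Y D v = none := by
  rcases e : B.st X Y D v with _ | c
  · rfl
  · obtain ⟨p, ⟨j, -, q, -⟩ | ⟨j, -, -, q, -⟩⟩ := st_neg a e
    · unfold ry at q; omega
    · omega

theorem st_sup (h : B.OK W) (a : B.st X Y D v ≠ none) :
    -1 - 3 * B.a ≤ v.1 ∧ v.1 < B.wd ∧ 0 ≤ v.2 ∧ v.2 < 30 * B.R := by
  have := h.wp
  have := lo_le (B := B) v.2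
  unfold st at a
  split_ifs at a <;> first | exact absurd rfl a | omega | (have := h.out v a; omega)

theorem st_fi (h : B.OK W) : Fi (B.st X Y D) :=
  ((Ico (-1 - 3 * B.a : ℤ) B.wd) ×ˢ (Ico (0 : ℤ) (30 * B.R))).finite_toSet.subset fun v a => by
    have := st_sup h a
    simp only [coe_product, coe_Ico, Set.mem_prod, Set.mem_Ico]
    omega

theorem st_off {X' Y' D' : Finset ℕ} (a : ∀ i ≠ j, (i ∈ X ↔ i ∈ X') ∧ (i ∈ Y ↔ i ∈ Y') ∧
    (i ∈ D ↔ i ∈ D')) (h1 : v ≠ (-1, ry j)) (h2 : v ≠ (0, ry j)) (h3 : v ≠ (0, ry j - 1)) :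
    B.st X Y D v = B.st X' Y' D' v := by
  obtain ⟨x, y⟩ := v
  simp only [ne_eq, Prod.mk.injEq, ry] at h1 h2 h3
  by_cases e : ix y = j
  · unfold st
    unfold ix at e
    dsimp only
    split_ifs <;> first | rfl | omega
  · simp only [st, a _ e]

theorem mv_row {X' Y' D' : Finset ℕ} {f : Pos} (a : ∀ i ≠ j, (i ∈ X ↔ i ∈ X') ∧
    (i ∈ Y ↔ i ∈ Y') ∧ (i ∈ D ↔ i ∈ D'))
    (h0 : ∀ v, v ≠ (-1, ry j) → v ≠ (0, ry j) → v ≠ (0, ry j - 1) → f v = B.st X Y D v)
    (h1 : f (-1, ry j) = B.st X' Y' D' (-1, ry j)) (h2 : f (0, ry j) = B.st X' Y' D' (0, ry j))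
    (h3 : f (0, ry j - 1) = B.st X' Y' D' (0, ry j - 1)) : f = B.st X' Y' D' := by
  funext v
  by_cases e1 : v = (-1, ry j)
  · rw [e1, h1]
  by_cases e2 : v = (0, ry j)
  · rw [e2, h2]
  by_cases e3 : v = (0, ry j - 1)
  · rw [e3, h3]
  rw [h0 v e1 e2 e3, st_off a e1 e2 e3]

theorem mv_clean (hj : j < B.R) (hX : j ∉ X) (hY : j ∉ Y) (hD : j ∉ D) :
    mv (B.st X Y D) (-1, ry j) (0, ry j) = B.st (insert j X) Y D := by
  refine mv_row (j := j) (fun i a => by simp [a]) (fun v a b _ => mv_of_ne a b) ?_ ?_ ?_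
  · rw [mv_src _ (by simp), st_beta hj]; simp [hD]
  · rw [mv_dst, st_beta hj, st_eps hj]; simp [hX, hY]
  · rw [mv_of_ne (by simp) (by simp), st_gam hj, st_gam hj]

theorem mv_dirty (hj : j < B.R) (hX : j ∉ X) (hY : j ∉ Y) (hD : j ∉ D) :
    mv (B.st X Y D) (0, ry j - 1) (0, ry j) = B.st (insert j X) Y (insert j D) := by
  refine mv_row (j := j) (fun i a => by simp [a]) (fun v _ a b => mv_of_ne b a) ?_ ?_ ?_
  · rw [mv_of_ne (by simp) (by simp), st_beta hj, st_beta hj]; simp [hX]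
  · rw [mv_dst, st_gam hj, st_eps hj]; simp [hD, hY]
  · rw [mv_src _ (by simp), st_gam hj]; simp [hY]

theorem mv_red (hj : j < B.R) (hX : j ∉ X) (hY : j ∉ Y) :
    mv (B.st X Y D) (0, ry j) (0, ry j - 1) = B.st X (insert j Y) D := by
  refine mv_row (j := j) (fun i a => by simp [a]) (fun v _ a b => mv_of_ne a b) ?_ ?_ ?_
  · rw [mv_of_ne (by simp) (by simp), st_beta hj, st_beta hj]
  · rw [mv_src _ (by simp; omega), st_eps hj]; simp
  · rw [mv_dst, st_gam hj, st_eps hj]; simp [hX, hY]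

theorem sea_row (hj : j < B.R) (hX : j ∉ X) :
    Sea false (update (B.st X Y D) (0, ry j) none) (ry j) (-1) (lo B.len (ry j)) := by
  have := lo_le (B := B) (ry j)
  have m := ry_mod j
  refine ⟨?_, fun x a d => ?_, by omega, ?_, by simp, fun x a d => ⟨?_, ?_⟩⟩
  · rw [update_of_ne (by simp), st_beta hj]; simp [hX]
  · rw [update_of_ne (by simp; omega), st_tail hj a d]
  all_goals rw [update_of_ne (by simp <;> omega), st_none (by simp; omega) (by simp <;> omega)]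

theorem sea_Y (hj : j < B.R) (hX : j ∉ X) (hY : j ∈ Y) :
    Sea false (B.st X Y D) (ry j) (-1) (lo B.len (ry j)) := by
  have := sea_row (Y := Y) (D := D) hj hX
  rwa [update_eq_self_iff.2 (by rw [st_eps hj, if_pos hY])] at this

theorem fr_U (hj : j < B.R) (hX : j ∉ X) (hY : j ∉ Y) : Fr B.len (B.st X Y D) j :=
  ⟨sea_row hj hX, by rw [st_eps hj]; simp [hX, hY]⟩

theorem sea_K (h : B.OK W) (hj : j < B.R) (o : j % 2 = 1) :
    Sea true (B.st X Y D) (30 * j) (-1) (lo B.len (30 * j)) := by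
  have := lo_le (B := B) (30 * j)
  refine ⟨?_, fun x a d => ?_, by omega, ?_, ?_, fun x a d => ⟨?_, ?_⟩⟩
  · rw [st_kap hj o (by omega) (by omega)]; simp
  · rw [st_kap hj o a (by omega)]; simp [d.ne]
  · rw [st_none (by simp; omega) (by simp)]
  · rw [st_net h (by simp) (by simp)]
    exact (h.n0 j hj).1
  all_goals rw [st_none (by simp; omega) (by simp)]

theorem nb_eps (h : B.OK W) (hj : j < B.R) (a : GZ.Adj (0, ry j) v)
    (d : B.st X Y D v = some true) : v = (-1, ry j) ∨ v = (0, ry j - 1) := by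
  have m := ry_mod j
  have n := h.n0 j hj
  rcases adj_iff.1 a with rfl | rfl | rfl | rfl
  · rw [st_net h (by simp) (by simp)] at d
    simp [n] at d
  · rw [st_net h (by simp) (by simp; omega)] at d
    simp [n] at d
  · simp
  · simp

theorem nb_gam (h : B.OK W) (hj : j < B.R) (a : GZ.Adj (0, ry j - 1) v)
    (d : B.st X Y D v ≠ none) : v = (0, ry j) := by
  have m := ry_mod j
  have n := h.n0 j hj
  rcases adj_iff.1 a with rfl | rfl | rfl | rfl
  · rw [st_net h (by simp) (by simp)] at d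
    simp [n] at d
  · simp
  · exact absurd (st_none (by simp) (by simp; omega)) d
  · rw [st_net h (by simp) (by simp; omega), show ry j - 1 - 1 = ry j - 2 by ring] at d
    simp [n] at d

theorem sum_len {S : Finset ℕ} (h : 0 < B.R) :
    ∑ j ∈ S, B.len j = 3 * B.a * #S - if B.R - 1 ∈ S then 2 * (B.a : ℤ) else 0 := by
  have : ∀ j, B.len j = 3 * B.a - if j = B.R - 1 then 2 * (B.a : ℤ) else 0 := fun j => by
    unfold len
    split_ifs <;> omega
  simp only [this, sum_sub_distrib, sum_ite_eq', sum_const, nsmul_eq_mul]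
  ring

/-- The odd rows. -/
def Od (B : Bd) : Finset ℕ := (range B.R).filter fun i => i % 2 = 1

theorem card_Od (h : B.OK W) : 2 * #B.Od = B.R := by
  have e : B.Od = (range (B.R / 2)).image fun i => 2 * i + 1 := by
    have := h.ev
    ext i
    simp only [Od, mem_filter, mem_range, mem_image]
    exact ⟨fun a => ⟨i / 2, by omega, by omega⟩, fun ⟨k, a, b⟩ => by omega⟩
  rw [e, card_image_of_injective _ fun a b c => by simpa using c, card_range]
  have := h.ev
  omega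

theorem last_Od (h : B.OK W) : B.R - 1 ∈ B.Od := by
  have := h.ev
  have := h.pos
  simp only [Od, mem_filter, mem_range]
  omega

/-- The window around the network. -/
noncomputable def win (B : Bd) : Finset (ℤ × ℤ) := Ico (-1 : ℤ) B.wd ×ˢ Ico (0 : ℤ) (30 * B.R)

theorem card_win : (#B.win : ℤ) = (B.wd + 1) * (30 * B.R) := by
  simp only [win, card_product, Int.card_Ico]
  push_cast
  congr 1

theorem mem_win (h : B.OK W) {c : Bool} (a : B.st X Y D v = some c) (d : -1 ≤ v.1) :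
    v ∈ B.win := by
  have := st_sup (X := X) (Y := Y) (D := D) (v := v) h (by simp [a])
  simp only [win, mem_product, mem_Ico]
  omega

theorem card_tls (S : Finset ℕ) (r : ℕ → ℤ) (e : ∀ j, ix (r j) = j) :
    (#(B.win ∪ S.biUnion fun j => tl B.len (r j)) : ℤ) ≤
      (B.wd + 1) * (30 * B.R) + ∑ j ∈ S, B.len j := by
  have h1 := card_union_le B.win (S.biUnion fun j => tl B.len (r j))
  have h2 : #(S.biUnion fun j => tl B.len (r j)) ≤ _ := card_biUnion_le
  have h3 : ∑ j ∈ S, (#(tl B.len (r j)) : ℤ) ≤ ∑ j ∈ S, B.len j := sum_le_sum fun j _ => by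
    have := card_tl (len := B.len) (y := r j) (len_nn _)
    rwa [e] at this
  rw [← card_win, ← Nat.cast_sum] at *
  omega

theorem phi_rows (S : Finset ℕ) (r : ℕ → ℤ) (e : ∀ j, ix (r j) = j) :
    Phi (S.image r) (fun _ => -1) (lo B.len) = ∑ j ∈ S, B.len j := by
  unfold Phi
  rw [sum_image fun a _ b _ c => by rw [← e a, c, e]]
  exact sum_congr rfl fun j _ => by rw [lo, e]; ring

theorem ix_cy (j : ℕ) : ix (30 * j) = j := by unfold ix; omega

/-- The free rows. -/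
def fre (B : Bd) (X Y : Finset ℕ) : Finset ℕ := range B.R \ (X ∪ Y)

theorem mem_fre : j ∈ B.fre X Y ↔ j < B.R ∧ j ∉ X ∧ j ∉ Y := by simp [fre]

theorem pl_st (h : B.OK W) :
    PL B.len (B.Od.image fun i : ℕ => (30 * i : ℤ)) (B.st X Y ∅) (B.fre X Y)
      (∑ j ∈ B.Od, B.len j - ((B.wd + 1) * (30 * B.R) + ∑ j ∈ Y, B.len j)) := by
  refine ⟨fun _ => -1, B.win ∪ Y.biUnion fun j => tl B.len (ry j), Tls B.len (X ∩ range B.R),
    ⟨fun y hy => ?_, fun v a => ?_, ?_⟩, fun j hj => ?_, ?_⟩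
  · obtain ⟨i, hi, rfl⟩ := mem_image.1 hy
    simp only [Od, mem_filter, mem_range] at hi
    exact sea_K h hi.1 hi.2
  · by_cases e : -1 ≤ v.1
    · exact Or.inl (mem_union_left _ (mem_win h a e))
    obtain ⟨p, ⟨j, q, r, s⟩ | ⟨j, -, -, -, s⟩⟩ := st_neg (by omega) a
    · have t : v ∈ tl B.len (ry j) := mem_tl.2 ⟨r, r ▸ p, by omega⟩
      by_cases x : j ∈ X
      · exact Or.inr (Or.inl ⟨j, by simp [x, q], t⟩)
      by_cases y : j ∈ Y
      · exact Or.inl (mem_union_right _ (mem_biUnion.2 ⟨j, y, t⟩))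
      · exact Or.inr (Or.inr (Or.inl ⟨j, mem_fre.2 ⟨q, x, y⟩, t⟩))
    · simp at s; omega
  · rintro ⟨x, y⟩ ⟨j, hj, t⟩
    simp only [mem_inter, mem_range] at hj
    obtain ⟨rfl, t1, t2⟩ : y = ry j ∧ lo B.len (ry j) ≤ x ∧ x < -1 := mem_tl.1 t
    have m := ry_mod j
    refine ⟨by simp [st_tail hj.2 t1 t2], fun w a => ?_⟩
    have g : ∀ z, lo B.len (ry j) ≤ z → z < -1 → (z, ry j) ∈ Tls B.len (X ∩ range B.R) :=
      fun z p q => ⟨j, by simp [hj], mem_tl.2 ⟨rfl, p, q⟩⟩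
    rcases adj_iff.1 a with rfl | rfl | rfl | rfl
    · by_cases e : x + 1 = -1
      · right
        rw [e, st_beta hj.2]
        simp [hj.1]
      · exact Or.inl (g _ (by omega) (by omega))
    · exact Or.inr (st_none (by simp; omega) (by simp; omega))
    · by_cases e : x = lo B.len (ry j)
      · exact Or.inr (st_none (by simp; omega) (by simp [e]))
      · exact Or.inl (g _ (by omega) (by omega))
    · exact Or.inr (st_none (by simp; omega) (by simp; omega))
  · rw [mem_fre] at hj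
    exact fr_U hj.1 hj.2.1 hj.2.2
  · have := card_tls (B := B) Y ry ix_ry
    rw [phi_rows _ _ ix_cy]
    omega

theorem pr_st (h : B.OK W) (d : Disjoint X Y) (hD : D ⊆ X) (hY : Y ⊆ range B.R) :
    PR B.len B.R (B.st X Y D) (B.fre X Y)
      (∑ j ∈ Y, B.len j - ((B.wd + 1) * (30 * B.R) + ∑ j ∈ B.Od, B.len j)) := by
  refine ⟨Y.image ry, fun _ => -1, B.win ∪ B.Od.biUnion fun j => tl B.len (30 * j), ∅,
    ⟨fun y hy => ?_, fun v a => Or.inl ?_, by simp⟩, fun j hj => ?_, ?_, ?_⟩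
  · obtain ⟨i, hi, rfl⟩ := mem_image.1 hy
    exact sea_Y (mem_range.1 (hY hi)) (disjoint_right.1 d hi) hi
  · by_cases e : -1 ≤ v.1
    · exact mem_union_left _ (mem_win h a e)
    obtain ⟨p, ⟨j, -, -, s⟩ | ⟨j, q, r, s, -⟩⟩ := st_neg (by omega) a
    · simp at s; omega
    · exact mem_union_right _ (mem_biUnion.2 ⟨j, by simp [Od, q, r],
        mem_tl.2 ⟨s, s ▸ p, by omega⟩⟩)
  · rw [mem_fre] at hj
    refine ⟨fr_U hj.1 hj.2.1 hj.2.2, ?_, fun a => ?_⟩
    · rw [st_gam hj.1, if_neg hj.2.2, if_neg fun a => hj.2.1 (hD a)]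
    · obtain ⟨i, hi, e⟩ := mem_image.1 a
      exact hj.2.2 (ry_inj e ▸ hi)
  · have h1 : #(Y.image ry) ≤ #Y := card_image_le
    have h2 := card_union_of_disjoint (s := Y) (t := B.fre X Y)
      (disjoint_left.2 fun j a b => (mem_fre.1 b).2.2 a)
    have h3 : #(Y ∪ B.fre X Y) ≤ #(range B.R) := card_le_card (union_subset hY sdiff_subset)
    rw [card_range] at h3
    omega
  · have := card_tls (B := B) B.Od (fun j => 30 * j) ix_cy
    rw [phi_rows _ _ ix_ry]
    omega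

end Bd

end Pool.Agent.P.MP_6e435d_co.Gr
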