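import Pool.Agent.P.MP_6e435d_co.Gr.Sea
import Pool.Agent.P.MP_6e435d_co.Gr.Net

/-!
The periodic pattern.
-/

set_option autoImplicit false
set_option linter.dupNamespace false

namespace Pool.Agent.P.MP_6e435d_co.Gr

open Pool.Agent.P.MP_6e435d_co.G Function

/-- Directions. -/
def dir : ℕ → ℤ × ℤ
  | 0 => (1, 0)
  | 1 => (0, 1)
  | 2 => (-1, 0)
  | 3 => (0, -1)
  | _ => (0, 0)

theorem forall_adj {v : ℤ × ℤ} {p : ℤ × ℤ → Prop} :
    (∀ w, GZ.Adj v w → p w) ↔ ∀ i : Fin 4, p (v + dir i) := by
  obtain ⟨x, y⟩ := v
  simp only [adj_iff, Fin.forall_fin_succ, Fin.forall_fin_zero]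
  simp [dir, or_imp, forall_and, sub_eq_add_neg]

theorem adj_add {t a b : ℤ × ℤ} : GZ.Adj (t + a) (t + b) ↔ GZ.Adj a b := by
  simp only [GZ, Prod.fst_add, Prod.snd_add]
  omega

instance : DecidableRel GZ.Adj := fun u v => inferInstanceAs (Decidable
  ((u.1 = v.1 ∧ (u.2 + 1 = v.2 ∨ v.2 + 1 = u.2)) ∨ (u.2 = v.2 ∧ (u.1 + 1 = v.1 ∨ v.1 + 1 = u.1))))

instance (v : ℤ × ℤ) (p : ℤ × ℤ → Prop) [DecidablePred p] : Decidable (∀ w, GZ.Adj v w → p w) :=
  decidable_of_iff _ forall_adj.symm

/-- The labels of the tile. -/
def big : ℕ := 0x4000400040006051000000000000000000000000000000000000000000003000300030000013304300000000000000000000000000000000000000601c52145214f7f4f6000060006000000060006000000000000000004130190060006000f1f0f5f81e50165016601e50165017304300000000000000536000000000f3f20000300030003000300030006000000000000000413011000000000000000000420042004200420042001b3043000000000000005360000000000000000000000000000000000060510000000000000041301100000000000000000000000000000000000000133043000000000000005360000000000000000000000000000000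000060510000000000000041301100000000000000000000000000000000000000133043000000000000006000000000000000000000000000000000000000600000000000000000001b304300000000000000000000000000000041301900000000000000006051000000000000000000000000000000000000005360000000000000000013304300000000000000000000000000000041301100000000000000006051000000000000000000000000000000000000005360000000000000000013304300000000000000000000000000000041301100000000000000e3e1e7000000000000400040004000400000000000008781830000000000e2e0e400600060000030003000300030000060006000848082000000000000e5e61e50165016601c521452146020601e50165016868500000000000000e80030003000300000600060000060003000300030008800000000004130190042004200420000000000413019004200420042001b304300000000005360000000000000000000000000536000000000006051000000000041301100000000000000000000004130110000000000000013304300000000005360000000000000000000000000536000000000006051000000000041301100000000000000000000004130110000000000000013304300000000008781830000000000000000000000536000000000e3e1e7000000600060008480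820000000000000000004130110000000000e2e0e4006000501e5016868500000000000000000000000053600000000000e5e61e501600300030008800000000000000000000413011000000000000e80030003000420042001b3043000000000000000000006000000000413019004200420000000060510000000000000000000000001b3043000000005360000000000000000013304300000000000000000060510000000041301100000000000000006051000000000000000000000000133043000000005360000000000000000013304300000000000000000060510000000041301100000000000000e3e1e7000000000000000000000000133043000000008781830000000000e2e0e400600060000000600060000060000060006000848082000000000000e5e61e50165016601e501650166022601e50165016868500000000000000e80030003000300030003000300030003000300030008800000000004130190042004200420042004200420042004200420042001b304300000000005360000000000000000000000000000000000000006051000000000041301100000000000000000000000000000000000000000013304300000000005360000000000000000000000000000000000000006051000000000041301100000000000000000000000000000000000000000013304300000000006000000000000000000000000000000000000000006051000000000000001b304300000000000000000000000000000000000000133043000000006051000000000000000000004000400040000000000060510000000000000013304300000000939200003000300030000060006000133043000000006051000060006000919095981c52145214601e50165016600000000000000012601e5016501697949600006000600000300030003000000000000000003000300030003000001b30430000000000420042004200000000000000004200420042004200605100000000000000000000000000000000000000000000000000000000001330430000000000000000000000000000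

/-- Position in the tile. -/
def cix (v : ℤ × ℤ) : ℕ := (v.1 % 52).toNat * 30 + (v.2 % 30).toNat

/-- The label of a cell. -/
def lb (v : ℤ × ℤ) : ℕ := big >>> (8 * cix v) % 256

/-- The stone of a label. -/
def col (c : ℕ) : Option Bool :=
  if c = 0 then none else some (decide (c / 16 = 3 ∨ c / 16 = 4 ∨ (128 ≤ c ∧ c % 16 < 4)))

/-- The shape of the gadget. -/
def bs : ℕ → ℤ × ℤ
  | 0 => (0, 0)
  | 1 => (1, 0)
  | 2 => (0, -1)
  | 3 => (1, -1)
  | 4 => (0, 1)
  | 5 => (-1, 0)
  | 6 => (-1, 1)
  | 7 => (1, 1)
  | _ => (-2, 0)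

/-- Rotations. -/
def rot : ℕ → ℤ → ℤ → ℤ × ℤ
  | 0, x, y => (x, y)
  | 1, x, y => (-y, x)
  | 2, x, y => (-x, -y)
  | _, x, y => (y, -x)

/-- Offsets in an oriented gadget. -/
def oe (c k : ℕ) : ℤ × ℤ := rot (c / 16 % 4) (if 192 ≤ c then -(bs k).1 else (bs k).1) (bs k).2

/-- Offset of the guard. -/
def og (c : ℕ) : ℤ × ℤ :=
  if 128 ≤ c then oe c (if c % 16 = 4 then 1 else if c % 16 = 5 then 2 else 3) - oe c (c % 16)
  else dir (c % 4) + dir (c % 4)

/-- Offset of the guarded stone. -/
def oi (c : ℕ) : ℤ × ℤ :=
  if 128 ≤ c then oe c (if c % 16 = 1 then 4 else if c % 16 = 2 then 5 else 7) - oe c (c % 16)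
  else -(dir (c % 4) + dir (c % 4))

/-- The pattern. -/
def PT0 : Pat (ℤ × ℤ) where
  π v := col (lb v)
  isT v := lb v / 16 = 1
  isJ v := lb v / 16 = 2
  In v := 128 ≤ lb v
  att v := v + dir (lb v % 4)
  grd v := v + og (lb v)
  ginv v := v + oi (lb v)
  lf v := v + dir (if lb v / 16 = 5 then lb v % 4 else 4)
  qq v := v + dir (lb v % 16 / 4)
  anc v := v + -oe (lb v) (lb v % 16)
  idx v := Fin.ofNat 9 (lb v % 16)
  e a k := a + oe (lb a) k

instance : DecidablePred PT0.isT := fun v => inferInstanceAs (Decidable (lb v / 16 = 1))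
instance : DecidablePred PT0.isJ := fun v => inferInstanceAs (Decidable (lb v / 16 = 2))
instance : DecidablePred PT0.In := fun v => inferInstanceAs (Decidable (128 ≤ lb v))
instance : DecidablePred PT0.Tg := fun v => inferInstanceAs (Decidable (PT0.isT v ∨ PT0.isJ v))
instance : DecidablePred (PT0.Lf GZ) := fun _ => by unfold Pat.Lf; infer_instance
instance : DecidablePred (PT0.Good GZ) := fun _ => by unfold Pat.Good; infer_instance

/-- The local rules at one cell. -/
def At (P : Pat (ℤ × ℤ)) (t : ℤ × ℤ) : Prop :=
  (P.Tg t → (P.π t = some false ∧ P.π (P.att t) = some true ∧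
    P.π (P.grd t) = some true ∧ GZ.Adj t (P.att t) ∧ GZ.Adj (P.grd t) (P.att t) ∧ ¬ P.In t ∧
    ¬ P.In (P.att t) ∧ ¬ P.In (P.grd t)) ∧
    (∀ v, GZ.Adj (P.att t) v → P.π v ≠ none → v = t ∨ v = P.grd t) ∧
    (∀ v, GZ.Adj (P.grd t) v → P.π v ≠ none → v = P.att t) ∧
    ∀ p, GZ.Adj t p → P.π p = some false → ¬ P.Tg p ∧
      (P.isJ t → ¬ P.In p ∧ ∀ s, GZ.Adj p s → P.isJ s → s = t)) ∧
  (P.π t = some false → ∀ r, GZ.Adj t r → P.π r = some true →
    ((P.Tg t ∧ r = P.att t) ∨ P.In t) ∧ GZ.Adj (P.grd t) r ∧
    P.π (P.grd t) = some true ∧ P.ginv (P.grd t) = t) ∧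
  (P.isT t → P.Good GZ t ∨ (GZ.Adj t (P.qq t) ∧ P.Lf GZ (P.qq t) ∧
    ∀ s, GZ.Adj (P.qq t) s → P.isT s → s = t ∨ P.Good GZ s)) ∧
  (P.In t → (P.e (P.anc t) (P.idx t) = t ∧ P.π t = some (colr (P.idx t))) ∧
    (∀ k, P.In (P.e (P.anc t) k) ∧ P.anc (P.e (P.anc t) k) = P.anc t ∧
      P.idx (P.e (P.anc t) k) = k) ∧
    (∀ k l, GZ.Adj (P.e (P.anc t) k) (P.e (P.anc t) l) ↔ (k, l) ∈ EL) ∧
    (∀ w, GZ.Adj t w → P.π w ≠ none →
      (P.In w ∧ P.anc w = P.anc t) ∨ (6 ≤ P.idx t ∧ ¬ P.In w ∧ P.isT w)) ∧
    (P.idx t = 7 → P.grd t = P.e (P.anc t) 3))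

set_option synthInstance.maxSize 8192 in
instance : DecidablePred (At PT0) := fun _ => by unfold At; infer_instance

/-- Cells of the tile that are never removed. -/
def Kp (d : ℤ × ℤ) : Prop :=
  0 ≤ d.1 ∧ d.1 < 52 ∧ 0 ≤ d.2 ∧ d.2 < 30 ∧ d ≠ (20, 5) ∧ d ≠ (24, 29) ∧ d ≠ (0, 15) ∧ d ≠ (0, 14)

instance : DecidablePred Kp := fun _ => by unfold Kp; infer_instance

/-- Partner cells stay in the tile. -/
def Ct (P : Pat (ℤ × ℤ)) (d : ℤ × ℤ) : Prop :=
  (P.Tg d → Kp (P.grd d) ∨ (P.grd d = (0, 14) ∧ P.att d = (0, 15))) ∧
    (P.In d → ∀ k, Kp (P.e (P.anc d) k)) ∧ (P.lf d ≠ d → Kp (P.lf d)) ∧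
    (P.isT d → Kp (P.qq d) ∧ P.π (P.qq d) ≠ none)

instance : DecidablePred (Ct PT0) := fun _ => by unfold Ct; infer_instance

theorem at_fin : ∀ a < 52, ∀ b < 30, At PT0 ((a : ℕ), (b : ℕ)) := by decide +kernel

theorem ct_fin : ∀ a < 52, ∀ b < 30, Ct PT0 ((a : ℕ), (b : ℕ)) := by decide +kernel

/-- The corner of a tile. -/
def tau (i c : ℤ) : ℤ × ℤ := (52 * c, 30 * i)

theorem cix_tau (i c : ℤ) (v : ℤ × ℤ) : cix (tau i c + v) = cix v := by
  simp [cix, tau]

theorem lb_tau (i c : ℤ) (v : ℤ × ℤ) : lb (tau i c + v) = lb v := by rw [lb, cix_tau, lb]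

theorem exists_tau (v : ℤ × ℤ) : ∃ a < 52, ∃ b < 30,
    v = tau (v.2 / 30) (v.1 / 52) + (((a : ℕ) : ℤ), ((b : ℕ) : ℤ)) :=
  ⟨(v.1 % 52).toNat, by omega, (v.2 % 30).toNat, by omega,
    Prod.ext (by simp only [tau, Prod.fst_add]; omega) (by simp only [tau, Prod.snd_add]; omega)⟩

theorem at_tau (i c : ℤ) (v : ℤ × ℤ) : At PT0 (tau i c + v) ↔ At PT0 v := by
  simp only [At, Pat.Tg, Pat.Good, Pat.Lf, forall_adj, PT0, add_assoc, lb_tau, adj_add,
    add_right_inj]

theorem ok0 : PT0.OK GZ := by
  have h : ∀ v, At PT0 v := fun v => by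
    obtain ⟨a, ha, b, hb, e⟩ := exists_tau v
    rw [e, at_tau]
    exact at_fin a ha b hb
  exact ⟨fun t a => ((h t).1 a).1, fun t a => ((h t).1 a).2.1, fun t a => ((h t).1 a).2.2.1,
    fun z r l => (h z).2.1 l.2.1 r l.1 l.2.2, fun t p a => ((h t).1 a).2.2.2 p,
    fun t => (h t).2.2.1, fun t a => ((h t).2.2.2 a).1, fun t a => ((h t).2.2.2 a).2.1,
    fun t a => ((h t).2.2.2 a).2.2.1, fun t a => ((h t).2.2.2 a).2.2.2.1,
    fun t a => ((h t).2.2.2 a).2.2.2.2⟩

end Pool.Agent.P.MP_6e435d_co.Gr
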